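import Pool.Agent.H464Z.RatDefs

/-!
Primitivity of the Jacobi characters and the functional equation in quotient form.
-/

namespace Pool.Agent.H464Z.Rat

open Complex DirichletCharacter Filter Topology

lemma chi_apply (n : ℕ) [NeZero n] (a : ZMod n) :
    chi n a = ((jacobiSym (a.val : ℤ) n : ℤ) : ℂ) := rfl

lemma chi_intCast (n : ℕ) [NeZero n] (a : ℤ) :
    chi n (a : ZMod n) = ((jacobiSym a n : ℤ) : ℂ) := by
  rw [chi_apply]
  congr 1
  apply jacobiSym.mod_left'
  rw [ZMod.val_intCast]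
  simp

lemma chi_quadratic (n : ℕ) [NeZero n] : (chi n).IsQuadratic := by
  intro a
  rw [chi_apply]
  rcases jacobiSym.trichotomy (a.val : ℤ) n with h | h | h <;> rw [h] <;> simp

lemma chi_inv (n : ℕ) [NeZero n] : (chi n)⁻¹ = chi n := (chi_quadratic n).inv

lemma exists_nonres (p m : ℕ) (hp : p.Prime) (hp2 : p ≠ 2) (hm : m ≠ 0) (hc : Nat.Coprime p m) :
    ∃ a : ℤ, jacobiSym a (p * m) = -1 ∧ a % m = 1 % m := by
  have := Fact.mk hp
  have hch : ringChar (ZMod p) ≠ 2 := by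
    rw [ZMod.ringChar_zmod_n]; exact hp2
  obtain ⟨b, hb⟩ := FiniteField.exists_nonsquare hch
  obtain ⟨k, hk1, hk2⟩ := Nat.chineseRemainder hc b.val 1
  refine ⟨k, ?_, ?_⟩
  · rw [jacobiSym.mul_right' _ hp.ne_zero hm]
    have h1 : jacobiSym (k : ℤ) p = -1 := by
      rw [ZMod.nonsquare_iff_jacobiSym_eq_neg_one]
      have : ((k : ℤ) : ZMod p) = b := by
        have := (ZMod.natCast_eq_natCast_iff' k b.val p).2 hk1
        simpa using this
      rw [this]; exact hb
    have h2 : jacobiSym (k : ℤ) m = 1 := by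
      have : jacobiSym (k : ℤ) m = jacobiSym 1 m := by
        apply jacobiSym.mod_left'
        have := hk2
        unfold Nat.ModEq at this
        exact_mod_cast this
      rw [this, jacobiSym.one_left]
    rw [h1, h2]; norm_num
  · have := hk2
    unfold Nat.ModEq at this
    exact_mod_cast this

lemma chi_primitive (n : ℕ) [NeZero n] (ho : Odd n) (hs : Squarefree n) : (chi n).IsPrimitive := by
  rw [isPrimitive_def]
  by_contra hne
  obtain ⟨e, he⟩ := (chi n).conductor_dvd_level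
  have he1 : e ≠ 1 := by
    rintro rfl
    exact hne (by simpa using he.symm)
  obtain ⟨p, hp, f, hf⟩ := Nat.exists_prime_and_dvd he1
  set d := (chi n).conductor with hd
  have hn : n = p * (d * f) := by rw [he, hf]; ring
  have hm : d * f ≠ 0 := by
    intro h0
    apply NeZero.ne n
    rw [hn, h0, mul_zero]
  have hp2 : p ≠ 2 := by
    rintro rfl
    rw [hn] at ho
    exact (Nat.not_odd_iff_even.2 (even_two_mul _)) ho
  have hc : Nat.Coprime p (d * f) := by
    have := hs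
    rw [hn] at this
    exact Nat.coprime_of_squarefree_mul this
  obtain ⟨a, ha1, ha2⟩ := exists_nonres p (d * f) hp hp2 hm hc
  rw [← hn] at ha1
  have hcop : IsCoprime a (n : ℤ) := by
    rw [Int.isCoprime_iff_gcd_eq_one]
    by_contra h
    have := jacobiSym.eq_zero_iff_not_coprime.2 h
    rw [ha1] at this
    norm_num at this
  have hft := (chi n).factorsThrough_conductor
  have h1 : chi n (a : ZMod n) = hft.χ₀ (a : ZMod d) := by
    conv_lhs => rw [hft.eq_changeLevel]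
    exact changeLevel_eq_cast_of_dvd' _ _ hcop
  have h2 : (a : ZMod d) = 1 := by
    have h3 : a ≡ 1 [ZMOD ((d * f : ℕ) : ℤ)] := ha2
    have h4 : a ≡ 1 [ZMOD (d : ℤ)] := h3.of_dvd (by push_cast; exact Dvd.intro _ rfl)
    have := (ZMod.intCast_eq_intCast_iff a 1 d).2 h4
    simpa using this
  rw [h2, map_one, chi_intCast, ha1] at h1
  norm_num at h1

lemma gammaFactor_ne_zero {n : ℕ} (χ : DirichletCharacter ℂ n) {s : ℂ} (hs : 0 < s.re) :
    gammaFactor χ s ≠ 0 := by
  rcases χ.even_or_odd with h | h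
  · rw [h.gammaFactor_def]; exact Gammaℝ_ne_zero_of_re_pos hs
  · rw [h.gammaFactor_def]; exact Gammaℝ_ne_zero_of_re_pos (by simp; linarith)

lemma completed_eq {n : ℕ} [NeZero n] (χ : DirichletCharacter ℂ n) {s : ℂ} (hs : 0 < s.re) :
    completedLFunction χ s = LFunction χ s * gammaFactor χ s := by
  have h0 : s ≠ 0 := by rintro rfl; simp at hs
  rw [LFunction_eq_completed_div_gammaFactor χ s (Or.inl h0),
    div_mul_cancel₀ _ (gammaFactor_ne_zero χ hs)]

lemma norm_rootNumber {n : ℕ} [NeZero n] (χ : DirichletCharacter ℂ n) (hχ : χ.IsPrimitive)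
    (hi : χ⁻¹ = χ) : ‖rootNumber χ‖ = 1 := by
  have h1 := hχ.completedLFunction_one_sub 2
  have h2 := hχ.completedLFunction_one_sub (-1)
  rw [hi] at h1 h2
  have e1 : (1 : ℂ) - 2 = -1 := by norm_num
  have e2 : (1 : ℂ) - -1 = 2 := by norm_num
  rw [e1] at h1
  rw [e2, h1] at h2
  have hne : completedLFunction χ 2 ≠ 0 := by
    rw [completed_eq χ (by norm_num)]
    exact mul_ne_zero (LFunction_ne_zero_of_one_le_re χ (Or.inr (by norm_num)) (by norm_num))
      (gammaFactor_ne_zero χ (by norm_num))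
  have hn : (n : ℂ) ≠ 0 := Nat.cast_ne_zero.2 (NeZero.ne n)
  have hpow : (n : ℂ) ^ ((-1 : ℂ) - 1 / 2) * (n : ℂ) ^ ((2 : ℂ) - 1 / 2) = 1 := by
    rw [← cpow_add _ _ hn]; norm_num
  have h3 : rootNumber χ ^ 2 = 1 := by
    have : (rootNumber χ ^ 2 - 1) * completedLFunction χ 2 = 0 := by
      linear_combination (-1 : ℂ) * h2 - (rootNumber χ ^ 2 * completedLFunction χ 2) * hpow
    rcases mul_eq_zero.1 this with h | h
    · exact sub_eq_zero.1 h
    · exact absurd h hne
  have h4 : ‖rootNumber χ‖ ^ 2 = 1 := by rw [← norm_pow, h3, norm_one]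
  have h5 := norm_nonneg (rootNumber χ)
  nlinarith

lemma alg_aux {A B q g₁ g₂ e N p : ℂ} (hg : g₁ ≠ 0) (hq : q ≠ 0)
    (h : A * (q * g₁) = N * e * (B * (p * q * g₂))) : A = e * N * p * (g₂ / g₁) * B := by
  field_simp
  apply mul_left_cancel₀ hq
  linear_combination h

/-- The functional equation in quotient form. -/
lemma fe (n : ℕ) (ho : Odd n) (hs : Squarefree n) :
    ∃ ε : ℂ, ∃ b : Bool, ‖ε‖ = 1 ∧ ∀ α : ℂ, -1 / 2 < α.re → α.re < 1 / 2 →
      L n (1 / 2 + α) = ε * (n : ℂ) ^ (-α) * (Real.pi : ℂ) ^ α * (if b then Ge α else Go α) *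
        L n (1 / 2 - α) := by
  obtain ⟨m, rfl⟩ : ∃ m, n = m + 1 := ⟨n - 1, by have := ho.pos; omega⟩
  set χ := chi (m + 1) with hχ
  have hp : χ.IsPrimitive := chi_primitive _ ho hs
  have hi : χ⁻¹ = χ := chi_inv _
  have hpi : (Real.pi : ℂ) ≠ 0 := ofReal_ne_zero.2 Real.pi_ne_zero
  have key : ∀ α : ℂ, -1 / 2 < α.re → α.re < 1 / 2 →
      LFunction χ (1 / 2 + α) * gammaFactor χ (1 / 2 + α) =
        ((m + 1 : ℕ) : ℂ) ^ (-α) * rootNumber χ *
          (LFunction χ (1 / 2 - α) * gammaFactor χ (1 / 2 - α)) := by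
    intro α h1 h2
    have h := hp.completedLFunction_one_sub (1 / 2 - α)
    rw [hi] at h
    have e1 : 1 - (1 / 2 - α) = 1 / 2 + α := by ring
    have e2 : 1 / 2 - α - 1 / 2 = -α := by ring
    rw [e1, e2, completed_eq χ (by simp; linarith), completed_eq χ (by simp; linarith)] at h
    exact h
  rcases χ.even_or_odd with h | h
  · refine ⟨rootNumber χ, true, norm_rootNumber χ hp hi, fun α h1 h2 => ?_⟩
    have hk := key α h1 h2
    rw [h.gammaFactor_def, h.gammaFactor_def, Gammaℝ_def, Gammaℝ_def] at hk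
    have hG : Gamma (1 / 4 + α / 2) ≠ 0 := Gamma_ne_zero_of_re_pos (by simp; linarith)
    have e1 : (1 / 2 + α) / 2 = 1 / 4 + α / 2 := by ring
    have e2 : (1 / 2 - α) / 2 = 1 / 4 - α / 2 := by ring
    have e3 : (Real.pi : ℂ) ^ (-(1 / 2 - α) / 2) =
        (Real.pi : ℂ) ^ α * (Real.pi : ℂ) ^ (-(1 / 2 + α) / 2) := by
      rw [← cpow_add _ _ hpi]; congr 1; ring
    have hq : (Real.pi : ℂ) ^ (-(1 / 2 + α) / 2) ≠ 0 := by
      rw [Ne, cpow_eq_zero_iff]; tauto
    rw [e1, e2, e3] at hk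
    show LFunction χ (1 / 2 + α) = _ * LFunction χ (1 / 2 - α)
    simp only [if_true, Ge]
    exact alg_aux hG hq hk
  · refine ⟨rootNumber χ, false, norm_rootNumber χ hp hi, fun α h1 h2 => ?_⟩
    have hk := key α h1 h2
    rw [h.gammaFactor_def, h.gammaFactor_def, Gammaℝ_def, Gammaℝ_def] at hk
    have hG : Gamma (3 / 4 + α / 2) ≠ 0 := Gamma_ne_zero_of_re_pos (by simp; linarith)
    have e1 : (1 / 2 + α + 1) / 2 = 3 / 4 + α / 2 := by ring
    have e2 : (1 / 2 - α + 1) / 2 = 3 / 4 - α / 2 := by ring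
    have e3 : (Real.pi : ℂ) ^ (-(1 / 2 - α + 1) / 2) =
        (Real.pi : ℂ) ^ α * (Real.pi : ℂ) ^ (-(1 / 2 + α + 1) / 2) := by
      rw [← cpow_add _ _ hpi]; congr 1; ring
    have hq : (Real.pi : ℂ) ^ (-(1 / 2 + α + 1) / 2) ≠ 0 := by
      rw [Ne, cpow_eq_zero_iff]; tauto
    rw [e1, e2, e3] at hk
    show LFunction χ (1 / 2 + α) = _ * LFunction χ (1 / 2 - α)
    simp only [Bool.false_eq_true, if_false, Go]
    exact alg_aux hG hq hk

lemma L_differentiableAt (n : ℕ) {s : ℂ} (hs : s ≠ 1) : DifferentiableAt ℂ (L n) s := by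
  cases n with
  | zero => exact differentiableAt_const (0 : ℂ)
  | succ m => exact differentiableAt_LFunction (chi (m + 1)) s (Or.inl hs)

lemma L_two_ne_zero (n : ℕ) (hn : n ≠ 0) : L n 2 ≠ 0 := by
  cases n with
  | zero => exact absurd rfl hn
  | succ m =>
    exact LFunction_ne_zero_of_one_le_re (chi (m + 1)) (Or.inr (by norm_num)) (by norm_num)

lemma L_eventually_ne_zero (n : ℕ) (hn : n ≠ 0) {s : ℂ} (hs : s ≠ 1) :
    ∀ᶠ z in 𝓝[≠] s, L n z ≠ 0 := by
  by_contra h
  have hf : ∃ᶠ z in 𝓝[≠] s, L n z = 0 := h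
  have hpc : IsPreconnected ({1}ᶜ : Set ℂ) :=
    (isConnected_compl_singleton_of_one_lt_rank (rank_real_complex ▸ Nat.one_lt_ofNat) _)
      |>.isPreconnected
  have han : AnalyticOnNhd ℂ (L n) ({1}ᶜ : Set ℂ) :=
    DifferentiableOn.analyticOnNhd (fun z hz => (L_differentiableAt n hz).differentiableWithinAt)
      isOpen_compl_singleton
  have := han.eqOn_zero_of_preconnected_of_frequently_eq_zero hpc hs hf
    (show (2 : ℂ) ∈ ({1}ᶜ : Set ℂ) by simp)
  exact L_two_ne_zero n hn this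

end Pool.Agent.H464Z.Rat
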