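import Pool.Agent.H464Z.R8Defs
import Pool.Agent.H464Z.RatChar
import Pool.Agent.Helper427.Recip

/-!
The characters `χ_{8d}` are primitive with root number one.
-/

namespace Pool.Agent.H464Z.R8

open Complex DirichletCharacter

/-- Gauss sum of a function on the integers -/
noncomputable def tau (N : ℕ) [NeZero N] (F : ℤ → ℤ) : ℂ :=
  ∑ a : ZMod N, ((F a.val : ℤ) : ℂ) * ZMod.stdAddChar a

lemma sum_crt (N₁ N₂ : ℕ) [NeZero N₁] [NeZero N₂] [NeZero (N₁ * N₂)] (hc : Nat.Coprime N₁ N₂)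
    (Φ : ZMod (N₁ * N₂) → ℂ) :
    ∑ a, Φ a = ∑ x : ZMod N₁, ∑ y : ZMod N₂, Φ ((N₂ * x.val + N₁ * y.val : ℕ) : ZMod (N₁ * N₂)) := by
  rw [← Fintype.sum_prod_type']
  symm
  refine Function.Bijective.sum_comp (e := fun z : ZMod N₁ × ZMod N₂ =>
    ((N₂ * z.1.val + N₁ * z.2.val : ℕ) : ZMod (N₁ * N₂))) ?_ Φ
  rw [Fintype.bijective_iff_injective_and_card]
  refine ⟨?_, by simp [ZMod.card]⟩
  rintro ⟨x, y⟩ ⟨x', y'⟩ h
  have h' := (ZMod.natCast_eq_natCast_iff _ _ _).1 h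
  have h1 := h'.of_mul_right N₂
  have h2 := h'.of_mul_left N₁
  have u1 : IsUnit (N₂ : ZMod N₁) := (ZMod.isUnit_iff_coprime _ _).2 hc.symm
  have u2 : IsUnit (N₁ : ZMod N₂) := (ZMod.isUnit_iff_coprime _ _).2 hc
  have e1 := (ZMod.natCast_eq_natCast_iff _ _ _).2 h1
  have e2 := (ZMod.natCast_eq_natCast_iff _ _ _).2 h2
  simp at e1 e2
  exact Prod.ext (u1.mul_left_cancel e1) (u2.mul_left_cancel e2)

lemma tau_mul (N₁ N₂ : ℕ) [NeZero N₁] [NeZero N₂] [NeZero (N₁ * N₂)] (hc : Nat.Coprime N₁ N₂)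
    (F₁ F₂ : ℤ → ℤ) (p1 : ∀ a b : ℤ, a ≡ b [ZMOD N₁] → F₁ a = F₁ b)
    (p2 : ∀ a b : ℤ, a ≡ b [ZMOD N₂] → F₂ a = F₂ b)
    (m1 : ∀ a b, F₁ (a * b) = F₁ a * F₁ b) (m2 : ∀ a b, F₂ (a * b) = F₂ a * F₂ b) :
    tau (N₁ * N₂) (fun a => F₁ a * F₂ a) = (F₁ N₂ : ℂ) * (F₂ N₁ : ℂ) * (tau N₁ F₁ * tau N₂ F₂) := by
  unfold tau
  rw [sum_crt N₁ N₂ hc, Finset.sum_mul_sum, Finset.mul_sum]
  refine Finset.sum_congr rfl fun x _ => ?_
  rw [Finset.mul_sum]
  refine Finset.sum_congr rfl fun y _ => ?_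
  set n : ℕ := N₂ * x.val + N₁ * y.val with hn
  have hv : ((((n : ℕ) : ZMod (N₁ * N₂)).val : ℕ) : ℤ) ≡ n [ZMOD ((N₁ * N₂ : ℕ) : ℤ)] := by
    rw [← ZMod.intCast_eq_intCast_iff, Int.cast_natCast, Int.cast_natCast, ZMod.natCast_zmod_val]
  have a1 : F₁ ((n : ZMod (N₁ * N₂)).val) = F₁ N₂ * F₁ x.val := by
    rw [← m1]
    refine p1 _ _ ((hv.of_dvd (by push_cast; exact Dvd.intro _ rfl)).trans ?_)
    rw [hn]; push_cast
    exact Int.modEq_iff_dvd.2 ⟨-(y.val : ℤ), by ring⟩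
  have a2 : F₂ ((n : ZMod (N₁ * N₂)).val) = F₂ N₁ * F₂ y.val := by
    rw [← m2]
    refine p2 _ _ ((hv.of_dvd (by push_cast; exact Dvd.intro_left _ rfl)).trans ?_)
    rw [hn]; push_cast
    exact Int.modEq_iff_dvd.2 ⟨-(x.val : ℤ), by ring⟩
  have a3 : ZMod.stdAddChar (n : ZMod (N₁ * N₂)) = ZMod.stdAddChar x * ZMod.stdAddChar y := by
    have b1 := ZMod.stdAddChar_coe (N := N₁ * N₂) (n : ℤ)
    have b2 := ZMod.stdAddChar_coe (N := N₁) (x.val : ℤ)
    have b3 := ZMod.stdAddChar_coe (N := N₂) (y.val : ℤ)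
    rw [Int.cast_natCast, Int.cast_natCast] at b1
    rw [Int.cast_natCast, Int.cast_natCast, ZMod.natCast_zmod_val] at b2 b3
    rw [b1, b2, b3, ← exp_add]
    congr 1
    have : (N₁ : ℂ) ≠ 0 := Nat.cast_ne_zero.2 (NeZero.ne _)
    have : (N₂ : ℂ) ≠ 0 := Nat.cast_ne_zero.2 (NeZero.ne _)
    rw [hn]
    generalize x.val = u
    generalize y.val = v
    push_cast
    field_simp
  beta_reduce
  rw [a1, a2, a3]
  push_cast
  ring

lemma sum_zmod_range (N : ℕ) [NeZero N] (f : ℕ → ℂ) :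
    ∑ a : ZMod N, f a.val = ∑ n ∈ Finset.range N, f n := by
  refine Finset.sum_bij (fun a _ => a.val) (fun a _ => Finset.mem_range.2 (ZMod.val_lt a))
    (fun a _ b _ h => ZMod.val_injective N h) (fun b hb => ?_) (fun _ _ => rfl)
  exact ⟨(b : ZMod N), Finset.mem_univ _, ZMod.val_cast_of_lt (Finset.mem_range.1 hb)⟩

lemma tau_range (N : ℕ) [NeZero N] (F : ℤ → ℤ) :
    tau N F = ∑ n ∈ Finset.range N, ((F n : ℤ) : ℂ) * cexp (2 * Real.pi * I * n / N) := by
  rw [← sum_zmod_range N fun n => ((F n : ℤ) : ℂ) * cexp (2 * Real.pi * I * n / N)]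
  refine Finset.sum_congr rfl fun a _ => ?_
  have := ZMod.stdAddChar_coe (N := N) (a.val : ℤ)
  rw [Int.cast_natCast, ZMod.natCast_zmod_val, Int.cast_natCast] at this
  rw [this]

/-- the eighth root of unity -/
lemma exp_pi_four : cexp (Real.pi * I / 4) = ((√2 / 2 : ℝ) : ℂ) * (1 + I) := by
  rw [show (Real.pi : ℂ) * I / 4 = ((Real.pi / 4 : ℝ) : ℂ) * I by push_cast; ring, exp_mul_I,
    ← ofReal_cos, ← ofReal_sin, Real.cos_pi_div_four, Real.sin_pi_div_four]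
  ring

/-- the sign of the Gauss sum -/
noncomputable def eps (m : ℕ) : ℂ := if m % 4 = 1 then 1 else I

lemma tau_prime (p : ℕ) (hp : p.Prime) (hp2 : p ≠ 2) [NeZero p] :
    tau p (fun a => jacobiSym a p) = eps p * (√(p : ℝ) : ℂ) := by
  have := Fact.mk hp
  have hodd : p % 2 = 1 := hp.eq_two_or_odd.resolve_left hp2
  have h1 : ∑ x : ZMod p, ZMod.stdAddChar (x ^ 2) = tau p (fun a => jacobiSym a p) := by
    rw [← Finset.sum_fiberwise (s := Finset.univ) (g := fun x : ZMod p => x ^ 2)]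
    have h0 : ∑ a : ZMod p, ZMod.stdAddChar a = 0 := by
      refine AddChar.sum_eq_zero_of_ne_one fun h => ?_
      have := (ZMod.isPrimitive_stdAddChar p) (one_ne_zero (α := ZMod p))
      rw [AddChar.mulShift_one] at this
      exact this h
    unfold tau
    rw [← add_zero (∑ a : ZMod p, _ * _), ← h0, ← Finset.sum_add_distrib]
    refine Finset.sum_congr rfl fun a _ => ?_
    rw [Finset.sum_congr rfl (g := fun _ => ZMod.stdAddChar a)
      (fun x hx => by rw [(Finset.mem_filter.1 hx).2]), Finset.sum_const, nsmul_eq_mul]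
    have hc := legendreSym.card_sqrts p hp2 (a.val : ℤ)
    rw [jacobiSym.legendreSym.to_jacobiSym] at hc
    have hc2 : ((Finset.univ.filter fun x : ZMod p => x ^ 2 = a).card : ℤ) =
        jacobiSym (a.val : ℤ) p + 1 := by
      rw [← hc]
      congr 2
      ext x
      simp
    have hc3 : ((Finset.univ.filter fun x : ZMod p => x ^ 2 = a).card : ℂ) =
        (jacobiSym (a.val : ℤ) p : ℂ) + 1 := by exact_mod_cast hc2
    rw [hc3]
    ring
  have h2 : ∑ x : ZMod p, ZMod.stdAddChar (x ^ 2) =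
      ∑ n ∈ Finset.range p, cexp (Real.pi * I * (2 * (n : ℂ) ^ 2) / p) := by
    rw [← sum_zmod_range p fun n => cexp (Real.pi * I * (2 * (n : ℂ) ^ 2) / p)]
    refine Finset.sum_congr rfl fun a _ => ?_
    have := ZMod.stdAddChar_coe (N := p) ((a.val : ℤ) ^ 2)
    rw [Int.cast_pow, Int.cast_natCast, ZMod.natCast_zmod_val] at this
    rw [this]
    congr 1
    push_cast
    ring
  have h3 := Recip.reciprocity 2 p 0 (by simp)
  simp only [Int.cast_zero, zero_mul, add_zero, zero_sub, Fin.sum_univ_two] at h3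
  rw [← h1, h2, Finset.sum_range]
  push_cast at h3
  rw [h3, exp_pi_four]
  have h4 : cexp (Real.pi * I * -((p : ℂ) * 1 ^ 2) / 2) = (-I) ^ p := by
    rw [← exp_neg_pi_div_two_mul_I, ← exp_nat_mul]
    congr 1
    ring
  have h5 : (√((p : ℝ) / 2) : ℂ) * ((√2 / 2 : ℝ) : ℂ) * 2 = (√(p : ℝ) : ℂ) := by
    have : √((p : ℝ) / 2) * (√2 / 2) * 2 = √(p : ℝ) := by
      rw [Real.sqrt_div (Nat.cast_nonneg p)]
      field_simp
    exact_mod_cast this
  simp only [Fin.val_zero, Fin.val_one, Nat.cast_zero, Nat.cast_one]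
  rw [h4, ← h5]
  have h6 : (-I) ^ p = (-I) ^ (p % 4) := by
    conv_lhs => rw [← Nat.div_add_mod p 4, pow_add, pow_mul]
    rw [show (-I) ^ 4 = 1 by rw [Even.neg_pow (by decide), I_pow_four], one_pow, one_mul]
  rw [h6, eps]
  rcases (by omega : p % 4 = 1 ∨ p % 4 = 3) with h | h
  · rw [h]
    simp
    linear_combination (-(√((p : ℝ)) : ℂ) / (√2 : ℝ) * ((√2 : ℝ) / 2)) * I_mul_I
  · rw [h]
    simp
    have : (-I) ^ 3 = I := by rw [Odd.neg_pow (by decide), I_pow_three, neg_neg]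
    rw [this]
    linear_combination ((√((p : ℝ)) : ℂ) / (√2 : ℝ) * ((√2 : ℝ) / 2)) * I_mul_I

lemma tau_congr {N N' : ℕ} [NeZero N] [NeZero N'] (h : N = N') (F : ℤ → ℤ) : tau N F = tau N' F := by
  subst h; rfl

lemma tau_jac (m : ℕ) : ∀ [NeZero m], Odd m → Squarefree m →
    tau m (fun a => jacobiSym a m) = eps m * (√(m : ℝ) : ℂ) := by
  induction m using induction_on_primes with
  | zero => intro _ h; simp at h
  | one => intro _ _ _; rw [tau_range]; simp [eps]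
  | prime_mul p a hp ih =>
    intro _ ho hs
    have ha0 : a ≠ 0 := by rintro rfl; simp at ho
    have : NeZero a := ⟨ha0⟩
    have : NeZero p := ⟨hp.ne_zero⟩
    obtain ⟨hpo, hao⟩ := Nat.odd_mul.1 ho
    have hc : Nat.Coprime p a := Nat.coprime_of_squarefree_mul hs
    have hp2 : p ≠ 2 := by rintro rfl; exact absurd hpo (by decide)
    have e : (fun x : ℤ => jacobiSym x (p * a)) = fun x => jacobiSym x p * jacobiSym x a := by
      ext x; rw [jacobiSym.mul_right]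
    rw [e, tau_mul p a hc (fun x => jacobiSym x p) (fun x => jacobiSym x a)
      (fun _ _ h => jacobiSym.mod_left' h) (fun _ _ h => jacobiSym.mod_left' h)
      (fun _ _ => jacobiSym.mul_left _ _ _) (fun _ _ => jacobiSym.mul_left _ _ _),
      tau_prime p hp hp2, ih hao (hs.of_mul_right)]
    have hsq : jacobiSym (a : ℤ) p ^ 2 = 1 :=
      jacobiSym.sq_one (by rw [Int.gcd_natCast_natCast]; exact hc.symm)
    have hsq' : (jacobiSym (a : ℤ) p : ℂ) ^ 2 = 1 := by exact_mod_cast hsq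
    rw [jac_recip hpo hao, Nat.cast_mul, Real.sqrt_mul (Nat.cast_nonneg p)]
    have hp2 : p % 2 = 1 := Nat.odd_iff.1 hpo
    have ha2 : a % 2 = 1 := Nat.odd_iff.1 hao
    unfold eps
    rw [Nat.mul_mod]
    rcases (by omega : p % 4 = 1 ∨ p % 4 = 3) with h | h <;>
      rcases (by omega : a % 4 = 1 ∨ a % 4 = 3) with h' | h'
    · simp only [h, h']; push_cast; simp
      linear_combination ((√(p : ℝ) : ℂ) * (√(a : ℝ) : ℂ)) * hsq'
    · simp only [h, h']; push_cast; simp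
      linear_combination (I * (√(p : ℝ) : ℂ) * (√(a : ℝ) : ℂ)) * hsq'
    · simp only [h, h', ZMod.χ₄_nat_one_mod_four h']; push_cast; simp
      linear_combination (I * (√(p : ℝ) : ℂ) * (√(a : ℝ) : ℂ)) * hsq'
    · simp only [h, h', ZMod.χ₄_nat_three_mod_four h']; push_cast; simp
      linear_combination (-I * I * (√(p : ℝ) : ℂ) * (√(a : ℝ) : ℂ)) * hsq' -
        ((√(p : ℝ) : ℂ) * (√(a : ℝ) : ℂ)) * I_mul_I

lemma tau_psi (d : ℤ) : tau 8 (psi d) = (if d % 4 = 1 then 1 else I) * (√8 : ℝ) := by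
  rw [tau_range]
  have hz : ∀ n : ℕ, cexp (2 * Real.pi * I * n / (8 : ℕ)) = cexp (Real.pi * I / 4) ^ n := by
    intro n
    rw [← exp_nat_mul]; congr 1; push_cast; ring
  simp_rw [hz]
  rw [exp_pi_four]
  have h8 : √8 = 2 * √2 := by
    rw [show (8 : ℝ) = 2 ^ 2 * 2 by norm_num, Real.sqrt_mul (by norm_num), Real.sqrt_sq (by norm_num)]
  have h2 : ((√2 : ℝ) : ℂ) ^ 2 = 2 := by exact_mod_cast Real.sq_sqrt (by norm_num : (0 : ℝ) ≤ 2)
  rw [h8]
  set z : ℂ := ((√2 / 2 : ℝ) : ℂ) * (1 + I) with hzz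
  have z2 : z ^ 2 = I := by
    rw [hzz]; push_cast
    linear_combination ((1 + I) ^ 2 / 4) * h2 + (1 / 2) * I_mul_I
  have z3 : z ^ 3 = I * z := by rw [pow_succ, z2]
  have z5 : z ^ 5 = -z := by
    rw [show z ^ 5 = (z ^ 2) ^ 2 * z by ring, z2, I_sq]; ring
  have z7 : z ^ 7 = -(I * z) := by
    rw [show z ^ 7 = z ^ 5 * z ^ 2 by ring, z5, z2]; ring
  have hv : ∀ n : ℕ, psi d n = if d % 4 = 1 then ZMod.χ₈ (n : ZMod 8) else ZMod.χ₈' (n : ZMod 8) := by
    intro n; unfold psi; rw [Int.cast_natCast]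
  simp only [Finset.sum_range_succ, Finset.sum_range_zero, hv]
  rw [z3, z5, z7]
  by_cases h : d % 4 = 1
  · simp only [if_pos h, ZMod.χ₈_nat_eq_if_mod_eight]
    norm_num
    rw [hzz]; push_cast
    linear_combination (-(√2 : ℝ) : ℂ) * I_mul_I
  · simp only [if_neg h, ZMod.χ₈'_nat_eq_if_mod_eight]
    norm_num
    rw [hzz]; push_cast
    linear_combination ((√2 : ℝ) : ℂ) * I_mul_I

lemma chi8_intCast (d : Dset) (a : ℤ) :
    chi8 d (a : ZMod (8 * d.1.natAbs)) = ((kz d.1 a : ℤ) : ℂ) := by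
  show ((kron d.1 (a : ZMod (8 * d.1.natAbs)).val : ℤ) : ℂ) = _
  rw [kron, ite_eq_kz d.2.1, kz_congr d.1 (b := a)]
  rw [← ZMod.intCast_eq_intCast_iff]
  simp

lemma chi8_apply (d : Dset) (a : ZMod (8 * d.1.natAbs)) :
    chi8 d a = ((kz d.1 a.val : ℤ) : ℂ) := by
  rw [← chi8_intCast]; simp

lemma natAbs_odd (d : Dset) : Odd d.1.natAbs := Int.natAbs_odd.2 d.2.1

lemma natAbs_sqf (d : Dset) : Squarefree d.1.natAbs := Int.squarefree_natAbs.2 d.2.2

lemma kz_neg_one (d : Dset) : kz d.1 (-1) = if d.1 < 0 then -1 else 1 := by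
  have hd2 : d.1 % 2 = 1 := Int.odd_iff.1 d.2.1
  unfold kz psi
  rw [jacobiSym.at_neg_one (natAbs_odd d), ZMod.χ₈_int_eq_if_mod_eight,
    ZMod.χ₈'_int_eq_if_mod_eight, ZMod.χ₄_nat_eq_if_mod_four]
  split_ifs <;> omega

lemma chi8_even (d : Dset) (h : ¬ d.1 < 0) : (chi8 d).Even := by
  have := chi8_intCast d (-1)
  rw [kz_neg_one, if_neg h] at this
  simpa [DirichletCharacter.Even] using this

lemma chi8_odd (d : Dset) (h : d.1 < 0) : (chi8 d).Odd := by
  have := chi8_intCast d (-1)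
  rw [kz_neg_one, if_pos h] at this
  simpa [DirichletCharacter.Odd] using this

lemma chi8_inv (d : Dset) : (chi8 d)⁻¹ = chi8 d := by
  refine MulChar.IsQuadratic.inv fun a => ?_
  rw [chi8_apply]
  unfold kz psi
  rw [ZMod.χ₈_int_eq_if_mod_eight, ZMod.χ₈'_int_eq_if_mod_eight]
  rcases jacobiSym.trichotomy (a.val : ℤ) d.1.natAbs with h | h | h <;> rw [h] <;>
    split_ifs <;> simp

lemma gauss_chi8 (d : Dset) : gaussSum (chi8 d) ZMod.stdAddChar =
    (if d.1 < 0 then I else 1) * (√((8 * d.1.natAbs : ℕ) : ℝ) : ℂ) := by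
  have : NeZero d.1.natAbs := ⟨Int.natAbs_ne_zero.2 d.2.2.ne_zero⟩
  have h1 : gaussSum (chi8 d) ZMod.stdAddChar =
      tau (8 * d.1.natAbs) (fun a => psi d.1 a * jacobiSym a d.1.natAbs) := by
    unfold gaussSum tau
    exact Finset.sum_congr rfl fun a _ => by rw [chi8_apply]; rfl
  have hc : Nat.Coprime 8 d.1.natAbs :=
    Nat.Coprime.pow_left 3 (Nat.coprime_two_left.2 (natAbs_odd d))
  rw [h1, tau_mul 8 d.1.natAbs hc (psi d.1) (fun x => jacobiSym x d.1.natAbs)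
    (fun _ _ h => psi_congr _ h) (fun _ _ h => jacobiSym.mod_left' h) (psi_mul _)
    (fun _ _ => jacobiSym.mul_left _ _ _), tau_psi, tau_jac _ (natAbs_odd d) (natAbs_sqf d)]
  have h8 := jac_eight (natAbs_odd d)
  rw [show ((8 : ℕ) : ℤ) = 8 by norm_num, h8, Nat.cast_mul, Real.sqrt_mul (by norm_num)]
  have hd2 : d.1 % 2 = 1 := Int.odd_iff.1 d.2.1
  have key : ((psi d.1 d.1.natAbs : ℤ) : ℂ) * ((ZMod.χ₈ (d.1.natAbs : ZMod 8) : ℤ) : ℂ) *
      ((if d.1 % 4 = 1 then 1 else I) * eps d.1.natAbs) = if d.1 < 0 then I else 1 := by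
    have h88 : ZMod.χ₈ (d.1.natAbs : ZMod 8) * ZMod.χ₈ (d.1.natAbs : ZMod 8) = 1 := by
      rw [ZMod.χ₈_nat_eq_if_mod_eight]
      split_ifs <;> omega
    have h84 := ZMod.χ₈'_int_eq_χ₄_mul_χ₈ (d.1.natAbs : ℤ)
    rw [← Int.cast_mul]
    unfold psi eps
    rw [h84, Int.cast_natCast, Int.cast_natCast]
    by_cases h1 : d.1 % 4 = 1
    · rw [if_pos h1, if_pos h1, h88]
      by_cases h2 : d.1 < 0
      · rw [if_pos h2, if_neg (by omega)]; simp
      · rw [if_neg h2, if_pos (by omega)]; simp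
    · rw [if_neg h1, if_neg h1, mul_assoc (ZMod.χ₄ _), h88, mul_one]
      by_cases h2 : d.1 < 0
      · rw [if_pos h2, if_pos (by omega), ZMod.χ₄_nat_one_mod_four (by omega)]; simp
      · rw [if_neg h2, if_neg (by omega), ZMod.χ₄_nat_three_mod_four (by omega)]; simp
  rw [← key]
  push_cast
  ring

lemma rootNumber_chi8 (d : Dset) : rootNumber (chi8 d) = 1 := by
  classical
  unfold rootNumber
  rw [gauss_chi8]
  have hN : ((8 * d.1.natAbs : ℕ) : ℂ) ^ (1 / 2 : ℂ) = (√((8 * d.1.natAbs : ℕ) : ℝ) : ℂ) := by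
    rw [Real.sqrt_eq_rpow, ofReal_cpow (Nat.cast_nonneg _)]
    push_cast
    rfl
  have hpos : (√((8 * d.1.natAbs : ℕ) : ℝ) : ℂ) ≠ 0 := by
    have : (0 : ℝ) < ((8 * d.1.natAbs : ℕ) : ℝ) := by exact_mod_cast NeZero.pos _
    exact ofReal_ne_zero.2 (Real.sqrt_pos.2 this).ne'
  rw [hN]
  by_cases h : d.1 < 0
  · rw [if_pos h, if_neg (chi8_odd d h).not_even]
    field_simp
  · rw [if_neg h, if_pos (chi8_even d h)]
    field_simp

lemma chi8_primitive (d : Dset) : (chi8 d).IsPrimitive := by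
  rw [isPrimitive_def]
  by_contra hne
  obtain ⟨e, he⟩ := (chi8 d).conductor_dvd_level
  have he1 : e ≠ 1 := by
    rintro rfl
    exact hne (by simpa using he.symm)
  obtain ⟨p, hp, f, hf⟩ := Nat.exists_prime_and_dvd he1
  set c := (chi8 d).conductor with hc
  set m := d.1.natAbs with hm
  have hn : 8 * m = p * (c * f) := by rw [he, hf]; ring
  have hmo : Odd m := natAbs_odd d
  obtain ⟨a, ha1, ha2⟩ : ∃ a : ℤ, kz d.1 a = -1 ∧ a ≡ 1 [ZMOD ((c * f : ℕ) : ℤ)] := by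
    by_cases hp2 : p = 2
    · subst hp2
      refine ⟨1 + 4 * m, ?_, ?_⟩
      · unfold kz
        have hm2 : m % 2 = 1 := Nat.odd_iff.1 hmo
        rw [psi_congr d.1 (b := 5) (by unfold Int.ModEq; omega), ← hm,
          jacobiSym.mod_left' (a₂ := 1) (by simp), jacobiSym.one_left]
        unfold psi
        rw [ZMod.χ₈_int_eq_if_mod_eight, ZMod.χ₈'_int_eq_if_mod_eight]
        split_ifs <;> omega
      · have : c * f = 4 * m := by omega
        rw [this]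
        exact Int.modEq_iff_dvd.2 ⟨-1, by push_cast; ring⟩
    · have hpm : p ∣ m := by
        have h1 : p ∣ 8 * m := ⟨_, hn⟩
        rcases (Nat.Prime.dvd_mul hp).1 h1 with h | h
        · exact absurd ((Nat.prime_dvd_prime_iff_eq hp Nat.prime_two).1
            (hp.dvd_of_dvd_pow (show p ∣ 2 ^ 3 from h))) hp2
        · exact h
      obtain ⟨m', hm'⟩ := hpm
      have hcf : c * f = 8 * m' := by
        apply Nat.eq_of_mul_eq_mul_left hp.pos
        rw [← hn, hm']; ring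
      have hm0 : m' ≠ 0 := by rintro rfl; simp [hm'] at hmo
      have hcop : Nat.Coprime p (8 * m') := by
        refine Nat.Coprime.mul_right ?_ ?_
        · exact Nat.Coprime.pow_right 3 ((Nat.coprime_primes hp Nat.prime_two).2 hp2)
        · have := natAbs_sqf d
          rw [← hm, hm'] at this
          exact Nat.coprime_of_squarefree_mul this
      obtain ⟨a, h1, h2⟩ := Rat.exists_nonres p (8 * m') hp hp2 (by omega) hcop
      have h2' : a ≡ 1 [ZMOD ((8 * m' : ℕ) : ℤ)] := h2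
      refine ⟨a, ?_, hcf ▸ h2'⟩
      unfold kz
      rw [psi_congr d.1 (b := 1) (h2'.of_dvd (by push_cast; exact Dvd.intro _ rfl)), psi_one, ← hm,
        hm', jacobiSym.mul_right' _ hp.ne_zero hm0]
      rw [jacobiSym.mul_right' _ hp.ne_zero (by omega), jacobiSym.mod_left' (a₂ := 1) h2,
        jacobiSym.one_left] at h1
      rw [jacobiSym.mod_left' (a₂ := 1) (b := m')
        (h2'.of_dvd (by push_cast; exact Dvd.intro_left _ rfl)), jacobiSym.one_left]
      linarith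
  have hval := chi8_intCast d a
  rw [ha1] at hval
  have hcop : IsCoprime a ((8 * m : ℕ) : ℤ) := by
    rw [← (chi8 d).apply_ne_zero_iff, hval]
    simp
  have hft := (chi8 d).factorsThrough_conductor
  have h1 : chi8 d (a : ZMod (8 * m)) = hft.χ₀ (a : ZMod c) := by
    conv_lhs => rw [hft.eq_changeLevel]
    exact changeLevel_eq_cast_of_dvd' _ _ hcop
  have h2 : (a : ZMod c) = 1 := by
    have h4 : a ≡ 1 [ZMOD (c : ℤ)] := ha2.of_dvd (by push_cast; exact Dvd.intro _ rfl)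
    have := (ZMod.intCast_eq_intCast_iff a 1 c).2 h4
    simpa using this
  rw [h2, map_one, hval] at h1
  norm_num at h1

lemma chi8_ne_one (d : Dset) : chi8 d ≠ 1 := by
  intro h
  have h1 := chi8_primitive d
  rw [h, IsPrimitive, conductor_one] at h1
  omega

lemma Xd_eq (d : Dset) (α : ℂ) : Xd d (1 / 2 + α) =
    ((8 * d.1.natAbs : ℕ) : ℂ) ^ (-α) * (Real.pi : ℂ) ^ α *
      (if d.1 < 0 then Rat.Go α else Rat.Ge α) := by
  unfold Xd par Rat.Go Rat.Ge
  have h1 : ((8 * |(d.1 : ℝ)| / Real.pi : ℝ) : ℂ) ^ (1 / 2 - (1 / 2 + α)) =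
      ((8 * d.1.natAbs : ℕ) : ℂ) ^ (-α) * (Real.pi : ℂ) ^ α := by
    have e : (8 * |(d.1 : ℝ)| / Real.pi : ℝ) = ((8 * d.1.natAbs : ℕ) : ℝ) * Real.pi⁻¹ := by
      push_cast; rw [Nat.cast_natAbs]; push_cast; ring
    rw [e, show (1 / 2 - (1 / 2 + α)) = -α by ring, ofReal_mul,
      mul_cpow_ofReal_nonneg (Nat.cast_nonneg _) (by positivity), ofReal_inv,
      inv_cpow _ _ (by rw [arg_ofReal_of_nonneg Real.pi_pos.le]; exact Real.pi_ne_zero.symm),
      cpow_neg (Real.pi : ℂ), inv_inv, ofReal_natCast]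
  rw [h1]
  split_ifs
  · rw [show (1 + 1 - (1 / 2 + α)) / 2 = 3 / 4 - α / 2 by ring,
      show (1 + (1 / 2 + α)) / 2 = 3 / 4 + α / 2 by ring]
    ring
  · rw [show (1 + 0 - (1 / 2 + α)) / 2 = 1 / 4 - α / 2 by ring,
      show (0 + (1 / 2 + α)) / 2 = 1 / 4 + α / 2 by ring]
    ring

/-- The functional equation. -/
lemma fe8 (d : Dset) {α : ℂ} (h1 : -1 / 2 < α.re) (h2 : α.re < 1 / 2) :
    L8 d (1 / 2 + α) = Xd d (1 / 2 + α) * L8 d (1 / 2 - α) := by
  set χ := chi8 d with hχ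
  have hpi : (Real.pi : ℂ) ≠ 0 := ofReal_ne_zero.2 Real.pi_ne_zero
  have hk := (chi8_primitive d).completedLFunction_one_sub (1 / 2 - α)
  rw [chi8_inv, rootNumber_chi8, show 1 - (1 / 2 - α) = 1 / 2 + α by ring,
    show 1 / 2 - α - 1 / 2 = -α by ring, Rat.completed_eq _ (by simp; linarith),
    Rat.completed_eq _ (by simp; linarith)] at hk
  rw [Xd_eq, L8, L8, ← one_mul (((8 * d.1.natAbs : ℕ) : ℂ) ^ (-α))]
  by_cases h : d.1 < 0
  · rw [(chi8_odd d h).gammaFactor_def, (chi8_odd d h).gammaFactor_def, Gammaℝ_def,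
      Gammaℝ_def] at hk
    have hG : Gamma (3 / 4 + α / 2) ≠ 0 := Gamma_ne_zero_of_re_pos (by simp; linarith)
    have e1 : (1 / 2 + α + 1) / 2 = 3 / 4 + α / 2 := by ring
    have e2 : (1 / 2 - α + 1) / 2 = 3 / 4 - α / 2 := by ring
    have e3 : (Real.pi : ℂ) ^ (-(1 / 2 - α + 1) / 2) =
        (Real.pi : ℂ) ^ α * (Real.pi : ℂ) ^ (-(1 / 2 + α + 1) / 2) := by
      rw [← cpow_add _ _ hpi]; congr 1; ring
    have hq : (Real.pi : ℂ) ^ (-(1 / 2 + α + 1) / 2) ≠ 0 := by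
      rw [Ne, cpow_eq_zero_iff]; tauto
    rw [e1, e2, e3] at hk
    rw [if_pos h]
    exact Rat.alg_aux hG hq hk
  · rw [(chi8_even d h).gammaFactor_def, (chi8_even d h).gammaFactor_def, Gammaℝ_def,
      Gammaℝ_def] at hk
    have hG : Gamma (1 / 4 + α / 2) ≠ 0 := Gamma_ne_zero_of_re_pos (by simp; linarith)
    have e1 : (1 / 2 + α) / 2 = 1 / 4 + α / 2 := by ring
    have e2 : (1 / 2 - α) / 2 = 1 / 4 - α / 2 := by ring
    have e3 : (Real.pi : ℂ) ^ (-(1 / 2 - α) / 2) =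
        (Real.pi : ℂ) ^ α * (Real.pi : ℂ) ^ (-(1 / 2 + α) / 2) := by
      rw [← cpow_add _ _ hpi]; congr 1; ring
    have hq : (Real.pi : ℂ) ^ (-(1 / 2 + α) / 2) ≠ 0 := by
      rw [Ne, cpow_eq_zero_iff]; tauto
    rw [e1, e2, e3] at hk
    rw [if_neg h]
    exact Rat.alg_aux hG hq hk

lemma chi8_two (d : Dset) : chi8 d ((2 : ℕ) : ZMod (8 * d.1.natAbs)) = 0 := by
  have := chi8_intCast d 2
  unfold kz at this
  rw [psi_even _ (by norm_num)] at this
  simpa using this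

lemma chi8_three (d : Dset) :
    chi8 d ((3 : ℕ) : ZMod (8 * d.1.natAbs)) = -((jacobiSym d.1 3 : ℤ) : ℂ) := by
  have := chi8_intCast d ((3 : ℕ) : ℤ)
  rw [← jac_eq_kz d.2.1 (by decide), jacobiSym.mul_left, jac_eight (by decide),
    ZMod.χ₈_nat_eq_if_mod_eight] at this
  simpa using this

end Pool.Agent.H464Z.R8
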