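import Pool.Agent.H464Z.R8Ser
import Pool.Agent.H464Z.R8Root
import Pool.Agent.H855R2.SF.Dir

/-!
Growth bounds and a maximum principle on a rectangle.
-/

namespace Pool.Agent.H464Z.R8

open Complex DirichletCharacter Metric Set

lemma inv_bound {f : ℂ → ℂ} {c s : ℂ} {M : ℝ} (hM : 0 < M)
    (hf : DifferentiableOn ℂ f (ball c (22 / 5))) (h0 : ∀ z ∈ ball c (22 / 5), f z ≠ 0)
    (hb : ∀ z ∈ ball c (22 / 5), ‖f z‖ ≤ Real.exp M * ‖f c‖) (hs : ‖s - c‖ ≤ 43 / 10) :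
    ‖f c‖ ≤ Real.exp (86 * M) * ‖f s‖ := by
  have hc : c ∈ ball c (22 / 5) := mem_ball_self (by norm_num)
  have hd : DifferentiableOn ℂ (fun z => deriv f z / f z) (ball c (22 / 5)) :=
    (hf.deriv isOpen_ball).div hf h0
  obtain ⟨g, hg0, hg⟩ := hd.isExactOn_ball.with_val_at c 0
  have hk : ∀ z ∈ ball c (22 / 5), HasDerivAt (fun z => f z * cexp (-g z)) 0 z := by
    intro z hz
    have h1 := (hf.differentiableAt (isOpen_ball.mem_nhds hz)).hasDerivAt
    have h2 := h1.mul (hg z hz).neg.cexp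
    have h3 := h0 z hz
    have h4 : deriv f z * cexp ((-g) z) + f z * (cexp ((-g) z) * -(deriv f z / f z)) = 0 := by
      field_simp
      ring
    rw [h4] at h2
    exact h2
  have hconst : ∀ z ∈ ball c (22 / 5), f z * cexp (-g z) = f c := by
    intro z hz
    have := isOpen_ball.is_const_of_deriv_eq_zero (convex_ball c (22 / 5 : ℝ)).isPreconnected
      (fun z hz => (hk z hz).differentiableAt.differentiableWithinAt)
      (fun z hz => (hk z hz).deriv) hz hc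
    simpa [hg0] using this
  have hn : ∀ z ∈ ball c (22 / 5), ‖f c‖ = ‖f z‖ * Real.exp (-(g z).re) := by
    intro z hz
    rw [← hconst z hz, norm_mul, norm_exp, neg_re]
  have hfc : 0 < ‖f c‖ := norm_pos_iff.2 (h0 c hc)
  have hmem : ∀ z ∈ ball (0 : ℂ) (22 / 5), c + z ∈ ball c (22 / 5) := by
    intro z hz
    simpa using hz
  have hbc := borelCaratheodory_zero (f := fun z => g (c + z)) (R := 22 / 5) (z := s - c) hM
    (fun z hz => (((hg _ (hmem z hz)).differentiableAt).comp z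
      (by fun_prop)).differentiableWithinAt)
    (fun z hz => ?_) (by norm_num) (by rw [mem_ball_zero_iff]; linarith) (by simpa using hg0)
  · simp only [add_sub_cancel] at hbc
    have a1 : 2 * M * ‖s - c‖ / (22 / 5 - ‖s - c‖) ≤ 86 * M := by
      rw [div_le_iff₀ (by linarith)]
      nlinarith
    rw [hn s (by rw [mem_ball, dist_eq_norm]; linarith), mul_comm]
    gcongr
    linarith [neg_abs_le (g s).re, abs_re_le_norm (g s)]
  · have a1 := hn _ (hmem z hz)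
    have a2 := hb _ (hmem z hz)
    show (g (c + z)).re ≤ M
    rw [Real.exp_neg, ← div_eq_mul_inv, eq_div_iff (Real.exp_pos _).ne'] at a1
    rw [← a1, mul_comm] at a2
    exact Real.exp_le_exp.1 (le_of_mul_le_mul_right a2 hfc)

lemma L_grow {N : ℕ} [NeZero N] {χ : DirichletCharacter ℂ N} (h1 : χ ≠ 1) {R : ℝ} (hN : N ≤ R)
    (hR : 10 ≤ R) {z : ℂ} (hz : 3 / 5 ≤ z.re) (hn : ‖z‖ ≤ R + 14) :
    ‖LFunction χ z‖ ≤ Real.exp (10 * R) / 2 := by
  refine (H855R2.SF.growth_right h1 (by linarith)).trans ?_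
  have a1 : ((N : ℝ) + 1) / z.re ≤ 2 * (R + 14) := by
    rw [div_le_iff₀ (by linarith)]
    nlinarith
  have a2 : 2 * (R + 14) ≤ Real.exp (5 * R) := by linarith [Real.add_one_le_exp (5 * R)]
  have a3 : Real.exp (10 * R) = Real.exp (5 * R) * Real.exp (5 * R) := by
    rw [← Real.exp_add]; congr 1; ring
  calc ‖z‖ * (((N : ℝ) + 1) / z.re) ≤ (R + 14) * (2 * (R + 14)) := by gcongr
    _ = (2 * (R + 14)) * (2 * (R + 14)) / 2 := by ring
    _ ≤ _ := by rw [a3]; gcongr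

lemma L_ne (hG : GRH) {N : ℕ} [NeZero N] {χ : DirichletCharacter ℂ N} (h1 : χ ≠ 1) {z : ℂ}
    (hz : 1 / 2 < z.re) : LFunction χ z ≠ 0 := by
  rcases lt_or_ge z.re 1 with h | h
  · intro h0
    linarith [hG N χ z (by linarith) h h0]
  · exact LFunction_ne_zero_of_one_le_re χ (.inl h1) h

lemma L_inv (hG : GRH) {N : ℕ} [NeZero N] {χ : DirichletCharacter ℂ N} (h1 : χ ≠ 1)
    (h2 : χ ((2 : ℕ) : ZMod N) = 0) {R : ℝ} (hN : N ≤ R) (hR : 10 ≤ R) {s : ℂ}
    (hs : 7 / 10 ≤ s.re) (hs' : s.re ≤ 5) (hi : |s.im| ≤ R + 4) :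
    1 / 2 ≤ Real.exp (860 * R) * ‖LFunction χ s‖ := by
  set c : ℂ := ⟨5, s.im⟩ with hc
  have hl := L_lower χ h2 (s := c) (by simp [hc]; norm_num)
  have hre : ∀ z ∈ ball c (22 / 5), 3 / 5 < z.re := by
    intro z hz
    rw [mem_ball, dist_eq_norm] at hz
    have := (abs_re_le_norm (z - c)).trans_lt hz
    rw [sub_re, abs_lt] at this
    simp only [hc] at this
    linarith [this.1]
  have h := inv_bound (f := LFunction χ) (c := c) (s := s) (M := 10 * R) (by linarith)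
    (differentiable_LFunction h1).differentiableOn
    (fun z hz => L_ne hG h1 (by linarith [hre z hz])) (fun z hz => ?_) ?_
  · rw [show 86 * (10 * R) = 860 * R by ring] at h
    linarith
  · refine (L_grow h1 hN hR (hre z hz).le ?_).trans ?_
    · rw [mem_ball, dist_eq_norm] at hz
      have a1 := norm_add_le (z - c) c
      have a2 := norm_le_abs_re_add_abs_im c
      rw [sub_add_cancel] at a1
      simp only [hc] at a2
      rw [abs_of_pos (by norm_num : (0 : ℝ) < 5)] at a2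
      linarith
    · have := Real.exp_pos (10 * R)
      nlinarith
  · refine (norm_le_abs_re_add_abs_im _).trans ?_
    simp only [hc, sub_re, sub_im, sub_self, abs_zero, add_zero]
    rw [abs_le]
    constructor <;> linarith

/-- the difference between the ratio and its predicted mean, rescaled -/
noncomputable def BB (d : Dset) (a : ℂ) : ℂ :=
  (3 : ℂ) ^ a * (L8 d (1 / 2 + a) / L8 d (1 / 2 + (a + zz)) - Phi a (a + zz))

lemma BB_diff (hG : GRH) (d : Dset) {a : ℂ} (ha : 0 < a.re) : DifferentiableAt ℂ (BB d) a := by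
  have h := differentiable_LFunction (chi8_ne_one d)
  refine (differentiableAt_id.const_cpow (.inl (by norm_num))).mul
    ((DifferentiableAt.div ?_ ?_ ?_).sub (Phi_diff ha))
  · exact (h _).comp a (by fun_prop)
  · exact (h _).comp a (by fun_prop)
  · exact L_ne hG (chi8_ne_one d) (by simp [zz_re]; linarith)

lemma three_five (σ : ℝ) (h : 0 ≤ σ) : (3 : ℝ) ^ σ * (5 : ℝ) ^ (-σ) ≤ Real.exp (-σ / 2) := by
  have e : Real.exp (-σ / 2) = Real.exp (-1 / 2) ^ σ := by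
    rw [← Real.exp_mul]; congr 1; ring
  rw [Real.rpow_neg (by norm_num), ← div_eq_mul_inv, ← Real.div_rpow (by norm_num) (by norm_num), e]
  refine Real.rpow_le_rpow (by norm_num) ?_ h
  have a1 : Real.exp (-1 / 2) * Real.exp (-1 / 2) * Real.exp 1 = 1 := by
    rw [← Real.exp_add, ← Real.exp_add]; norm_num
  have a2 := Real.exp_one_lt_d9
  have a3 := Real.exp_pos (-1 / 2)
  by_contra hh
  push Not at hh
  have a4 : Real.exp (-1 / 2) * Real.exp (-1 / 2) ≤ 3 / 5 * (3 / 5) := by gcongr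
  nlinarith

lemma BB_far (d : Dset) {a : ℂ} (ha : 4 ≤ a.re) :
    ‖BB d a - 2 * (3 : ℂ) ^ (-(1 / 2 : ℂ)) * -(jacobiSym d.1 3 : ℤ)‖ ≤ 1000 * Real.exp (-a.re / 2) := by
  have hre : (1 / 2 + a).re = 1 / 2 + a.re := by simp
  have h1 := ratio_far (chi8 d) (chi8_two d) (s := 1 / 2 + a) (by rw [hre]; linarith)
  have h2 := Phi_far ha
  rw [chi8_three, hre, add_assoc] at h1
  have e : (3 : ℂ) ^ (-(1 / 2 : ℂ)) = (3 : ℂ) ^ a * (3 : ℂ) ^ (-(1 / 2 + a)) := by
    rw [← cpow_add _ _ (by norm_num)]; congr 1; ring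
  have b : (5 : ℝ) ^ (-(1 / 2 + a.re)) ≤ (5 : ℝ) ^ (-a.re) :=
    Real.rpow_le_rpow_of_exponent_le (by norm_num) (by linarith)
  rw [BB, e, L8, L8]
  generalize LFunction (chi8 d) (1 / 2 + a) / LFunction (chi8 d) (1 / 2 + (a + zz)) = R at *
  generalize Phi a (a + zz) = P at *
  generalize (3 : ℂ) ^ (-(1 / 2 + a)) = u at *
  generalize ((jacobiSym d.1 3 : ℤ) : ℂ) = j at *
  rw [show (3 : ℂ) ^ a * (R - P) - 2 * ((3 : ℂ) ^ a * u) * -j =
    (3 : ℂ) ^ a * ((R - 1 - 2 * (-j * u)) - (P - 1)) by ring, norm_mul, norm_three]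
  have c1 := norm_sub_le (R - 1 - 2 * (-j * u)) (P - 1)
  have c2 := three_five a.re (by linarith)
  have c3 : 0 < (5 : ℝ) ^ (-a.re) := by positivity
  calc _ ≤ (3 : ℝ) ^ a.re * (1000 * (5 : ℝ) ^ (-a.re)) := by gcongr; linarith
    _ ≤ _ := by linarith

lemma norm_root : 1 / 2 ≤ ‖(3 : ℂ) ^ (-(1 / 2 : ℂ))‖ ∧ ‖(3 : ℂ) ^ (-(1 / 2 : ℂ))‖ ≤ 1 := by
  have a1 : ‖(3 : ℂ) ^ (-(1 / 2 : ℂ))‖ * ‖(3 : ℂ) ^ (-(1 / 2 : ℂ))‖ = 1 / 3 := by
    rw [← norm_mul, ← cpow_add _ _ (by norm_num), show -(1 / 2 : ℂ) + -(1 / 2) = -1 by ring,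
      cpow_neg_one]
    simp
  have a2 := norm_nonneg ((3 : ℂ) ^ (-(1 / 2 : ℂ)))
  constructor <;> nlinarith

lemma norm_jac (d : ℤ) (n : ℕ) : ‖((jacobiSym d n : ℤ) : ℂ)‖ ≤ 1 := by
  rcases jacobiSym.trichotomy d n with h | h | h <;> simp [h]

lemma BB_right (d : Dset) {a : ℂ} (ha : 4 ≤ a.re) : ‖BB d a‖ ≤ 1002 := by
  have h := BB_far d ha
  have a1 : Real.exp (-a.re / 2) ≤ 1 := Real.exp_le_one_iff.2 (by linarith)
  have a2 : ‖2 * (3 : ℂ) ^ (-(1 / 2 : ℂ)) * -(jacobiSym d.1 3 : ℤ)‖ ≤ 2 * 1 * 1 := by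
    rw [norm_mul, norm_mul, norm_neg, Complex.norm_two]
    gcongr
    · exact norm_root.2
    · exact norm_jac _ _
  have a3 := norm_sub_norm_le (BB d a) (2 * (3 : ℂ) ^ (-(1 / 2 : ℂ)) * -(jacobiSym d.1 3 : ℤ))
  linarith

/-- a constant -/
noncomputable def CB : ℝ := 1002 + 81 * (ZB * ZB * Real.exp 6)

lemma CB_pos : 1002 ≤ CB := by
  have := mul_nonneg (mul_self_nonneg ZB) (Real.exp_pos 6).le
  unfold CB
  linarith

lemma BB_crude (hG : GRH) (d : Dset) {a : ℂ} {R : ℝ} (ha : 1 / 5 ≤ a.re)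
    (hN : ((8 * d.1.natAbs : ℕ) : ℝ) ≤ R) (hR : 10 ≤ R) (hi : |a.im| ≤ R) :
    ‖BB d a‖ ≤ CB * Real.exp (870 * R) := by
  have he : 1 ≤ Real.exp (870 * R) := Real.one_le_exp (by linarith)
  have hC := CB_pos
  rcases le_total 4 a.re with h4 | h4
  · nlinarith [BB_right d h4]
  have a1 := L_grow (chi8_ne_one d) hN hR (z := 1 / 2 + a) (by simp; linarith) (by
    refine (norm_le_abs_re_add_abs_im _).trans ?_
    have : (1 / 2 + a).re = 1 / 2 + a.re := by simp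
    rw [this, abs_of_pos (by linarith)]
    simp
    linarith)
  have a2 := L_inv hG (chi8_ne_one d) (chi8_two d) hN hR (s := 1 / 2 + (a + zz))
    (by simp [zz_re]; linarith) (by simp [zz_re]; linarith) (by
      have := abs_add_le a.im zz.im
      have := zz_im
      simp
      linarith)
  have a3 := Phi_crude ha
  have a4 : (3 : ℝ) ^ a.re ≤ 81 := by
    calc (3 : ℝ) ^ a.re ≤ (3 : ℝ) ^ (4 : ℝ) := Real.rpow_le_rpow_of_exponent_le (by norm_num) h4
      _ = 81 := by norm_num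
  have a5 : ‖L8 d (1 / 2 + a) / L8 d (1 / 2 + (a + zz))‖ ≤ Real.exp (870 * R) := by
    have b0 : 0 < ‖LFunction (chi8 d) (1 / 2 + (a + zz))‖ :=
      norm_pos_iff.2 (L_ne hG (chi8_ne_one d) (by simp [zz_re]; linarith))
    have b1 : Real.exp (870 * R) = Real.exp (10 * R) * Real.exp (860 * R) := by
      rw [← Real.exp_add]; congr 1; ring
    rw [norm_div, L8, L8, div_le_iff₀ b0, b1, mul_assoc]
    have := Real.exp_pos (10 * R)
    nlinarith
  rw [BB, norm_mul, norm_three]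
  have a6 := norm_sub_le (L8 d (1 / 2 + a) / L8 d (1 / 2 + (a + zz))) (Phi a (a + zz))
  have a7 := mul_nonneg (mul_self_nonneg ZB) (Real.exp_pos 6).le
  calc _ ≤ 81 * (Real.exp (870 * R) + ZB * ZB * Real.exp 6) := by gcongr; linarith
    _ ≤ _ := by unfold CB; nlinarith

lemma rect_max {G : ℂ → ℂ} {σ₀ σ₁ σ₂ t H Y κ E : ℝ} (h0 : 0 ≤ σ₀) (h02 : σ₀ < σ₂) (h21 : σ₂ < σ₁)
    (hY : σ₁ ≤ Y) (hκ : 0 ≤ κ) (hH : 0 < H)
    (hd : ∀ a : ℂ, σ₀ ≤ a.re → a.re ≤ σ₁ → |a.im - t| ≤ H → DifferentiableAt ℂ G a)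
    (hl : ∀ a : ℂ, a.re = σ₀ → |a.im - t| ≤ H → ‖G a‖ * Real.exp (κ * σ₂) ≤ E)
    (hr : ∀ a : ℂ, a.re = σ₁ → |a.im - t| ≤ H → ‖G a‖ * Real.exp (-(κ * (σ₁ - σ₂))) ≤ E)
    (ht : ∀ a : ℂ, σ₀ ≤ a.re → a.re ≤ σ₁ → |a.im - t| = H →
      ‖G a‖ * Real.exp (κ * σ₂ - H ^ 2 / Y ^ 2) ≤ E) :
    ‖G ⟨σ₂, t⟩‖ ≤ 3 * E := by
  have hY0 : 0 < Y := by linarith
  set b : ℂ := ⟨σ₂, t⟩ with hb
  set F : ℂ → ℂ := fun a => G a * cexp (-(κ * (a - b)) + (a - b) ^ 2 * ((1 / Y ^ 2 : ℝ) : ℂ))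
    with hF
  have hn : ∀ a : ℂ, σ₀ ≤ a.re → a.re ≤ σ₁ → ∀ x : ℝ,
      -(κ * (a.re - σ₂)) - (a.im - t) ^ 2 / Y ^ 2 ≤ x → ‖G a‖ * Real.exp x ≤ E → ‖F a‖ ≤ 3 * E := by
    intro a h1 h2 x hx hE
    have e : (-(κ * (a - b)) + (a - b) ^ 2 * ((1 / Y ^ 2 : ℝ) : ℂ)).re =
        -(κ * (a.re - σ₂)) + (a.re - σ₂) ^ 2 / Y ^ 2 - (a.im - t) ^ 2 / Y ^ 2 := by
      simp only [hb, add_re, neg_re, mul_re, ofReal_re, ofReal_im, sub_re, sub_im, sq, mul_im]
      ring
    have a1 : (a.re - σ₂) ^ 2 / Y ^ 2 ≤ 1 := by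
      rw [div_le_one (by positivity)]
      apply sq_le_sq' <;> linarith
    simp only [hF]
    rw [norm_mul, norm_exp, e]
    have a2 : Real.exp (x + 1) ≤ Real.exp x * 3 := by
      rw [Real.exp_add]
      gcongr
      linarith [Real.exp_one_lt_d9]
    calc _ ≤ ‖G a‖ * Real.exp (x + 1) := by gcongr; linarith
      _ ≤ ‖G a‖ * (Real.exp x * 3) := by gcongr
      _ ≤ _ := by linarith
  have hcl : closure (Ioo σ₀ σ₁ ×ℂ Ioo (t - H) (t + H)) = Icc σ₀ σ₁ ×ℂ Icc (t - H) (t + H) := by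
    rw [closure_reProdIm, closure_Ioo (by linarith), closure_Ioo (by linarith)]
  have hdF : DiffContOnCl ℂ F (Ioo σ₀ σ₁ ×ℂ Ioo (t - H) (t + H)) := by
    apply DifferentiableOn.diffContOnCl
    rw [hcl]
    intro a ha
    have h1 : a.re ∈ Icc σ₀ σ₁ := ha.1
    have h2 : a.im ∈ Icc (t - H) (t + H) := ha.2
    refine DifferentiableAt.differentiableWithinAt ((hd a h1.1 h1.2 ?_).mul (by fun_prop))
    rw [abs_le]
    constructor <;> linarith [h2.1, h2.2]
  have hmax := norm_le_of_forall_mem_frontier_norm_le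
    ((isBounded_Ioo σ₀ σ₁).reProdIm (isBounded_Ioo (t - H) (t + H))) hdF (C := 3 * E) (z := b)
    (fun a ha => ?_) (by
      rw [hcl]
      exact ⟨⟨h02.le, h21.le⟩, ⟨by show t - H ≤ t; linarith, by show t ≤ t + H; linarith⟩⟩)
  · simpa [hF] using hmax
  rw [frontier_reProdIm, closure_Ioo (by linarith), closure_Ioo (by linarith),
    frontier_Ioo (by linarith), frontier_Ioo (by linarith)] at ha
  rcases ha with ha | ha
  · have h1 : a.re ∈ Icc σ₀ σ₁ := ha.1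
    have h2 : a.im ∈ ({t - H, t + H} : Set ℝ) := ha.2
    have h3 : |a.im - t| = H := by
      rcases h2 with h | h
      · rw [h, show t - H - t = -H by ring, abs_neg, abs_of_pos hH]
      · rw [mem_singleton_iff.1 h, show t + H - t = H by ring, abs_of_pos hH]
    refine hn a h1.1 h1.2 _ ?_ (ht a h1.1 h1.2 h3)
    rw [← sq_abs (a.im - t), h3]
    nlinarith [h1.1]
  · have h1 : a.re ∈ ({σ₀, σ₁} : Set ℝ) := ha.1
    have h2 : a.im ∈ Icc (t - H) (t + H) := ha.2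
    have h3 : |a.im - t| ≤ H := by
      rw [abs_le]
      constructor <;> linarith [h2.1, h2.2]
    have h4 : 0 ≤ (a.im - t) ^ 2 / Y ^ 2 := by positivity
    rcases h1 with h | h
    · refine hn a h.ge (by linarith) _ ?_ (hl a h h3)
      rw [h]
      nlinarith
    · have h' : a.re = σ₁ := h
      refine hn a (by linarith) h'.le _ ?_ (hr a h' h3)
      rw [h']
      linarith

end Pool.Agent.H464Z.R8
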