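import Pool.Agent.H464Z.R8Jac

/-!
Definitions for the ratios conjecture for the family `χ_{8d}`.
-/

namespace Pool.Agent.H464Z.R8

open Complex

/-- The odd squarefree integers, of either sign. -/
abbrev Dset : Type := {d : ℤ // Odd d ∧ Squarefree d}

/-- The Kronecker symbol `(8d / n)` for a natural number `n`: zero for even `n`, the Jacobi symbol
for odd `n`. -/
def kron (d : ℤ) (n : ℕ) : ℤ := if Odd n then jacobiSym (8 * d) n else 0

instance neZeroMod (d : Dset) : NeZero (8 * d.1.natAbs) :=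
  ⟨mul_ne_zero (by norm_num) (Int.natAbs_ne_zero.2 d.2.2.ne_zero)⟩

/-- `χ_{8d}` as a complex Dirichlet character modulo `8 |d|`. -/
noncomputable def chi8 (d : Dset) : DirichletCharacter ℂ (8 * d.1.natAbs) where
  toFun a := ((kron d.1 a.val : ℤ) : ℂ)
  map_one' := by
    rw [kron, ite_eq_kz d.2.1, kz_congr d.1 (b := 1), kz_one, Int.cast_one]
    rw [← ZMod.intCast_eq_intCast_iff]
    simp
  map_mul' a b := by
    rw [kron, kron, kron, ite_eq_kz d.2.1, ite_eq_kz d.2.1, ite_eq_kz d.2.1, ← Int.cast_mul,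
      ← kz_mul, kz_congr d.1 (b := (a.val : ℤ) * (b.val : ℤ))]
    rw [← ZMod.intCast_eq_intCast_iff]
    simp
  map_nonunit' a ha := by
    rw [kron, ite_eq_kz d.2.1, kz_eq_zero d.2.2.ne_zero, Int.cast_zero]
    intro h
    exact ha (by simpa using (ZMod.isUnit_iff_coprime a.val _).2 h)

/-- `L(s, χ_{8d})`, analytically continued. -/
noncomputable def L8 (d : Dset) (s : ℂ) : ℂ := DirichletCharacter.LFunction (chi8 d) s

/-- `W^*(X)`. -/
noncomputable def Wst (w : ℝ → ℝ) (X : ℝ) : ℝ := ∑' d : Dset, w ((d.1 : ℝ) / X)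

/-- The weighted average of `f` over the family. -/
noncomputable def avg (w : ℝ → ℝ) (X : ℝ) (f : Dset → ℂ) : ℂ :=
  1 / (Wst w X : ℂ) * ∑' d : Dset, (w ((d.1 : ℝ) / X) : ℂ) * f d

/-- The parity `𝔞(d)`: `0` for positive `d` and `1` for negative `d`. -/
noncomputable def par (d : Dset) : ℂ := if d.1 < 0 then 1 else 0

/-- The factor `X_d(s)` of the functional equation. -/
noncomputable def Xd (d : Dset) (s : ℂ) : ℂ :=
  ((8 * |(d.1 : ℝ)| / Real.pi : ℝ) : ℂ) ^ (1 / 2 - s) * Gamma ((1 + par d - s) / 2) *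
    (Gamma ((par d + s) / 2))⁻¹

/-- The factor at the odd prime `p` of the product in `A(α, γ)`. -/
noncomputable def Afac (α γ : ℂ) (p : {p : ℕ // p.Prime ∧ 2 < p}) : ℂ :=
  (1 - ((p.1 : ℂ) + 1)⁻¹ * (p.1 : ℂ) ^ (-1 - 2 * α) - ((p.1 : ℂ) + 1)⁻¹ * (p.1 : ℂ) ^ (-α - γ)) /
    (1 - (p.1 : ℂ) ^ (-1 - α - γ))

/-- `A(α, γ)`. -/
noncomputable def Acon (α γ : ℂ) : ℂ :=
  (1 - (2 : ℂ) ^ (-1 - 2 * α)) / (1 - (2 : ℂ) ^ (-1 - α - γ)) *
    ∏' p : {p : ℕ // p.Prime ∧ 2 < p}, Afac α γ p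

/-- `Φ(α, γ)`. -/
noncomputable def Phi (α γ : ℂ) : ℂ :=
  riemannZeta (1 + 2 * α) * Acon α γ / riemannZeta (1 + α + γ)

/-- The difference of the two sides of the conjectured formula. -/
noncomputable def Err (w : ℝ → ℝ) (X : ℝ) (α γ : ℂ) : ℂ :=
  avg w X (fun d => L8 d (1 / 2 + α) / L8 d (1 / 2 + γ)) -
    (Phi α γ + avg w X (fun d => Xd d (1 / 2 + α)) * Phi (-α) γ)

/-- The generalized Riemann hypothesis for Dirichlet `L`-functions: every zero in the open critical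
strip lies on the critical line. -/
def GRH : Prop :=
  ∀ (q : ℕ) [NeZero q] (χ : DirichletCharacter ℂ q) (s : ℂ),
    0 < s.re → s.re < 1 → DirichletCharacter.LFunction χ s = 0 → s.re = 1 / 2

end Pool.Agent.H464Z.R8
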