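import Mathlib

/-!
An exponential sum over squarefree numbers twisted by the odd character modulo six.
-/

namespace Pool.Agent.H464Z.R8

open Complex Finset

lemma sqf_indicator {n B : ℕ} (hn : n ≠ 0) (hB : n ≤ B ^ 2) :
    (if Squarefree n then (1 : ℂ) else 0) =
      ∑ j ∈ Icc 1 B, if j ^ 2 ∣ n then ((ArithmeticFunction.moebius j : ℤ) : ℂ) else 0 := by
  obtain ⟨a, b, hab, ha⟩ := Nat.sq_mul_squarefree n
  have hb0 : b ≠ 0 := by rintro rfl; apply hn; rw [← hab]; simp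
  have ha0 : a ≠ 0 := by rintro rfl; apply hn; rw [← hab]; simp
  have key : ∀ d : ℕ, d ^ 2 ∣ n ↔ d ∣ b := by
    intro d
    constructor
    · intro h
      have hd0 : d ≠ 0 := by
        rintro rfl
        rw [zero_pow two_ne_zero, zero_dvd_iff] at h
        exact hn h
      rw [← Nat.factorization_le_iff_dvd (pow_ne_zero _ hd0) hn] at h
      rw [← Nat.factorization_le_iff_dvd hd0 hb0]
      intro p
      have h1 := h p
      rw [← hab, Nat.factorization_mul (pow_ne_zero _ hb0) ha0, Nat.factorization_pow,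
        Nat.factorization_pow] at h1
      have h2 := ha.natFactorization_le_one p
      simp only [Finsupp.coe_smul, Finsupp.coe_add, Pi.add_apply, Pi.smul_apply, smul_eq_mul] at h1
      omega
    · intro h
      rw [← hab]
      exact Dvd.dvd.mul_right (pow_dvd_pow_of_dvd h 2) a
  have h1 : (∑ j ∈ Icc 1 B, if j ^ 2 ∣ n then ((ArithmeticFunction.moebius j : ℤ) : ℂ) else 0)
      = ∑ d ∈ b.divisors, ((ArithmeticFunction.moebius d : ℤ) : ℂ) := by
    rw [← Finset.sum_filter]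
    apply Finset.sum_congr _ (fun _ _ => rfl)
    ext d
    simp only [Finset.mem_filter, Finset.mem_Icc, Nat.mem_divisors]
    constructor
    · rintro ⟨-, h⟩; exact ⟨(key d).1 h, hb0⟩
    · rintro ⟨h, -⟩
      refine ⟨⟨Nat.pos_of_dvd_of_pos h (Nat.pos_of_ne_zero hb0), ?_⟩, (key d).2 h⟩
      have h3 : d ^ 2 ≤ B ^ 2 := (Nat.le_of_dvd (Nat.pos_of_ne_zero hn) ((key d).2 h)).trans hB
      exact (Nat.pow_le_pow_iff_left two_ne_zero).1 h3
  have h2 : ∑ d ∈ b.divisors, ((ArithmeticFunction.moebius d : ℤ) : ℂ) = if b = 1 then 1 else 0 := by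
    have := congrArg (fun f : ArithmeticFunction ℂ => f b)
      (ArithmeticFunction.coe_moebius_mul_coe_zeta (R := ℂ))
    simp only [ArithmeticFunction.coe_mul_zeta_apply, ArithmeticFunction.one_apply,
      ArithmeticFunction.intCoe_apply] at this
    exact this
  rw [h1, h2]
  have h3 : Squarefree n ↔ b = 1 := by
    constructor
    · intro h
      have : IsUnit b := h b (by rw [← hab, sq]; exact Dvd.intro _ rfl)
      exact Nat.isUnit_iff.1 this
    · rintro rfl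
      rw [← hab]; simpa using ha
  simp only [h3]

lemma period_shift {G : ℕ → ℂ} {P : ℕ} (hG : ∀ n, G (n + P) = G n) (a : ℕ) :
    ∑ i ∈ range P, G (a + i) = ∑ i ∈ range P, G i := by
  induction a with
  | zero => simp
  | succ a ih =>
    have h1 := Finset.sum_range_succ (fun i => G (a + i)) P
    have h2 := Finset.sum_range_succ' (fun i => G (a + i)) P
    rw [hG, ih] at h1
    rw [h1, add_zero] at h2
    have h3 := add_right_cancel h2
    rw [h3]
    exact Finset.sum_congr rfl fun i _ => by rw [show a + 1 + i = a + (i + 1) by ring]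

lemma periodic_zero {G : ℕ → ℂ} {P : ℕ} (hP : 0 < P) (hG : ∀ n, G (n + P) = G n)
    (hb : ∀ n, ‖G n‖ ≤ 2) (h0 : ∑ i ∈ range P, G i = 0) (a n : ℕ) :
    ‖∑ i ∈ range n, G (a + i)‖ ≤ 2 * P := by
  induction n using Nat.strong_induction_on with
  | _ n ih =>
    rcases lt_or_ge n P with h | h
    · refine (norm_sum_le _ _).trans ((Finset.sum_le_card_nsmul _ _ 2 fun i _ => hb _).trans ?_)
      rw [card_range, nsmul_eq_mul, mul_comm]
      have : (n : ℝ) ≤ P := by exact_mod_cast h.le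
      linarith
    · obtain ⟨k, rfl⟩ := Nat.exists_eq_add_of_le h
      rw [Finset.sum_range_add, period_shift hG, h0, zero_add]
      have : ∀ i, G (a + (P + i)) = G (a + i) := fun i => by
        rw [show a + (P + i) = a + i + P by ring, hG]
      simp_rw [this]
      exact ih k (by omega)

lemma periodic_sum {F : ℕ → ℂ} {P : ℕ} (hP : 0 < P) (hF : ∀ n, F (n + P) = F n)
    (hb : ∀ n, ‖F n‖ ≤ 1) {a b : ℕ} (hab : a ≤ b) :
    ‖∑ m ∈ Ioc a b, F m - ((b : ℂ) - a) * ((∑ i ∈ range P, F i) / P)‖ ≤ 2 * P := by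
  set μ := (∑ i ∈ range P, F i) / P with hμ
  have hP' : (0 : ℝ) < P := by exact_mod_cast hP
  have hPc : (P : ℂ) ≠ 0 := by exact_mod_cast hP.ne'
  have hμ1 : ‖μ‖ ≤ 1 := by
    rw [hμ, norm_div, norm_natCast, div_le_one hP']
    refine (norm_sum_le _ _).trans ((Finset.sum_le_card_nsmul _ _ 1 fun i _ => hb _).trans ?_)
    simp
  have := periodic_zero (G := fun n => F n - μ) hP (fun n => by rw [hF])
    (fun n => (norm_sub_le _ _).trans (by linarith [hb n]))
    (by rw [Finset.sum_sub_distrib, sum_const, card_range, nsmul_eq_mul, hμ]; field_simp; ring)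
    (a + 1) (b - a)
  rw [Finset.sum_sub_distrib, sum_const, card_range, nsmul_eq_mul, Nat.cast_sub hab] at this
  have e : ∑ m ∈ Ioc a b, F m = ∑ i ∈ range (b - a), F (a + 1 + i) := by
    rw [← Finset.Ico_add_one_add_one_eq_Ioc, Finset.sum_Ico_eq_sum_range]
    congr 2
    omega
  rw [e]
  exact this

lemma sum_mult (F : ℕ → ℂ) {k : ℕ} (hk : 0 < k) (a b : ℕ) :
    (∑ n ∈ Ioc a b, if k ∣ n then F n else 0) = ∑ m ∈ Ioc (a / k) (b / k), F (k * m) := by
  rw [← Finset.sum_filter]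
  symm
  refine Finset.sum_bij (fun m _ => k * m) (fun m hm => ?_) (fun m _ m' _ h => ?_)
    (fun n hn => ?_) (fun _ _ => rfl)
  · rw [mem_Ioc] at hm
    rw [mem_filter, mem_Ioc]
    refine ⟨⟨?_, ?_⟩, Dvd.intro _ rfl⟩
    · rw [mul_comm]; exact (Nat.div_lt_iff_lt_mul hk).1 hm.1
    · rw [mul_comm]; exact (Nat.le_div_iff_mul_le hk).1 hm.2
  · exact Nat.eq_of_mul_eq_mul_left hk h
  · rw [mem_filter, mem_Ioc] at hn
    obtain ⟨⟨h1, h2⟩, m, rfl⟩ := hn
    refine ⟨m, mem_Ioc.2 ⟨?_, ?_⟩, rfl⟩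
    · rw [Nat.div_lt_iff_lt_mul hk, mul_comm]; exact h1
    · rw [Nat.le_div_iff_mul_le hk, mul_comm]; exact h2

lemma count_near {k : ℕ} (hk : 0 < k) (y L : ℕ) :
    |((((y + L) / k : ℕ) : ℝ) - ((y / k : ℕ) : ℝ)) - (L : ℝ) / k| ≤ 1 := by
  have hk' : (0 : ℝ) < k := by exact_mod_cast hk
  have h : ∀ x : ℕ, ((x / k : ℕ) : ℝ) ≤ (x : ℝ) / k ∧ (x : ℝ) / k - 1 ≤ ((x / k : ℕ) : ℝ) := by
    intro x
    refine ⟨Nat.cast_div_le, ?_⟩
    have h1 : x < k * (x / k + 1) := Nat.lt_mul_div_succ x hk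
    have h2 : (x : ℝ) < k * (((x / k : ℕ) : ℝ) + 1) := by exact_mod_cast h1
    rw [sub_le_iff_le_add, div_le_iff₀ hk']
    linarith
  have a := h (y + L)
  have b := h y
  push_cast at a
  rw [add_div] at a
  rw [abs_le]
  constructor <;> linarith [a.1, a.2, b.1, b.2]

/-- the odd character modulo six -/
def f6 (n : ℕ) : ℤ := if n % 6 = 1 then 1 else if n % 6 = 5 then -1 else 0

lemma f6_mul (a b : ℕ) : f6 (a * b) = f6 a * f6 b := by
  unfold f6
  rw [Nat.mul_mod]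
  have ha : a % 6 < 6 := Nat.mod_lt _ (by norm_num)
  have hb : b % 6 < 6 := Nat.mod_lt _ (by norm_num)
  generalize a % 6 = x at *
  generalize b % 6 = y at *
  interval_cases x <;> interval_cases y <;> simp

lemma f6_add (a k : ℕ) : f6 (a + 6 * k) = f6 a := by
  unfold f6
  rw [Nat.add_mul_mod_self_left]

lemma norm_f6 (a : ℕ) : ‖(f6 a : ℂ)‖ ≤ 1 := by
  unfold f6
  split_ifs <;> simp

/-- the additive character of frequency `-1 / (6 q ^ 2)` -/
noncomputable def eq6 (q : ℕ) (x : ℝ) : ℂ := cexp (((-(2 * Real.pi * x / (6 * q ^ 2)) : ℝ) : ℂ) * I)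

lemma norm_eq6 (q : ℕ) (x : ℝ) : ‖eq6 q x‖ = 1 := norm_exp_ofReal_mul_I _

lemma eq6_add (q : ℕ) (x y : ℝ) : eq6 q (x + y) = eq6 q x * eq6 q y := by
  unfold eq6
  rw [← exp_add]
  congr 1
  push_cast
  ring

lemma eq6_period {q : ℕ} (hq : q ≠ 0) (k : ℕ) : eq6 q ((6 * q ^ 2 * k : ℕ) : ℝ) = 1 := by
  unfold eq6
  have : (q : ℂ) ≠ 0 := Nat.cast_ne_zero.2 hq
  rw [exp_eq_one_iff]
  refine ⟨-k, ?_⟩
  push_cast
  field_simp

/-- the summand -/
noncomputable def Fq (q n : ℕ) : ℂ := (f6 n : ℂ) * eq6 q n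

lemma norm_Fq (q n : ℕ) : ‖Fq q n‖ ≤ 1 := by
  rw [Fq, norm_mul, norm_eq6, mul_one]; exact norm_f6 n

lemma Fq_period {q : ℕ} (hq : q ≠ 0) (k m : ℕ) : Fq q (k * (m + 6 * q ^ 2)) = Fq q (k * m) := by
  unfold Fq
  rw [show k * (m + 6 * q ^ 2) = k * m + 6 * q ^ 2 * k by ring, Nat.cast_add, eq6_add,
    eq6_period hq, mul_one, mul_assoc 6, f6_add]

/-- the mean values -/
noncomputable def mj (q j : ℕ) : ℂ := (∑ i ∈ range (6 * q ^ 2), Fq q (j ^ 2 * i)) / (6 * q ^ 2 : ℕ)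

lemma mj_zero {q j : ℕ} (hq : q.Prime) (hj : ¬ q ∣ j) : mj q j = 0 := by
  have h1 := period_shift (G := fun i => Fq q (j ^ 2 * i)) (P := 6 * q ^ 2)
    (fun n => Fq_period hq.ne_zero _ _) 6
  have h2 : ∀ i, Fq q (j ^ 2 * (6 + i)) = eq6 q ((6 * j ^ 2 : ℕ) : ℝ) * Fq q (j ^ 2 * i) := by
    intro i
    unfold Fq
    rw [show j ^ 2 * (6 + i) = j ^ 2 * i + 6 * j ^ 2 by ring, f6_add, Nat.cast_add, eq6_add]
    ring
  simp_rw [h2] at h1
  rw [← Finset.mul_sum] at h1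
  have h3 : eq6 q ((6 * j ^ 2 : ℕ) : ℝ) ≠ 1 := by
    unfold eq6
    rw [Ne, exp_eq_one_iff]
    rintro ⟨n, hn⟩
    have hq' : (q : ℂ) ≠ 0 := Nat.cast_ne_zero.2 hq.ne_zero
    have hpi : (Real.pi : ℂ) ≠ 0 := ofReal_ne_zero.2 Real.pi_ne_zero
    have hI := I_ne_zero
    push_cast at hn
    field_simp at hn
    have h4 : ((j : ℤ) ^ 2 : ℤ) = (q : ℤ) ^ 2 * (-n) := by
      have : (((j : ℤ) ^ 2 : ℤ) : ℂ) = (((q : ℤ) ^ 2 * (-n) : ℤ) : ℂ) := by
        push_cast
        linear_combination -hn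
      exact_mod_cast this
    have h5 : (q : ℤ) ∣ (j : ℤ) ^ 2 := ⟨q * (-n), by rw [h4]; ring⟩
    have h6 : q ∣ j ^ 2 := by exact_mod_cast h5
    exact hj (hq.dvd_of_dvd_pow h6)
  have h4 : ∑ i ∈ range (6 * q ^ 2), Fq q (j ^ 2 * i) = 0 := by
    by_contra h
    exact h3 (mul_right_cancel₀ h (by rw [h1, one_mul]))
  rw [mj, h4, zero_div]

/-- the Gauss sum modulo six -/
noncomputable def g6 : ℂ := (eq6 1 1 - eq6 1 5) / 6

lemma norm_g6 : 1 / 4 ≤ ‖g6‖ := by
  have h1 : g6.im = -(√3 / 6) := by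
    unfold g6 eq6
    rw [div_ofNat_im, sub_im, exp_ofReal_mul_I_im, exp_ofReal_mul_I_im]
    have e1 : -(2 * Real.pi * 1 / (6 * ((1 : ℕ) : ℝ) ^ 2)) = -(Real.pi / 3) := by push_cast; ring
    have e2 : -(2 * Real.pi * 5 / (6 * ((1 : ℕ) : ℝ) ^ 2)) = Real.pi / 3 - 2 * Real.pi := by
      push_cast; ring
    rw [e1, e2, Real.sin_neg, Real.sin_sub_two_pi, Real.sin_pi_div_three]
    ring
  have h2 := abs_im_le_norm g6
  rw [h1, abs_neg, abs_of_nonneg (by positivity)] at h2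
  have h3 : (3 / 2 : ℝ) ≤ √3 := Real.le_sqrt_of_sq_le (by norm_num)
  linarith

lemma mj_mult {q : ℕ} (hq : q ≠ 0) (j : ℕ) : mj q (q * j) = (f6 (q * j) : ℂ) ^ 2 * g6 := by
  by_cases h : f6 (q * j) = 0
  · have : ∀ i, Fq q ((q * j) ^ 2 * i) = 0 := by
      intro i
      rw [Fq, f6_mul, sq, f6_mul, h]; simp
    simp [mj, this, h]
  have hj : f6 j ≠ 0 := fun h' => h (by rw [f6_mul, h', mul_zero])
  have hj6 : j ^ 2 % 6 = 1 := by
    unfold f6 at hj
    rw [Nat.pow_mod]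
    split_ifs at hj with h1 h2
    · rw [h1]
    · rw [h2]
    · exact absurd rfl hj
  have hq' : (q : ℝ) ≠ 0 := Nat.cast_ne_zero.2 hq
  have h1 : ∀ i, Fq q ((q * j) ^ 2 * i) = (f6 (q * j) : ℂ) ^ 2 * Fq 1 i := by
    intro i
    unfold Fq
    rw [f6_mul, sq (q * j), f6_mul]
    have e1 : eq6 q (((q * j * (q * j) * i : ℕ)) : ℝ) = eq6 1 ((j ^ 2 * i : ℕ) : ℝ) := by
      unfold eq6
      congr 3
      push_cast
      field_simp
    have e2 : j ^ 2 * i = i + 6 * 1 ^ 2 * (j ^ 2 / 6 * i) := by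
      conv_lhs => rw [← Nat.div_add_mod (j ^ 2) 6, hj6]
      ring
    rw [e1, e2, Nat.cast_add, eq6_add, eq6_period one_ne_zero, mul_one]
    push_cast
    ring
  have h2 : ∀ k : ℕ, ∑ i ∈ range (6 * k), Fq 1 i = k * (6 * g6) := by
    intro k
    induction k with
    | zero => simp
    | succ k ih =>
      rw [Nat.mul_succ, Finset.sum_range_add, ih, period_shift (G := Fq 1) (P := 6)
        (fun n => by simpa using Fq_period one_ne_zero 1 n)]
      simp only [Finset.sum_range_succ, Finset.sum_range_zero, Fq, f6, g6]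
      push_cast
      norm_num
      ring
  unfold mj
  simp_rw [h1]
  rw [← Finset.mul_sum, h2]
  have hqc : (q : ℂ) ≠ 0 := Nat.cast_ne_zero.2 hq
  push_cast
  field_simp

/-- the leading coefficient -/
noncomputable def cq (q J : ℕ) : ℂ :=
  ∑ j ∈ Icc 1 J, ((ArithmeticFunction.moebius j : ℤ) : ℂ) * mj q j / (j : ℂ) ^ 2

lemma norm_moebius_le (j : ℕ) : ‖((ArithmeticFunction.moebius j : ℤ) : ℂ)‖ ≤ 1 := by
  rw [norm_intCast]
  exact_mod_cast ArithmeticFunction.abs_moebius_le_one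

lemma norm_cq {q J : ℕ} (hq : q.Prime) (hq5 : 5 ≤ q) (hJ : q ≤ J) :
    1 / (16 * (q : ℝ) ^ 2) ≤ ‖cq q J‖ := by
  have hq0 : (0 : ℝ) < q := by exact_mod_cast hq.pos
  set F : ℕ → ℂ := fun j => ((ArithmeticFunction.moebius j : ℤ) : ℂ) * mj q j / (j : ℂ) ^ 2 with hF
  have h1 : cq q J = ∑ m ∈ Ioc 0 (J / q), F (q * m) := by
    have := sum_mult F hq.pos 0 J
    rw [Nat.zero_div] at this
    rw [← this, cq, ← Finset.Icc_add_one_left_eq_Ioc]
    refine Finset.sum_congr rfl fun j _ => ?_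
    split_ifs with h
    · rfl
    · rw [mj_zero hq h]; simp
  have hJq : 1 ≤ J / q := (Nat.le_div_iff_mul_le hq.pos).2 (by omega)
  rw [← Finset.sum_Ioc_consecutive _ (Nat.zero_le 1) hJq] at h1
  have h2 : ‖F (q * 1)‖ = ‖g6‖ / (q : ℝ) ^ 2 := by
    have hf : (f6 (q * 1) : ℂ) ^ 2 = 1 := by
      have h2 : ¬ 2 ∣ q := fun h => by
        have := (Nat.prime_dvd_prime_iff_eq Nat.prime_two hq).1 h; omega
      have h3 : ¬ 3 ∣ q := fun h => by
        have := (Nat.prime_dvd_prime_iff_eq Nat.prime_three hq).1 h; omega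
      unfold f6
      split_ifs with a b
      · simp
      · simp
      · omega
    simp only [hF]
    rw [mj_mult hq.ne_zero, hf, mul_one, ArithmeticFunction.moebius_apply_prime hq]
    simp
  have h3 : ∀ m ∈ Ioc 1 (J / q), ‖F (q * m)‖ ≤ ‖g6‖ / (q : ℝ) ^ 2 * ((m : ℝ) ^ 2)⁻¹ := by
    intro m hm
    have hm0 : (0 : ℝ) < m := by have := (mem_Ioc.1 hm).1; exact_mod_cast (by omega : 0 < m)
    simp only [hF]
    rw [mj_mult hq.ne_zero, norm_div, norm_mul, norm_mul, norm_pow, norm_pow, norm_natCast]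
    have a1 := norm_moebius_le (q * m)
    have a2 := norm_f6 (q * m)
    calc _ ≤ 1 * (1 ^ 2 * ‖g6‖) / ((q * m : ℕ) : ℝ) ^ 2 := by gcongr
      _ = _ := by push_cast; field_simp
  have h4 : ∑ m ∈ Ioc 1 (J / q), ((m : ℝ) ^ 2)⁻¹ ≤ 3 / 4 := by
    rcases hJq.eq_or_lt with h | h
    · rw [← h]; simp; norm_num
    · rw [← Finset.sum_Ioc_consecutive _ (by norm_num : 1 ≤ 2) h]
      have := sum_Ioc_inv_sq_le_sub (α := ℝ) (k := 2) two_ne_zero h
      have h5 : (0 : ℝ) ≤ (((J / q : ℕ) : ℝ))⁻¹ := by positivity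
      have h6 : ∑ m ∈ Ioc (1 : ℕ) 2, ((m : ℝ) ^ 2)⁻¹ = 1 / 4 := by
        rw [show Ioc (1 : ℕ) 2 = {2} from rfl]; norm_num
      push_cast at this
      linarith
  have h5 : ‖∑ m ∈ Ioc 1 (J / q), F (q * m)‖ ≤ ‖g6‖ / (q : ℝ) ^ 2 * (3 / 4) := by
    refine (norm_sum_le _ _).trans ((Finset.sum_le_sum h3).trans ?_)
    rw [← Finset.mul_sum]
    gcongr
  rw [show Ioc 0 1 = {1} from rfl, sum_singleton] at h1
  have h6 := norm_sub_norm_le (F (q * 1)) (-∑ m ∈ Ioc 1 (J / q), F (q * m))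
  rw [sub_neg_eq_add, ← h1, norm_neg, h2] at h6
  have h7 : 1 / 4 / (q : ℝ) ^ 2 ≤ ‖g6‖ / (q : ℝ) ^ 2 := by gcongr; exact norm_g6
  have h8 : 1 / (16 * (q : ℝ) ^ 2) = 1 / 4 / (q : ℝ) ^ 2 / 4 := by field_simp; norm_num
  linarith

/-- The exponential sum over squarefree numbers in an interval. -/
lemma expsum {q J B y L : ℕ} (hq : q ≠ 0) (hJ : 0 < J) (hJB : J ≤ B) (hB : y + L ≤ B ^ 2) :
    ‖(∑ n ∈ Ioc y (y + L), if Squarefree n then Fq q n else 0) - cq q J * L‖ ≤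
      J * (12 * (q : ℝ) ^ 2 + 1) + (L / J + B) := by
  set T : ℕ → ℂ := fun j => ∑ m ∈ Ioc (y / j ^ 2) ((y + L) / j ^ 2), Fq q (j ^ 2 * m) with hT
  have h1 : (∑ n ∈ Ioc y (y + L), if Squarefree n then Fq q n else 0) =
      ∑ j ∈ Ioc 0 B, ((ArithmeticFunction.moebius j : ℤ) : ℂ) * T j := by
    have a1 : ∀ n ∈ Ioc y (y + L), (if Squarefree n then Fq q n else 0) =
        ∑ j ∈ Icc 1 B, ((ArithmeticFunction.moebius j : ℤ) : ℂ) *
          (if j ^ 2 ∣ n then Fq q n else 0) := by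
      intro n hn
      rw [mem_Ioc] at hn
      have := sqf_indicator (n := n) (B := B) (by omega) (by omega)
      rw [show (if Squarefree n then Fq q n else 0) = (if Squarefree n then 1 else 0) * Fq q n by
        split_ifs <;> simp, this, Finset.sum_mul]
      refine Finset.sum_congr rfl fun j _ => ?_
      split_ifs <;> simp
    rw [Finset.sum_congr rfl a1, Finset.sum_comm, show Ioc 0 B = Icc 1 B from rfl]
    refine Finset.sum_congr rfl fun j hj => ?_
    have hj1 : 0 < j := (mem_Icc.1 hj).1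
    rw [← Finset.mul_sum, sum_mult _ (by positivity)]
  rw [h1, ← Finset.sum_Ioc_consecutive _ (Nat.zero_le J) hJB, add_sub_right_comm]
  refine (norm_add_le _ _).trans (add_le_add ?_ ?_)
  · rw [cq, Finset.sum_mul, show Ioc 0 J = Icc 1 J from rfl, ← Finset.sum_sub_distrib]
    refine (norm_sum_le _ _).trans ((Finset.sum_le_card_nsmul _ _ (12 * (q : ℝ) ^ 2 + 1)
      fun j hj => ?_).trans (by rw [Nat.card_Icc, nsmul_eq_mul]; simp))
    have hj1 : 0 < j := (mem_Icc.1 hj).1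
    have hP : 0 < 6 * q ^ 2 := by positivity
    have a1 := periodic_sum (F := fun m => Fq q (j ^ 2 * m)) hP (fun n => Fq_period hq _ _)
      (fun n => norm_Fq _ _) (a := y / j ^ 2) (b := (y + L) / j ^ 2)
      (Nat.div_le_div_right (by omega))
    have a2 := count_near (k := j ^ 2) (by positivity) y L
    have a3 : ‖mj q j‖ ≤ 1 := by
      rw [mj, norm_div, Complex.norm_natCast, div_le_one (by exact_mod_cast hP)]
      refine (norm_sum_le _ _).trans
        ((Finset.sum_le_card_nsmul _ _ 1 fun i _ => norm_Fq _ _).trans ?_)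
      simp
    set c : ℝ := ((((y + L) / j ^ 2 : ℕ) : ℝ) - ((y / j ^ 2 : ℕ) : ℝ)) with hc
    have e : ((ArithmeticFunction.moebius j : ℤ) : ℂ) * T j -
        ((ArithmeticFunction.moebius j : ℤ) : ℂ) * mj q j / (j : ℂ) ^ 2 * L =
        ((ArithmeticFunction.moebius j : ℤ) : ℂ) * ((T j - c * mj q j) +
          ((c - (L : ℝ) / ((j ^ 2 : ℕ) : ℝ) : ℝ) : ℂ) * mj q j) := by
      push_cast
      ring
    rw [e, norm_mul]
    have a4 : ‖T j - c * mj q j‖ ≤ 12 * (q : ℝ) ^ 2 := by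
      refine le_trans (le_of_eq ?_) (a1.trans (le_of_eq (by push_cast; ring)))
      rw [hc, ofReal_sub, ofReal_natCast, ofReal_natCast]
      rfl
    have a5 : ‖((c - (L : ℝ) / ((j ^ 2 : ℕ) : ℝ) : ℝ) : ℂ) * mj q j‖ ≤ 1 := by
      rw [norm_mul, norm_real, Real.norm_eq_abs]
      exact mul_le_one₀ a2 (norm_nonneg _) a3
    calc _ ≤ 1 * (12 * (q : ℝ) ^ 2 + 1) := by
          gcongr
          · exact norm_moebius_le j
          · exact (norm_add_le _ _).trans (add_le_add a4 a5)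
      _ = _ := one_mul _
  · have a1 : ∀ j ∈ Ioc J B, ‖((ArithmeticFunction.moebius j : ℤ) : ℂ) * T j‖ ≤
        L * ((j : ℝ) ^ 2)⁻¹ + 1 := by
      intro j hj
      have hj1 : 0 < j := by have := (mem_Ioc.1 hj).1; omega
      have a2 := count_near (k := j ^ 2) (by positivity) y L
      have a3 : ‖T j‖ ≤ ((((y + L) / j ^ 2 : ℕ) : ℝ) - ((y / j ^ 2 : ℕ) : ℝ)) := by
        refine (norm_sum_le _ _).trans
          ((Finset.sum_le_card_nsmul _ _ 1 fun i _ => norm_Fq _ _).trans ?_)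
        rw [Nat.card_Ioc, nsmul_eq_mul, mul_one, Nat.cast_sub (Nat.div_le_div_right (by omega))]
      rw [norm_mul]
      have a4 := (abs_le.1 a2).2
      rw [Nat.cast_pow, div_eq_mul_inv] at a4
      calc _ ≤ 1 * ‖T j‖ := by gcongr; exact norm_moebius_le j
        _ ≤ _ := by linarith
    refine (norm_sum_le _ _).trans ((Finset.sum_le_sum a1).trans ?_)
    rw [Finset.sum_add_distrib, ← Finset.mul_sum, sum_const, Nat.card_Ioc, nsmul_eq_mul, mul_one]
    have a2 := sum_Ioc_inv_sq_le_sub (α := ℝ) hJ.ne' hJB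
    have a3 : (0 : ℝ) ≤ (B : ℝ)⁻¹ := by positivity
    have a4 : ((B - J : ℕ) : ℝ) ≤ B := by exact_mod_cast Nat.sub_le B J
    have a5 : (L : ℝ) * ∑ i ∈ Ioc J B, ((i : ℝ) ^ 2)⁻¹ ≤ L * (J : ℝ)⁻¹ := by gcongr; linarith
    rw [div_eq_mul_inv]
    linarith

end Pool.Agent.H464Z.R8
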