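import Pool.Agent.H464Z.RatMean
import Pool.Agent.H464Z.R8Sum

/-!
A lower bound for a Dirichlet polynomial supported on squarefree numbers, on a window of
frequencies shorter than its length.
-/

namespace Pool.Agent.H464Z.R8

open Complex MeasureTheory Set Pool.Agent.H464Z.Rat

lemma exists_sym_kernel (T₁ T : ℝ) (hT : 0 < T) (k : ℕ) :
    ∃ μ : Measure ℝ, IsProbabilityMeasure μ ∧ (∀ᵐ t ∂μ, t ∈ Icc (T₁ - k * T) (T₁ + k * T)) ∧
      ∃ ψ : ℝ → ℝ, (∀ x : ℝ, charFun μ x = cexp (((T₁ * x : ℝ) : ℂ) * I) * ψ x) ∧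
        (∀ x, 0 ≤ ψ x) ∧ (∀ x, ψ x ≤ 1) ∧ ψ 0 = 1 ∧
        ∀ x : ℝ, x ≠ 0 → ψ x ≤ (2 / (T * |x|)) ^ k := by
  obtain ⟨κ, h1, h2, h3⟩ := exists_kernel 0 T hT k
  have hm1 : Measurable fun x : ℝ => -1 * x := by fun_prop
  have hm2 : Measurable fun x : ℝ => x + T₁ := by fun_prop
  have i1 : IsProbabilityMeasure (κ.map fun x : ℝ => -1 * x) :=
    Measure.isProbabilityMeasure_map hm1.aemeasurable
  have i2 : IsProbabilityMeasure ((κ ∗ κ.map fun x : ℝ => -1 * x).map fun x : ℝ => x + T₁) :=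
    Measure.isProbabilityMeasure_map hm2.aemeasurable
  refine ⟨_, i2, ?_, fun x => ‖charFun κ x‖ ^ 2, fun x => ?_, fun x => by positivity,
    fun x => pow_le_one₀ (norm_nonneg _) (norm_charFun_le_one x), by simp, fun x hx => ?_⟩
  · refine (ae_map_iff hm2.aemeasurable measurableSet_Icc).2 ?_
    unfold Measure.conv
    refine (ae_map_iff (by fun_prop) (hm2 measurableSet_Icc)).2 ?_
    have a0 : ∀ᵐ t ∂(κ.map fun x : ℝ => -1 * x), t ∈ Icc (-(k * T)) 0 := by
      refine (ae_map_iff hm1.aemeasurable measurableSet_Icc).2 ?_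
      filter_upwards [h2] with t ht
      constructor <;> linarith [ht.1, ht.2]
    have a1 : ∀ᵐ z ∂(κ.prod (κ.map fun x : ℝ => -1 * x)), z.1 ∈ Icc 0 (0 + k * T) :=
      Measure.quasiMeasurePreserving_fst.ae h2
    have a2 : ∀ᵐ z ∂(κ.prod (κ.map fun x : ℝ => -1 * x)), z.2 ∈ Icc (-(k * T)) 0 :=
      Measure.quasiMeasurePreserving_snd.ae a0
    filter_upwards [a1, a2] with z hz1 hz2
    constructor <;> linarith [hz1.1, hz1.2, hz2.1, hz2.2]
  · rw [charFun_map_add_const, charFun_conv, charFun_map_mul, neg_one_mul, charFun_neg, mul_conj,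
      normSq_eq_norm_sq, mul_comm]
    congr 2
    simp [mul_comm]
  · calc ‖charFun κ x‖ ^ 2 = ‖charFun κ x‖ * ‖charFun κ x‖ := sq _
      _ ≤ 1 * (2 / (T * |x|)) ^ k :=
          mul_le_mul (norm_charFun_le_one x) (h3 x hx) (norm_nonneg _) zero_le_one
      _ = _ := one_mul _

lemma charFun_lip (μ : Measure ℝ) [IsProbabilityMeasure μ] {R : ℝ} (hR : ∀ᵐ t ∂μ, |t| ≤ R)
    (x y : ℝ) : ‖charFun μ x - charFun μ y‖ ≤ R * |x - y| := by
  have i := fun l : ℝ => integrable_exp μ 1 l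
  simp only [one_mul] at i
  rw [charFun_apply_real, charFun_apply_real, ← integral_sub (i x) (i y)]
  refine (norm_integral_le_of_norm_le_const (C := R * |x - y|) ?_).trans (by simp)
  filter_upwards [hR] with t ht
  have e : cexp (x * t * I) - cexp (y * t * I) =
      cexp (((y * t : ℝ) : ℂ) * I) * (cexp (I * (((x - y) * t : ℝ) : ℂ)) - 1) := by
    rw [mul_sub, ← exp_add]
    push_cast
    ring_nf
  rw [e, norm_mul, norm_exp_ofReal_mul_I, one_mul]
  refine Real.norm_exp_I_mul_ofReal_sub_one_le.trans ?_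
  rw [Real.norm_eq_abs, abs_mul, mul_comm]
  gcongr

lemma duality (μ : Measure ℝ) [IsProbabilityMeasure μ] {F G : ℝ → ℂ} {M r : ℝ} (hM : 0 ≤ M)
    (hr : 0 < r) (hF : ∀ᵐ t ∂μ, ‖F t‖ ≤ M) (hi : Integrable (fun t => ‖G t‖ ^ 2) μ)
    (hG : ∫ t, ‖G t‖ ^ 2 ∂μ ≤ r ^ 2) : ‖∫ t, F t * G t ∂μ‖ ≤ M * r := by
  have h3 : ‖∫ t, F t * G t ∂μ‖ ≤ ∫ t, (M / (2 * r) * ‖G t‖ ^ 2 + M * r / 2) ∂μ := by
    refine norm_integral_le_of_norm_le ((hi.const_mul _).add (integrable_const _)) ?_
    filter_upwards [hF] with t ht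
    rw [norm_mul]
    have a2 : ‖G t‖ ≤ ‖G t‖ ^ 2 / (2 * r) + r / 2 := by
      rw [div_add_div _ _ (by positivity) (by positivity), le_div_iff₀ (by positivity)]
      nlinarith [sq_nonneg (‖G t‖ - r)]
    calc ‖F t‖ * ‖G t‖ ≤ M * (‖G t‖ ^ 2 / (2 * r) + r / 2) := by gcongr
      _ = M / (2 * r) * ‖G t‖ ^ 2 + M * r / 2 := by ring
  rw [integral_add (hi.const_mul _) (integrable_const _), integral_const_mul] at h3
  simp only [integral_const, probReal_univ, smul_eq_mul, one_mul] at h3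
  have h4 : M / (2 * r) * ∫ t, ‖G t‖ ^ 2 ∂μ ≤ M / (2 * r) * r ^ 2 := by gcongr
  have h5 : M / (2 * r) * r ^ 2 = M * r / 2 := by field_simp
  linarith

lemma log_far {u n m V : ℝ} (hu : 0 < u) (hn : 0 < n) (hum : u ≤ m) (hnm : n ≤ m) (hV : 0 ≤ V)
    (h : V ≤ |u - n|) : V / m ≤ |Real.log u - Real.log n| := by
  wlog hle : n ≤ u generalizing u n
  · rw [abs_sub_comm] at h ⊢
    exact this hn hu hnm hum h (not_le.1 hle).le
  rw [abs_of_nonneg (by linarith)] at h
  rw [← Real.log_div hu.ne' hn.ne']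
  refine le_trans ?_ (le_abs_self _)
  refine le_trans ?_ (Real.one_sub_inv_le_log_of_pos (by positivity))
  rw [inv_div, one_sub_div hu.ne']
  exact div_le_div₀ (by linarith) h hu hum

lemma log_near {n v y V L : ℝ} (hy : 0 < y) (hv : |v| ≤ V) (hVy : 2 * V ≤ y) (hL : 0 ≤ L)
    (h1 : y ≤ n) (h2 : n ≤ y + 2 * V + L) :
    |Real.log (n + v) - Real.log n - v / y| ≤ V * (4 * V + L) / y ^ 2 := by
  have hn : 0 < n := by linarith
  have hV : 0 ≤ V := (abs_nonneg _).trans hv
  obtain ⟨v1, v2⟩ := abs_le.1 hv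
  have hnv : 0 < n + v := by linarith
  rw [← Real.log_div hnv.ne' hn.ne']
  have a1 := Real.log_le_sub_one_of_pos (div_pos hnv hn)
  have a2 := Real.one_sub_inv_le_log_of_pos (div_pos hnv hn)
  rw [inv_div] at a2
  have e1 : (n + v) / n - 1 = v / n := by field_simp; ring
  have e2 : 1 - n / (n + v) = v / n - v ^ 2 / (n * (n + v)) := by field_simp; ring
  have b1 : v ^ 2 / (n * (n + v)) ≤ 2 * V ^ 2 / y ^ 2 := by
    rw [div_le_div_iff₀ (by positivity) (by positivity)]
    have c1 : v ^ 2 ≤ V ^ 2 := sq_le_sq' v1 v2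
    have c2 : y ^ 2 ≤ 2 * (n * (n + v)) := by nlinarith
    calc v ^ 2 * y ^ 2 ≤ V ^ 2 * (2 * (n * (n + v))) := by gcongr
      _ = _ := by ring
  have b2 : |v / n - v / y| ≤ V * (2 * V + L) / y ^ 2 := by
    rw [show v / n - v / y = v * ((y - n) / (n * y)) by field_simp, abs_mul, abs_div,
      abs_of_pos (mul_pos hn hy), abs_sub_comm, abs_of_nonneg (by linarith : 0 ≤ n - y),
      mul_div_assoc]
    gcongr
    · linarith
    · nlinarith
  have b3 : 0 ≤ v ^ 2 / (n * (n + v)) := by positivity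
  have e3 : V * (4 * V + L) / y ^ 2 = 2 * V ^ 2 / y ^ 2 + V * (2 * V + L) / y ^ 2 := by ring
  obtain ⟨c1, c2⟩ := abs_le.1 b2
  have b4 : 0 ≤ 2 * V ^ 2 / y ^ 2 := by positivity
  rw [abs_le]
  constructor <;> linarith

/-- the arithmetic factor -/
noncomputable def sf (n : ℕ) : ℂ := if Squarefree n then (f6 n : ℂ) else 0

lemma norm_sf (n : ℕ) : ‖sf n‖ ≤ 1 := by
  unfold sf
  split_ifs
  · exact norm_f6 n
  · simp

lemma low_bound {q m y V L k : ℕ} (hq : q ≠ 0) {T A a₀ δ err M : ℝ} {c : ℂ} (a : ℕ → ℝ)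
    (hT : 0 < T) (hV : 0 < V) (hL : 0 < L) (hVy : 2 * V ≤ y) (hm : y + 2 * V + L ≤ m)
    (hk : k * T ≤ 2 * Real.pi * y / (6 * q ^ 2)) (hA0 : 0 ≤ A) (ha₀ : 0 ≤ a₀) (hδ : 0 ≤ δ)
    (hM0 : 0 ≤ M) (hA : ∀ n, |a n| ≤ A)
    (ha : ∀ n, y ≤ n → n ≤ y + 2 * V + L → |a n - a₀| ≤ δ)
    (herr : ∀ z, y ≤ z → z ≤ y + 2 * V →
      ‖(∑ n ∈ Finset.Ioc z (z + L), if Squarefree n then Fq q n else 0) - c * L‖ ≤ err)
    (hη : L * (2 * m / (T * V)) ^ k ≤ 1)
    (hM : ∀ t ∈ Icc (2 * Real.pi * y / (6 * q ^ 2) - k * T) (2 * Real.pi * y / (6 * q ^ 2) + k * T),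
      ‖ES (Finset.Ioc 0 m) (fun n => (a n : ℂ) * sf n) (fun n => -Real.log n) t‖ ≤ M) :
    a₀ * (‖c‖ * L) ≤ M * √(L * (2 * V + 2)) + L * (m * (A * (2 * m / (T * V)) ^ k)) +
      (2 * V + 1) * (L * (δ + a₀ * (2 * (2 * Real.pi * y / (6 * q ^ 2)) *
        (V * (4 * V + L) / y ^ 2))) + a₀ * err) := by
  classical
  set T₁ : ℝ := 2 * Real.pi * y / (6 * q ^ 2) with hT₁
  set η : ℝ := (2 * m / (T * V)) ^ k with hηdef
  obtain ⟨μ, hμ, hsupp, ψ, hψ, ψ0, ψ1, ψz, ψd⟩ := exists_sym_kernel T₁ T hT k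
  have hV' : (0 : ℝ) < V := by exact_mod_cast hV
  have hL' : (0 : ℝ) < L := by exact_mod_cast hL
  have hVy' : 2 * (V : ℝ) ≤ y := by exact_mod_cast hVy
  have hy' : (0 : ℝ) < y := by linarith
  have hm' : (y : ℝ) + 2 * V + L ≤ m := by exact_mod_cast hm
  have hm0 : (0 : ℝ) < m := by linarith
  have hη0 : 0 ≤ η := by positivity
  have hnφ : ∀ x, ‖charFun μ x‖ = ψ x := by
    intro x
    rw [hψ, norm_mul, norm_exp_ofReal_mul_I, one_mul, norm_real, Real.norm_of_nonneg (ψ0 x)]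
  have hfar : ∀ u n : ℕ, 0 < u → 0 < n → u ≤ m → n ≤ m → (n + V < u ∨ u + V < n) →
      ‖charFun μ (-Real.log n + Real.log u)‖ ≤ η := by
    intro u n hu hn hum hnm h
    have a1 : (V : ℝ) / m ≤ |Real.log u - Real.log n| := by
      refine log_far (by exact_mod_cast hu) (by exact_mod_cast hn) (by exact_mod_cast hum)
        (by exact_mod_cast hnm) hV'.le ?_
      rcases h with h | h
      · have : (n : ℝ) + V < u := by exact_mod_cast h
        exact le_trans (by linarith) (le_abs_self _)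
      · have : (u : ℝ) + V < n := by exact_mod_cast h
        exact le_trans (by linarith) (neg_le_abs _)
    have a2 : 0 < (V : ℝ) / m := by positivity
    rw [hnφ, neg_add_eq_sub]
    refine (ψd _ (abs_pos.1 (a2.trans_le a1))).trans ?_
    apply pow_le_pow_left₀ (by positivity)
    calc 2 / (T * |Real.log u - Real.log n|) ≤ 2 / (T * (V / m)) := by gcongr
      _ = _ := by field_simp
  set U := Finset.Ioc (y + V) (y + V + L) with hU
  have hUc : (U.card : ℝ) = L := by simp [hU]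
  have hUm : ∀ u ∈ U, y + V < u ∧ u ≤ y + V + L := fun u hu => Finset.mem_Ioc.1 hu
  set G := ES U (fun u => eq6 q u) (fun u => Real.log u) with hG
  -- the mean square of the test function
  have hG2 : ∀ t, ES U (fun u => (starRingEnd ℂ) (eq6 q u)) (fun u => -Real.log u) t * G t =
      ((‖G t‖ ^ 2 : ℝ) : ℂ) := by
    intro t
    have := conj_ES U (fun u => eq6 q u) (fun u => -Real.log u) t
    simp only [neg_neg] at this
    rw [← this, ← hG, mul_comm, mul_conj, normSq_eq_norm_sq]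
  have hGi : Integrable (fun t => ‖G t‖ ^ 2) μ := by
    have := integrable_ES_mul μ U U (fun u => (starRingEnd ℂ) (eq6 q u)) (fun u => eq6 q u)
      (fun u => -Real.log u) (fun u => Real.log u)
    simp_rw [← hG, hG2] at this
    exact this.re
  have hGu : ∫ t, ‖G t‖ ^ 2 ∂μ ≤ √(L * (2 * V + 2)) ^ 2 := by
    rw [Real.sq_sqrt (by positivity)]
    have h2 := integral_ES_mul μ U U (fun u => (starRingEnd ℂ) (eq6 q u)) (fun u => eq6 q u)
      (fun u => -Real.log u) (fun u => Real.log u)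
    simp_rw [← hG, hG2] at h2
    rw [integral_complex_ofReal] at h2
    have a2 : ∫ t, ‖G t‖ ^ 2 ∂μ ≤ ‖(((∫ t, ‖G t‖ ^ 2 ∂μ : ℝ)) : ℂ)‖ := by
      rw [norm_real]; exact le_abs_self _
    refine a2.trans ?_
    rw [h2]
    refine (norm_sum_le _ _).trans ((Finset.sum_le_card_nsmul _ _ (2 * V + 2 : ℝ)
      fun u hu => ?_).trans (by rw [nsmul_eq_mul, hUc]))
    refine (norm_sum_le _ _).trans ?_
    have b1 : ∀ n ∈ U, ‖(starRingEnd ℂ) (eq6 q n) * eq6 q u *
        charFun μ (-Real.log n + Real.log u)‖ ≤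
        (if n ∈ Finset.Icc (u - V) (u + V) then 1 else 0) + η := by
      intro n hn
      rw [norm_mul, norm_mul, RCLike.norm_conj, norm_eq6, norm_eq6, one_mul, one_mul]
      have c1 := hUm u hu
      have c2 := hUm n hn
      split_ifs with h
      · linarith [norm_charFun_le_one (μ := μ) (-Real.log n + Real.log u)]
      · rw [Finset.mem_Icc] at h
        rw [zero_add]
        exact hfar u n (by omega) (by omega) (by omega) (by omega) (by omega)
    refine (Finset.sum_le_sum b1).trans ?_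
    rw [Finset.sum_add_distrib, Finset.sum_const, nsmul_eq_mul, hUc, Finset.sum_boole]
    have b2 : (U.filter fun n => n ∈ Finset.Icc (u - V) (u + V)).card ≤ 2 * V + 1 := by
      refine (Finset.card_le_card (t := Finset.Icc (u - V) (u + V))
        fun n hn => (Finset.mem_filter.1 hn).2).trans ?_
      rw [Nat.card_Icc]
      omega
    have b3 : ((U.filter fun n => n ∈ Finset.Icc (u - V) (u + V)).card : ℝ) ≤ 2 * V + 1 := by
      exact_mod_cast b2
    linarith
  have hup := duality μ hM0 (Real.sqrt_pos.2 (by positivity))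
    (hsupp.mono fun t ht => hM t ht) hGi hGu
  rw [hG, integral_ES_mul] at hup
  -- splitting into near and far terms
  set W : ℕ → ℕ → ℂ := fun u n =>
    (a n : ℂ) * sf n * eq6 q u * charFun μ (-Real.log n + Real.log u) with hW
  have hsplit : ‖∑ u ∈ U, ∑ n ∈ Finset.Ioc 0 m, W u n -
      ∑ u ∈ U, ∑ i ∈ Finset.range (2 * V + 1), W u (u - V + i)‖ ≤ L * (m * (A * η)) := by
    rw [← Finset.sum_sub_distrib]
    refine (norm_sum_le _ _).trans ((Finset.sum_le_card_nsmul _ _ (m * (A * η))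
      fun u hu => ?_).trans (by rw [nsmul_eq_mul, hUc]))
    have c1 := hUm u hu
    have hsub : Finset.Ico (u - V) (u + V + 1) ⊆ Finset.Ioc 0 m := by
      intro n hn
      rw [Finset.mem_Ico] at hn
      rw [Finset.mem_Ioc]
      omega
    have e1 : ∑ i ∈ Finset.range (2 * V + 1), W u (u - V + i) =
        ∑ n ∈ Finset.Ico (u - V) (u + V + 1), W u n := by
      rw [Finset.sum_Ico_eq_sum_range]
      congr 2
      omega
    rw [e1, ← Finset.sum_sdiff hsub, add_sub_cancel_right]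
    refine (norm_sum_le _ _).trans ((Finset.sum_le_card_nsmul _ _ (A * η) fun n hn => ?_).trans ?_)
    · rw [Finset.mem_sdiff, Finset.mem_Ioc, Finset.mem_Ico] at hn
      simp only [hW]
      rw [norm_mul, norm_mul, norm_mul, norm_eq6, mul_one, norm_real, Real.norm_eq_abs]
      have b1 := hfar u n (by omega) (by omega) (by omega) (by omega) (by omega)
      calc _ ≤ A * 1 * η := by gcongr; exacts [hA n, norm_sf n]
        _ = _ := by ring
    · rw [nsmul_eq_mul]
      gcongr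
      have := Finset.card_le_card (Finset.sdiff_subset (s := Finset.Ioc 0 m)
        (t := Finset.Ico (u - V) (u + V + 1)))
      simpa using this
  -- the near terms
  have hR : ∀ᵐ t ∂μ, |t| ≤ 2 * T₁ := by
    filter_upwards [hsupp] with t ht
    have : 0 ≤ k * T := by positivity
    rw [abs_le]
    constructor <;> linarith [ht.1, ht.2]
  set e₁ : ℝ := δ + a₀ * (2 * T₁ * (V * (4 * V + L) / y ^ 2)) with he₁
  have hT₁0 : 0 ≤ T₁ := by positivity
  have hnear : ∀ i ∈ Finset.range (2 * V + 1),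
      ‖∑ u ∈ U, W u (u - V + i) - a₀ * ψ (((V : ℝ) - i) / y) * (c * L)‖ ≤ L * e₁ + a₀ * err := by
    intro i hi
    rw [Finset.mem_range] at hi
    set v : ℝ := (V : ℝ) - i with hv
    have hi' : (i : ℝ) ≤ 2 * V := by exact_mod_cast (by omega : i ≤ 2 * V)
    have hv1 : |v| ≤ V := by
      rw [abs_le]
      have : (0 : ℝ) ≤ i := Nat.cast_nonneg i
      constructor <;> linarith
    have e1 : ∑ u ∈ U, W u (u - V + i) =
        ∑ n ∈ Finset.Ioc (y + i) (y + i + L), W (n + V - i) n := by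
      refine Finset.sum_bij' (fun u _ => u - V + i) (fun n _ => n + V - i) (fun u hu => ?_)
        (fun n hn => ?_) (fun u hu => ?_) (fun n hn => ?_) (fun u hu => ?_)
      · have := hUm u hu; rw [Finset.mem_Ioc]; omega
      · rw [Finset.mem_Ioc] at hn; rw [hU, Finset.mem_Ioc]; omega
      · have := hUm u hu; omega
      · rw [Finset.mem_Ioc] at hn; omega
      · have := hUm u hu
        rw [show u - V + i + V - i = u by omega]
    have hΨ : eq6 q v * charFun μ (v / y) = ψ (v / y) := by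
      rw [hψ, ← mul_assoc, eq6, ← exp_add]
      have : ((-(2 * Real.pi * v / (6 * q ^ 2)) : ℝ) : ℂ) * I + ((T₁ * (v / y) : ℝ) : ℂ) * I = 0 := by
        rw [← add_mul, ← ofReal_add]
        have : -(2 * Real.pi * v / (6 * q ^ 2)) + T₁ * (v / y) = 0 := by
          rw [hT₁]; field_simp; ring
        rw [this]; simp
      rw [this, exp_zero, one_mul]
    have e2 : ∀ n ∈ Finset.Ioc (y + i) (y + i + L),
        ‖W (n + V - i) n - a₀ * ψ (v / y) * (if Squarefree n then Fq q n else 0)‖ ≤ e₁ := by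
      intro n hn
      rw [Finset.mem_Ioc] at hn
      have hc : ((n + V - i : ℕ) : ℝ) = n + v := by
        rw [Nat.cast_sub (by omega)]; push_cast; rw [hv]; ring
      have hs : (if Squarefree n then Fq q n else 0) = sf n * eq6 q n := by
        unfold sf Fq; split_ifs <;> simp
      simp only [hW]
      rw [hc, hs, eq6_add, ← hΨ]
      have e3 : (a n : ℂ) * sf n * (eq6 q n * eq6 q v) * charFun μ (-Real.log n + Real.log (n + v)) -
          a₀ * (eq6 q v * charFun μ (v / y)) * (sf n * eq6 q n) =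
          sf n * eq6 q n * eq6 q v *
            (((a n - a₀ : ℝ) : ℂ) * charFun μ (-Real.log n + Real.log (n + v)) +
              a₀ * (charFun μ (-Real.log n + Real.log (n + v)) - charFun μ (v / y))) := by
        push_cast; ring
      rw [e3, norm_mul, norm_mul, norm_mul, norm_eq6, norm_eq6, mul_one, mul_one]
      have b1 := ha n (by omega) (by omega)
      have b2 := charFun_lip μ hR (-Real.log n + Real.log (n + v)) (v / y)
      have b3 := log_near (n := n) hy' hv1 hVy' hL'.le (by exact_mod_cast (by omega : y ≤ n))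
        (by exact_mod_cast (by omega : n ≤ y + 2 * V + L))
      rw [neg_add_eq_sub] at b2 ⊢
      have b4 : ‖((a n - a₀ : ℝ) : ℂ) * charFun μ (Real.log (n + v) - Real.log n)‖ ≤ δ := by
        rw [norm_mul, norm_real, Real.norm_eq_abs]
        calc _ ≤ δ * 1 := by gcongr; exact norm_charFun_le_one _
          _ = δ := mul_one _
      have b5 : ‖(a₀ : ℂ) * (charFun μ (Real.log (n + v) - Real.log n) - charFun μ (v / y))‖ ≤
          a₀ * (2 * T₁ * (V * (4 * V + L) / y ^ 2)) := by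
        rw [norm_mul, norm_real, Real.norm_of_nonneg ha₀]
        gcongr
        exact b2.trans (by gcongr)
      calc _ ≤ 1 * e₁ := by
            gcongr
            · exact norm_sf n
            · exact (norm_add_le _ _).trans (add_le_add b4 b5)
        _ = e₁ := one_mul _
    have e4 := herr (y + i) (by omega) (by omega)
    set E := ∑ n ∈ Finset.Ioc (y + i) (y + i + L), if Squarefree n then Fq q n else 0 with hE
    have e5 : ‖∑ n ∈ Finset.Ioc (y + i) (y + i + L), W (n + V - i) n - a₀ * ψ (v / y) * E‖ ≤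
        L * e₁ := by
      rw [hE, Finset.mul_sum, ← Finset.sum_sub_distrib]
      refine (norm_sum_le _ _).trans ((Finset.sum_le_card_nsmul _ _ e₁ e2).trans ?_)
      simp
    have e6 : ‖(a₀ : ℂ) * ψ (v / y) * (E - c * L)‖ ≤ a₀ * err := by
      rw [norm_mul, norm_mul, norm_real, norm_real, Real.norm_of_nonneg ha₀,
        Real.norm_of_nonneg (ψ0 _)]
      calc _ ≤ a₀ * 1 * err := by gcongr; exact ψ1 _
        _ = _ := by ring
    rw [e1, show ∑ n ∈ Finset.Ioc (y + i) (y + i + L), W (n + V - i) n - a₀ * ψ (v / y) * (c * L) =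
      (∑ n ∈ Finset.Ioc (y + i) (y + i + L), W (n + V - i) n - a₀ * ψ (v / y) * E) +
        a₀ * ψ (v / y) * (E - c * L) by ring]
    exact (norm_add_le _ _).trans (add_le_add e5 e6)
  have hn2 : ‖∑ u ∈ U, ∑ i ∈ Finset.range (2 * V + 1), W u (u - V + i) -
      ∑ i ∈ Finset.range (2 * V + 1), a₀ * ψ (((V : ℝ) - i) / y) * (c * L)‖ ≤
      (2 * V + 1) * (L * e₁ + a₀ * err) := by
    rw [Finset.sum_comm, ← Finset.sum_sub_distrib]
    refine (norm_sum_le _ _).trans ((Finset.sum_le_card_nsmul _ _ _ hnear).trans ?_)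
    rw [Finset.card_range, nsmul_eq_mul]
    push_cast
    exact le_rfl
  have hmain : a₀ * (‖c‖ * L) ≤
      ‖∑ i ∈ Finset.range (2 * V + 1), (a₀ : ℂ) * ψ (((V : ℝ) - i) / y) * (c * L)‖ := by
    rw [← Finset.sum_mul, ← Finset.mul_sum, ← ofReal_sum, norm_mul, norm_mul, norm_mul, norm_real,
      norm_real, Real.norm_of_nonneg ha₀, Complex.norm_natCast,
      Real.norm_of_nonneg (Finset.sum_nonneg fun i _ => ψ0 _)]
    have b1 : ψ (((V : ℝ) - (V : ℕ)) / y) ≤ ∑ i ∈ Finset.range (2 * V + 1), ψ (((V : ℝ) - i) / y) :=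
      Finset.single_le_sum (f := fun i : ℕ => ψ (((V : ℝ) - i) / y)) (fun i _ => ψ0 _)
        (Finset.mem_range.2 (by omega))
    rw [sub_self, zero_div, ψz] at b1
    calc a₀ * (‖c‖ * L) = a₀ * 1 * (‖c‖ * L) := by ring
      _ ≤ _ := by gcongr
  have t1 := norm_sub_norm_le
    (∑ i ∈ Finset.range (2 * V + 1), (a₀ : ℂ) * ψ (((V : ℝ) - i) / y) * (c * L))
    (∑ u ∈ U, ∑ i ∈ Finset.range (2 * V + 1), W u (u - V + i))
  have t2 := norm_sub_norm_le (∑ u ∈ U, ∑ i ∈ Finset.range (2 * V + 1), W u (u - V + i))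
    (∑ u ∈ U, ∑ n ∈ Finset.Ioc 0 m, W u n)
  rw [norm_sub_rev] at t1 t2
  linarith

end Pool.Agent.H464Z.R8
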