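import Pool.Agent.H464Z.RatDefs

/-!
Bounds for the gamma factors and for the Euler product.
-/

namespace Pool.Agent.H464Z.Rat

open Complex Filter Topology

lemma norm_shift_le {z w : ℂ} (hw : 0 < w.re) (hzw : w.re ≤ z.re) (him : z.im ^ 2 = w.im ^ 2)
    (j : ℕ) : ‖z + j‖ * ‖(w.re : ℂ) + j‖ ≤ ‖w + j‖ * ‖(z.re : ℂ) + j‖ := by
  have hj : (0 : ℝ) ≤ j := Nat.cast_nonneg j
  apply le_of_sq_le_sq _ (by positivity) |> fun h => h
  rw [mul_pow, mul_pow, Complex.sq_norm, Complex.sq_norm, Complex.sq_norm, Complex.sq_norm]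
  simp only [normSq_apply, add_re, add_im, natCast_re, natCast_im, ofReal_re, ofReal_im, add_zero,
    mul_zero]
  have h1 : (w.re + j) * (w.re + j) ≤ (z.re + j) * (z.re + j) := by nlinarith
  have h2 : z.im * z.im = w.im * w.im := by nlinarith
  rw [h2]
  nlinarith [mul_self_nonneg w.im]

lemma norm_Gamma_ratio {z w : ℂ} (hw : 0 < w.re) (hzw : w.re ≤ z.re) (him : z.im ^ 2 = w.im ^ 2) :
    ‖Gamma w‖ * ‖Gamma (z.re : ℂ)‖ ≤ ‖Gamma z‖ * ‖Gamma (w.re : ℂ)‖ := by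
  refine le_of_tendsto_of_tendsto
    ((GammaSeq_tendsto_Gamma w).norm.mul (GammaSeq_tendsto_Gamma (z.re : ℂ)).norm)
    ((GammaSeq_tendsto_Gamma z).norm.mul (GammaSeq_tendsto_Gamma (w.re : ℂ)).norm) ?_
  filter_upwards [eventually_gt_atTop 0] with n hn
  have hpos : ∀ u : ℂ, 0 < u.re → 0 < ∏ j ∈ Finset.range (n + 1), ‖u + j‖ := by
    intro u hu
    refine Finset.prod_pos fun j _ => norm_pos_iff.2 fun h => ?_
    have := congrArg re h
    simp at this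
    have hj : (0 : ℝ) ≤ j := Nat.cast_nonneg j
    linarith
  have hz : 0 < z.re := hw.trans_le hzw
  simp only [GammaSeq, norm_div, norm_mul, norm_prod, norm_natCast_cpow_of_pos hn, ofReal_re]
  have p1 := hpos w hw
  have p2 := hpos z hz
  have p3 := hpos (w.re : ℂ) (by simpa using hw)
  have p4 := hpos (z.re : ℂ) (by simpa using hz)
  have key : (∏ j ∈ Finset.range (n + 1), ‖z + j‖) * ∏ j ∈ Finset.range (n + 1), ‖(w.re : ℂ) + j‖ ≤
      (∏ j ∈ Finset.range (n + 1), ‖w + j‖) * ∏ j ∈ Finset.range (n + 1), ‖(z.re : ℂ) + j‖ := by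
    rw [← Finset.prod_mul_distrib, ← Finset.prod_mul_distrib]
    exact Finset.prod_le_prod (fun j _ => by positivity) fun j _ => norm_shift_le hw hzw him j
  rw [div_mul_div_comm, div_mul_div_comm]
  refine div_le_div₀ (by positivity) (le_of_eq (by ring)) (by positivity) key

lemma Ge_lower {σ : ℝ} (h0 : 0 < σ) (h1 : σ < 1 / 4) :
    ∃ c : ℝ, 0 < c ∧ ∀ α : ℂ, α.re = -σ → c ≤ ‖Ge α‖ := by
  have g1 : 0 < ‖Gamma ((1 / 4 + σ / 2 : ℝ) : ℂ)‖ :=
    norm_pos_iff.2 (Gamma_ne_zero_of_re_pos (by rw [ofReal_re]; linarith))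
  have g2 : 0 < ‖Gamma ((1 / 4 - σ / 2 : ℝ) : ℂ)‖ :=
    norm_pos_iff.2 (Gamma_ne_zero_of_re_pos (by rw [ofReal_re]; linarith))
  refine ⟨‖Gamma ((1 / 4 + σ / 2 : ℝ) : ℂ)‖ / ‖Gamma ((1 / 4 - σ / 2 : ℝ) : ℂ)‖, by positivity,
    fun α hα => ?_⟩
  have e1 : (1 / 4 + α / 2 : ℂ).re = 1 / 4 - σ / 2 := by simp [hα]; ring
  have e2 : (1 / 4 - α / 2 : ℂ).re = 1 / 4 + σ / 2 := by simp [hα]; ring
  have h := norm_Gamma_ratio (z := 1 / 4 - α / 2) (w := 1 / 4 + α / 2) (by rw [e1]; linarith)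
    (by rw [e1, e2]; linarith) (by simp)
  rw [e1, e2] at h
  have g3 : 0 < ‖Gamma (1 / 4 + α / 2)‖ :=
    norm_pos_iff.2 (Gamma_ne_zero_of_re_pos (by rw [e1]; linarith))
  rw [Ge, norm_div, div_le_div_iff₀ g2 g3]
  linarith

lemma Go_eq {α : ℂ} (h1 : -1 / 2 < α.re) (h2 : α.re < 1 / 2) :
    Go α = Ge α * cot (Real.pi * (1 / 4 + α / 2)) := by
  have g1 : Gamma (1 / 4 + α / 2) ≠ 0 := Gamma_ne_zero_of_re_pos (by simp; linarith)
  have g2 : Gamma (1 / 4 - α / 2) ≠ 0 := Gamma_ne_zero_of_re_pos (by simp; linarith)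
  have g3 : Gamma (3 / 4 + α / 2) ≠ 0 := Gamma_ne_zero_of_re_pos (by simp; linarith)
  have g4 : Gamma (3 / 4 - α / 2) ≠ 0 := Gamma_ne_zero_of_re_pos (by simp; linarith)
  have r1 := Gamma_mul_Gamma_one_sub (1 / 4 + α / 2)
  have r2 := Gamma_mul_Gamma_one_sub (1 / 4 - α / 2)
  rw [show 1 - (1 / 4 + α / 2) = 3 / 4 - α / 2 by ring] at r1
  rw [show 1 - (1 / 4 - α / 2) = 3 / 4 + α / 2 by ring] at r2
  have e : sin (Real.pi * (1 / 4 - α / 2)) = cos (Real.pi * (1 / 4 + α / 2)) := by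
    rw [← Complex.sin_pi_div_two_sub]; congr 1; ring
  rw [e] at r2
  have s1 : sin (Real.pi * (1 / 4 + α / 2)) ≠ 0 := by
    intro h; rw [h, div_zero] at r1; exact mul_ne_zero g1 g4 r1
  have s2 : cos (Real.pi * (1 / 4 + α / 2)) ≠ 0 := by
    intro h; rw [h, div_zero] at r2; exact mul_ne_zero g2 g3 r2
  rw [eq_div_iff s1] at r1
  rw [eq_div_iff s2] at r2
  rw [Go, Ge, Complex.cot]
  generalize Gamma (1 / 4 + α / 2) = A at *
  generalize Gamma (1 / 4 - α / 2) = B at *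
  generalize Gamma (3 / 4 + α / 2) = C at *
  generalize Gamma (3 / 4 - α / 2) = D at *
  generalize sin (Real.pi * (1 / 4 + α / 2)) = s at *
  generalize cos (Real.pi * (1 / 4 + α / 2)) = c at *
  field_simp
  linear_combination r1 - r2

lemma cot_near {α : ℂ} (ht : 1 ≤ α.im) :
    ‖cot (Real.pi * (1 / 4 + α / 2)) + I‖ ≤ 4 * Real.exp (-(Real.pi * α.im)) := by
  rw [cot_pi_eq_exp_ratio]
  set q := cexp (2 * Real.pi * I * (1 / 4 + α / 2)) with hq
  have hn : ‖q‖ = Real.exp (-(Real.pi * α.im)) := by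
    rw [hq, norm_exp]; congr 1; simp; ring
  have hsmall : ‖q‖ ≤ 1 / 2 := by
    rw [hn, Real.exp_neg, one_div]
    apply inv_anti₀ (by norm_num)
    have := Real.add_one_le_exp (Real.pi * α.im)
    nlinarith [Real.pi_gt_three]
  have h1 : 1 / 2 ≤ ‖1 - q‖ := by
    have := norm_sub_norm_le (1 : ℂ) q
    rw [norm_one] at this
    linarith
  have h2 : (1 : ℂ) - q ≠ 0 := norm_pos_iff.1 (by linarith)
  have h3 : (q + 1) / (I * (1 - q)) + I = 2 * q / (I * (1 - q)) := by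
    have : I ≠ 0 := I_ne_zero
    field_simp
    linear_combination (1 - q) * I_mul_I
  rw [h3, norm_div, norm_mul, norm_mul, norm_I, one_mul, ← hn, div_le_iff₀ (by linarith)]
  have : ‖(2 : ℂ)‖ = 2 := by simp
  rw [this]
  nlinarith [norm_nonneg q]

lemma summable_bound : Summable fun p : {p : ℕ // p.Prime ∧ 3 ≤ p} => 4 * (p.1 : ℝ) ^ (-3 / 2 : ℝ) := by
  have h : Summable fun n : ℕ => 4 * (n : ℝ) ^ (-3 / 2 : ℝ) :=
    (Real.summable_nat_rpow.2 (by norm_num)).mul_left 4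
  exact h.comp_injective Subtype.val_injective

/-- A uniform bound for the Euler products that occur. -/
noncomputable def PB : ℝ := Real.exp (∑' p : {p : ℕ // p.Prime ∧ 3 ≤ p}, 4 * (p.1 : ℝ) ^ (-3 / 2 : ℝ))

lemma PB_pos : 0 < PB := Real.exp_pos _

lemma P_bound {α β : ℂ} (h1 : 0 ≤ (α + β).re) (h2 : (β - α).re ≤ 1 / 2) :
    Multipliable (Pfac α β) ∧ ‖P α β‖ ≤ PB := by
  set f : {p : ℕ // p.Prime ∧ 3 ≤ p} → ℂ := fun p =>
    (1 - (p.1 : ℂ) ^ (β - α)) / (((p.1 : ℂ) + 1) * ((p.1 : ℂ) ^ (1 + α + β) - 1)) with hf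
  have hb : ∀ p, ‖f p‖ ≤ 4 * (p.1 : ℝ) ^ (-3 / 2 : ℝ) := by
    rintro ⟨p, hp, hp3⟩
    have hp0 : 0 < p := hp.pos
    have hp3' : (3 : ℝ) ≤ p := by exact_mod_cast hp3
    have hp1 : (1 : ℝ) ≤ p := by linarith
    simp only [hf, norm_div, norm_mul]
    have a1 : ‖1 - (p : ℂ) ^ (β - α)‖ ≤ 2 * (p : ℝ) ^ (1 / 2 : ℝ) := by
      refine (norm_sub_le _ _).trans ?_
      rw [norm_one, norm_natCast_cpow_of_pos hp0]
      have b1 : (1 : ℝ) ≤ (p : ℝ) ^ (1 / 2 : ℝ) := Real.one_le_rpow hp1 (by norm_num)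
      have b2 : (p : ℝ) ^ (β - α).re ≤ (p : ℝ) ^ (1 / 2 : ℝ) :=
        Real.rpow_le_rpow_of_exponent_le hp1 h2
      linarith
    have a2 : (p : ℝ) ≤ ‖(p : ℂ) + 1‖ := by
      have : (p : ℂ) + 1 = ((p + 1 : ℕ) : ℂ) := by push_cast; ring
      rw [this, norm_natCast]; push_cast; linarith
    have a3 : (p : ℝ) / 2 ≤ ‖(p : ℂ) ^ (1 + α + β) - 1‖ := by
      have b1 := norm_sub_norm_le ((p : ℂ) ^ (1 + α + β)) 1
      rw [norm_one, norm_natCast_cpow_of_pos hp0] at b1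
      have b2 : (p : ℝ) ^ (1 : ℝ) ≤ (p : ℝ) ^ (1 + α + β).re := by
        apply Real.rpow_le_rpow_of_exponent_le hp1
        simp only [add_re, one_re] at h1 ⊢
        linarith
      rw [Real.rpow_one] at b2
      linarith
    have a4 : (p : ℝ) ^ (-3 / 2 : ℝ) * ((p : ℝ) * p) = (p : ℝ) ^ (1 / 2 : ℝ) := by
      rw [← pow_two, ← Real.rpow_natCast, ← Real.rpow_add (by linarith)]; norm_num
    rw [div_le_iff₀ (by nlinarith)]
    have a5 : 0 ≤ (p : ℝ) ^ (-3 / 2 : ℝ) := by positivity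
    calc ‖1 - (p : ℂ) ^ (β - α)‖ ≤ 2 * (p : ℝ) ^ (1 / 2 : ℝ) := a1
      _ = 4 * (p : ℝ) ^ (-3 / 2 : ℝ) * ((p : ℝ) * (p / 2)) := by rw [← a4]; ring
      _ ≤ _ := by gcongr
  have hs : Summable fun p => ‖f p‖ :=
    Summable.of_nonneg_of_le (fun _ => norm_nonneg _) hb summable_bound
  have hm : Multipliable (Pfac α β) := multipliable_one_add_of_summable hs
  refine ⟨hm, ?_⟩
  refine le_of_tendsto' ((continuous_norm.tendsto _).comp hm.hasProd) fun t => ?_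
  have a1 := t.norm_prod_one_add_sub_one_le f
  have a2 := norm_sub_norm_le (∏ i ∈ t, (1 + f i)) 1
  rw [norm_one] at a2
  have a3 : ∑ i ∈ t, ‖f i‖ ≤ ∑' p : {p : ℕ // p.Prime ∧ 3 ≤ p}, 4 * (p.1 : ℝ) ^ (-3 / 2 : ℝ) :=
    (Finset.sum_le_sum fun i _ => hb i).trans
      (summable_bound.sum_le_tsum t fun i _ => by positivity)
  have a4 := Real.exp_le_exp.2 a3
  show ‖∏ i ∈ t, (1 + f i)‖ ≤ Real.exp _
  linarith

/-- At least an eighth of `N` odd squarefree numbers lie between `N / 8` and `N`. -/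
lemma count_sqfree (N : ℕ) :
    (N : ℝ) / 8 ≤ (((Finset.Icc 1 N).filter fun n => Odd n ∧ Squarefree n ∧ N < 8 * n).card : ℝ) := by
  classical
  set G := (Finset.Icc 1 N).filter fun n => Odd n ∧ Squarefree n ∧ N < 8 * n with hG
  set D : ℕ → Finset ℕ := fun d => (Finset.Ioc 0 N).filter fun n => d ∣ n with hD
  have hDc : ∀ d : ℕ, ((D d).card : ℝ) ≤ N / d := by
    intro d
    simp only [hD]
    rw [Nat.Ioc_filter_dvd_card_eq_div]
    exact Nat.cast_div_le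
  have hsub : Finset.Icc 1 N ⊆ G ∪ D 2 ∪ Finset.Icc 1 (N / 8) ∪
      (Finset.Icc 1 N).biUnion fun j => D ((2 * j + 1) * (2 * j + 1)) := by
    intro n hn
    have hn' := Finset.mem_Icc.1 hn
    simp only [Finset.mem_union, Finset.mem_biUnion, hG, hD, Finset.mem_filter, Finset.mem_Icc,
      Finset.mem_Ioc]
    by_cases h1 : Odd n
    · by_cases h2 : Squarefree n
      · by_cases h3 : N < 8 * n
        · exact Or.inl (Or.inl (Or.inl ⟨hn', h1, h2, h3⟩))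
        · exact Or.inl (Or.inr ⟨hn'.1, by omega⟩)
      · rw [Nat.squarefree_iff_prime_squarefree] at h2
        push Not at h2
        obtain ⟨p, hp, hpn⟩ := h2
        have hpo : Odd p := Odd.of_dvd_nat h1 (Dvd.dvd.trans (Dvd.intro _ rfl) hpn)
        obtain ⟨j, hj⟩ := hpo
        have h2le := hp.two_le
        have hple : p ≤ n := Nat.le_of_dvd hn'.1 (Dvd.dvd.trans (Dvd.intro _ rfl) hpn)
        exact Or.inr ⟨j, ⟨by omega, by omega⟩, ⟨hn'.1, hn'.2⟩, hj ▸ hpn⟩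
    · exact Or.inl (Or.inl (Or.inr ⟨⟨hn'.1, hn'.2⟩, even_iff_two_dvd.1 (Nat.not_odd_iff_even.1 h1)⟩))
  have h1 := Finset.card_le_card hsub
  have h2 : (G ∪ D 2 ∪ Finset.Icc 1 (N / 8) ∪
      (Finset.Icc 1 N).biUnion fun j => D ((2 * j + 1) * (2 * j + 1))).card ≤
      G.card + (D 2).card + (Finset.Icc 1 (N / 8)).card +
        ∑ j ∈ Finset.Icc 1 N, (D ((2 * j + 1) * (2 * j + 1))).card := by
    refine (Finset.card_union_le _ _).trans (add_le_add ?_ Finset.card_biUnion_le)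
    refine (Finset.card_union_le _ _).trans (add_le_add ?_ le_rfl)
    exact Finset.card_union_le _ _
  have h3 : (N : ℝ) ≤ G.card + (D 2).card + ((N / 8 : ℕ) : ℝ) +
      ∑ j ∈ Finset.Icc 1 N, ((D ((2 * j + 1) * (2 * j + 1))).card : ℝ) := by
    have := h1.trans h2
    simp only [Nat.card_Icc, add_tsub_cancel_right] at this
    exact_mod_cast this
  have h4 : ((N / 8 : ℕ) : ℝ) ≤ N / 8 := by exact_mod_cast (Nat.cast_div_le (α := ℝ))
  have h5 := hDc 2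
  have h6 : ∀ M : ℕ, ∑ j ∈ Finset.Icc 1 M, ((D ((2 * j + 1) * (2 * j + 1))).card : ℝ) ≤
      N / 4 * (1 - 1 / (M + 1)) := by
    intro M
    induction M with
    | zero => simp
    | succ M ih =>
      rw [Finset.sum_Icc_succ_top (by omega)]
      have a1 := hDc ((2 * (M + 1) + 1) * (2 * (M + 1) + 1))
      have hM : (0 : ℝ) ≤ M := Nat.cast_nonneg M
      have hN : (0 : ℝ) ≤ N := Nat.cast_nonneg N
      have a2 : (N : ℝ) / (((2 * (M + 1) + 1) * (2 * (M + 1) + 1) : ℕ) : ℝ) ≤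
          N / (4 * ((M + 1) * (M + 2))) := by
        push_cast
        apply div_le_div_of_nonneg_left hN (by positivity)
        nlinarith
      have a3 : (N : ℝ) / 4 * (1 - 1 / (M + 1)) + N / (4 * ((M + 1) * (M + 2))) =
          N / 4 * (1 - 1 / (((M + 1 : ℕ) : ℝ) + 1)) := by
        push_cast
        field_simp
        ring
      linarith
  have h7 := h6 N
  have hN : (0 : ℝ) ≤ N := Nat.cast_nonneg N
  have h8 : (N : ℝ) / 4 * (1 - 1 / (N + 1)) ≤ N / 4 := by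
    have : 0 ≤ 1 / ((N : ℝ) + 1) := by positivity
    nlinarith
  push_cast at h5
  linarith

end Pool.Agent.H464Z.Rat
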