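import Pool.Agent.H464Z.R8Ana
import Pool.Agent.H464Z.R8Low
import Pool.Agent.H464Z.RatGamma

/-!
The auxiliary holomorphic function built from two averages.
-/

namespace Pool.Agent.H464Z.R8

open Complex Pool.Agent.H464Z.Rat

/-- the properties of the weight that are used -/
def Wt (w : ℝ → ℝ) : Prop :=
  (∀ x, 0 ≤ w x) ∧ (∀ x, w x ≤ 1) ∧ (∀ x, w (-x) = w x) ∧ (∀ x, |x| ≤ 99 / 100 → w x = 1) ∧
    ∀ x, 1 ≤ |x| → w x = 0

open Classical in
/-- the members of the family of size at most `m` -/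
noncomputable def SS (m : ℕ) : Finset Dset :=
  (Finset.Icc (-(m : ℤ)) m).subtype fun d : ℤ => Odd d ∧ Squarefree d

lemma mem_SS {m : ℕ} {d : Dset} : d ∈ SS m ↔ d.1.natAbs ≤ m := by
  classical
  rw [SS, Finset.mem_subtype, Finset.mem_Icc]
  omega

lemma card_SS {m : ℕ} (hm : 1 ≤ m) : ((SS m).card : ℝ) ≤ 3 * m := by
  classical
  have h : (SS m).card ≤ 3 * m := by
    rw [SS, Finset.card_subtype]
    refine (Finset.card_filter_le _ _).trans ?_
    rw [Int.card_Icc]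
    omega
  exact_mod_cast h

lemma sum_SS {M : Type} [AddCommGroup M] (h : ℤ → M) (m : ℕ) : ∑ d ∈ SS m, h d.1 =
    ∑ n ∈ Finset.Ioc 0 m, if Odd n ∧ Squarefree n then h n + h (-n) else 0 := by
  classical
  rw [SS, Finset.sum_subtype_eq_sum_filter, Finset.sum_filter]
  induction m with
  | zero => simp
  | succ m ih =>
    rw [Finset.sum_Ioc_succ_top (Nat.zero_le m), ← ih, Nat.cast_succ,
      Finset.sum_Icc_succ_eq_add_endpoints, add_comm, ← Nat.cast_succ]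
    congr 1
    have e1 : (Odd ((m + 1 : ℕ) : ℤ) ∧ Squarefree ((m + 1 : ℕ) : ℤ)) ↔
        (Odd (m + 1) ∧ Squarefree (m + 1)) := by
      rw [Int.odd_coe_nat, Int.squarefree_natCast]
    have e2 : (Odd (-((m + 1 : ℕ) : ℤ)) ∧ Squarefree (-((m + 1 : ℕ) : ℤ))) ↔
        (Odd (m + 1) ∧ Squarefree (m + 1)) := by
      rw [odd_neg, ← Int.squarefree_natAbs, Int.natAbs_neg, Int.natAbs_natCast, Int.odd_coe_nat]
    simp only [Nat.succ_eq_add_one, e1, e2]
    split_ifs <;> simp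

lemma w_out {w : ℝ → ℝ} (hw : Wt w) {X : ℝ} {m : ℕ} (hX : 0 < X) (hm : X ≤ m) {d : Dset}
    (hd : d ∉ SS m) : w ((d.1 : ℝ) / X) = 0 := by
  apply hw.2.2.2.2
  rw [mem_SS, not_le] at hd
  have : (m : ℝ) < (d.1.natAbs : ℝ) := by exact_mod_cast hd
  rw [Nat.cast_natAbs, Int.cast_abs] at this
  rw [abs_div, abs_of_pos hX, le_div_iff₀ hX]
  linarith

lemma Wst_eq {w : ℝ → ℝ} (hw : Wt w) {X : ℝ} {m : ℕ} (hX : 0 < X) (hm : X ≤ m) :
    Wst w X = ∑ d ∈ SS m, w ((d.1 : ℝ) / X) :=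
  tsum_eq_sum fun _ hd => w_out hw hX hm hd

lemma avg_eq {w : ℝ → ℝ} (hw : Wt w) {X : ℝ} {m : ℕ} (hX : 0 < X) (hm : X ≤ m) (f : Dset → ℂ) :
    avg w X f = 1 / (Wst w X : ℂ) * ∑ d ∈ SS m, (w ((d.1 : ℝ) / X) : ℂ) * f d := by
  rw [avg, tsum_eq_sum fun d hd => by rw [w_out hw hX hm hd]; simp]

lemma Wst_le {w : ℝ → ℝ} (hw : Wt w) {X : ℝ} {m : ℕ} (hX : 0 < X) (hm : X ≤ m) :
    Wst w X ≤ 3 * m := by
  have h1 : 1 ≤ m := by
    have : (0 : ℝ) < m := by linarith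
    exact_mod_cast this
  rw [Wst_eq hw hX hm]
  refine (Finset.sum_le_card_nsmul _ _ 1 fun d _ => hw.2.1 _).trans ?_
  rw [nsmul_eq_mul, mul_one]
  exact card_SS h1

lemma le_Wst {w : ℝ → ℝ} (hw : Wt w) {X : ℝ} (hX : 4 ≤ X) : X / 32 ≤ Wst w X := by
  classical
  have hX0 : 0 < X := by linarith
  rw [Wst_eq hw hX0 (Nat.le_ceil X), sum_SS (fun d : ℤ => w ((d : ℝ) / X))]
  set N := ⌊X / 2⌋₊ with hN
  have h1 := count_sqfree N
  have h2 : X / 2 < N + 1 := Nat.lt_floor_add_one _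
  have h3 : (N : ℝ) ≤ X / 2 := Nat.floor_le (by positivity)
  have h4 : (N : ℝ) ≤ ⌈X⌉₊ := by linarith [Nat.le_ceil X]
  have h5 : N ≤ ⌈X⌉₊ := by exact_mod_cast h4
  refine le_trans (by linarith) (h1.trans ?_)
  rw [Finset.card_eq_sum_ones, Nat.cast_sum]
  refine (Finset.sum_le_sum (g := fun n : ℕ => if Odd n ∧ Squarefree n then
    w (((n : ℤ) : ℝ) / X) + w (((-n : ℤ) : ℝ) / X) else 0) fun n hn => ?_).trans
    (Finset.sum_le_sum_of_subset_of_nonneg (fun n hn => ?_) fun n _ _ => ?_)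
  · rw [Finset.mem_filter, Finset.mem_Icc] at hn
    have a1 : (n : ℝ) ≤ N := by exact_mod_cast hn.1.2
    rw [if_pos ⟨hn.2.1, hn.2.2.1⟩, hw.2.2.2.1]
    · have := hw.1 (((-n : ℤ) : ℝ) / X)
      push_cast at this ⊢
      linarith
    · rw [Int.cast_natCast, abs_of_nonneg (by positivity), div_le_iff₀ hX0]
      linarith
  · rw [Finset.mem_filter, Finset.mem_Icc] at hn
    rw [Finset.mem_Ioc]
    omega
  · split_ifs
    · exact add_nonneg (hw.1 _) (hw.1 _)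
    · exact le_rfl

/-- the difference of the two normalised weights -/
noncomputable def om (w : ℝ → ℝ) (m : ℕ) (x : ℝ) : ℝ :=
  m * (w (x / m) / Wst w m - w (x / (m / 2)) / Wst w (m / 2))

lemma om_neg {w : ℝ → ℝ} (hw : Wt w) (m : ℕ) (x : ℝ) : om w m (-x) = om w m x := by
  rw [om, om, neg_div, neg_div, hw.2.2.1, hw.2.2.1]

lemma om_le {w : ℝ → ℝ} (hw : Wt w) {m : ℕ} (hm : 8 ≤ m) (x : ℝ) : |om w m x| ≤ 96 := by
  have hm' : (8 : ℝ) ≤ m := by exact_mod_cast hm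
  have h1 := le_Wst hw (X := m) (by linarith)
  have h2 := le_Wst hw (X := m / 2) (by linarith)
  have a1 : m * (w (x / m) / Wst w m) ≤ 32 := by
    rw [← mul_div_assoc, div_le_iff₀ (by linarith)]
    nlinarith [hw.2.1 (x / m)]
  have a2 : m * (w (x / (m / 2)) / Wst w (m / 2)) ≤ 64 := by
    rw [← mul_div_assoc, div_le_iff₀ (by linarith)]
    nlinarith [hw.2.1 (x / (m / 2))]
  have a3 : 0 ≤ m * (w (x / m) / Wst w m) :=
    mul_nonneg (by linarith) (div_nonneg (hw.1 _) (by linarith))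
  have a4 : 0 ≤ m * (w (x / (m / 2)) / Wst w (m / 2)) :=
    mul_nonneg (by linarith) (div_nonneg (hw.1 _) (by linarith))
  rw [om, mul_sub, abs_le]
  constructor <;> linarith

/-- the ratio of the odd and the even gamma quotients -/
noncomputable def rho (a : ℂ) : ℂ := cot (Real.pi * (1 / 4 + -a / 2))

lemma rho_near {a : ℂ} (ha : a.im ≤ -3) : ‖rho a‖ ≤ 2 ∧ 1 / 2 ≤ ‖rho a - 1‖ := by
  have h := cot_near (α := -a) (by rw [neg_im]; linarith)
  have h2 : Real.exp (-(Real.pi * (-a).im)) ≤ 1 / 8 := by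
    rw [Real.exp_neg, one_div]
    apply inv_anti₀ (by norm_num)
    have := Real.add_one_le_exp (Real.pi * (-a).im)
    rw [neg_im] at this ⊢
    nlinarith [Real.pi_gt_three]
  have h3 : ‖rho a + I‖ ≤ 1 / 2 := h.trans (by linarith)
  constructor
  · have := norm_sub_le (rho a + I) I
    rw [add_sub_cancel_right, norm_I] at this
    linarith
  · have a1 := abs_im_le_norm (rho a + I)
    have a2 := abs_im_le_norm (rho a - 1)
    simp only [add_im, I_im, sub_im, one_im, sub_zero] at a1 a2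
    linarith [neg_abs_le (rho a).im, le_abs_self ((rho a).im + 1), neg_le_abs (rho a).im]

lemma rho_diff {a : ℂ} (ha : a.im ≠ 0) : DifferentiableAt ℂ rho a := by
  unfold rho
  simp only [Complex.cot]
  refine DifferentiableAt.div (by fun_prop) (by fun_prop) fun h => ?_
  obtain ⟨k, hk⟩ := sin_eq_zero_iff.1 h
  have := congrArg im hk
  simp at this
  exact ha this

/-- the normalised factor of the functional equation -/
noncomputable def TT (m : ℕ) (d : ℤ) (a : ℂ) : ℂ :=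
  cexp (a * (Real.log ((d.natAbs : ℝ) / m) : ℂ)) * (if d < 0 then rho a else 1)

lemma TT_le {m : ℕ} {d : Dset} (hd : d ∈ SS m) {a : ℂ} (h0 : 0 ≤ a.re) (ha : a.im ≤ -3) :
    ‖TT m d.1 a‖ ≤ 2 := by
  rw [mem_SS] at hd
  have h1 : Real.log ((d.1.natAbs : ℝ) / m) ≤ 0 :=
    Real.log_nonpos (by positivity) (div_le_one_of_le₀ (by exact_mod_cast hd) (by positivity))
  have h2 : ‖cexp (a * (Real.log ((d.1.natAbs : ℝ) / m) : ℂ))‖ ≤ 1 := by
    rw [norm_exp, mul_re, ofReal_re, ofReal_im, mul_zero, sub_zero]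
    exact Real.exp_le_one_iff.2 (mul_nonpos_of_nonneg_of_nonpos h0 h1)
  have h3 : ‖(if d.1 < 0 then rho a else 1)‖ ≤ 2 := by
    split_ifs
    · exact (rho_near ha).1
    · simp
  rw [TT, norm_mul]
  exact (mul_le_mul h2 h3 (norm_nonneg _) zero_le_one).trans_eq (one_mul _)

lemma sum_le {w : ℝ → ℝ} (hw : Wt w) {m : ℕ} (hm : 8 ≤ m) {a : ℂ} (h0 : 0 ≤ a.re)
    (ha : a.im ≤ -3) {F : Dset → ℂ} {b : ℝ} (hb : 0 ≤ b) (hF : ∀ d ∈ SS m, ‖F d‖ ≤ b) :
    ‖∑ d ∈ SS m, (om w m d.1 : ℂ) * (TT m d.1 a * F d)‖ ≤ 576 * m * b := by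
  refine (norm_sum_le _ _).trans ((Finset.sum_le_card_nsmul _ _ (96 * (2 * b))
    fun d hd => ?_).trans ?_)
  · rw [norm_mul, norm_mul, norm_real, Real.norm_eq_abs]
    have := om_le hw hm d.1
    have := TT_le hd h0 ha
    have := hF d hd
    gcongr
  · rw [nsmul_eq_mul]
    have := card_SS (m := m) (by omega)
    nlinarith

/-- the auxiliary function -/
noncomputable def GG (w : ℝ → ℝ) (m : ℕ) (a : ℂ) : ℂ :=
  ∑ d ∈ SS m, (om w m d.1 : ℂ) * (TT m d.1 a * BB d a)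

lemma GG_diff (hG : GRH) (w : ℝ → ℝ) (m : ℕ) {a : ℂ} (h0 : 0 < a.re) (ha : a.im ≠ 0) :
    DifferentiableAt ℂ (GG w m) a := by
  unfold GG
  refine DifferentiableAt.fun_sum fun d _ => (DifferentiableAt.mul ?_ (BB_diff hG d h0)).const_mul _
  unfold TT
  refine DifferentiableAt.mul (by fun_prop) ?_
  split_ifs
  · exact rho_diff ha
  · fun_prop

lemma err_eq {w : ℝ → ℝ} (hw : Wt w) {X : ℝ} {m : ℕ} (hX : 0 < X) (hm : X ≤ m) {a : ℂ}
    (ha : a.re = 1 / 5) : (3 : ℂ) ^ a * (Err w X (-a) (a + zz) + Phi (-a) (a + zz)) =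
      ∑ d ∈ SS m, (w ((d.1 : ℝ) / X) / Wst w X : ℂ) * (Xd d (1 / 2 + -a) * BB d a) := by
  rw [Err, avg_eq hw hX hm, avg_eq hw hX hm, neg_neg]
  have e : ∀ d : Dset, L8 d (1 / 2 + -a) = Xd d (1 / 2 + -a) * L8 d (1 / 2 + a) := by
    intro d
    rw [fe8 d (by rw [neg_re, ha]; norm_num) (by rw [neg_re, ha]; norm_num), sub_neg_eq_add]
  simp only [e]
  rw [show ∀ A B C D : ℂ, A - (B + C * D) + B = A - C * D from fun A B C D => by ring, mul_assoc,
    ← mul_sub, Finset.sum_mul, ← Finset.sum_sub_distrib, Finset.mul_sum, Finset.mul_sum]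
  refine Finset.sum_congr rfl fun d _ => ?_
  rw [BB]
  ring

lemma Xd_TT {m : ℕ} (hm : 0 < m) (d : Dset) {a : ℂ} (ha : a.re = 1 / 5) : Xd d (1 / 2 + -a) =
    cexp (a * (Real.log (8 * m) : ℂ)) * (Real.pi : ℂ) ^ (-a) * Ge (-a) * TT m d.1 a := by
  have hd : (0 : ℝ) < d.1.natAbs := by
    exact_mod_cast Int.natAbs_pos.2 d.2.2.ne_zero
  have hm' : (0 : ℝ) < m := by exact_mod_cast hm
  have e : ((8 * d.1.natAbs : ℕ) : ℂ) ^ a =
      cexp (a * (Real.log (8 * m) : ℂ)) * cexp (a * (Real.log ((d.1.natAbs : ℝ) / m) : ℂ)) := by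
    rw [cpow_def_of_ne_zero (Nat.cast_ne_zero.2 (neZeroMod d).1), ← exp_add, ← mul_add,
      ← ofReal_add, ← Real.log_mul (by positivity) (by positivity), ← natCast_log, mul_comm]
    congr 4
    push_cast
    field_simp
  rw [Xd_eq, neg_neg, e, TT, Go_eq (by rw [neg_re, ha]; norm_num) (by rw [neg_re, ha]; norm_num),
    rho]
  split_ifs <;> ring

lemma GG_left {w : ℝ → ℝ} (hw : Wt w) {m : ℕ} (hm : 0 < m) {a : ℂ} (ha : a.re = 1 / 5) :
    cexp (a * (Real.log (8 * m) : ℂ)) * (Real.pi : ℂ) ^ (-a) * Ge (-a) * GG w m a =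
      m * ((3 : ℂ) ^ a * (Err w m (-a) (a + zz) - Err w (m / 2) (-a) (a + zz))) := by
  have hm' : (0 : ℝ) < m := by exact_mod_cast hm
  have h1 := err_eq hw hm' le_rfl ha
  have h2 := err_eq hw (X := m / 2) (m := m) (by positivity) (by linarith) ha
  rw [show (3 : ℂ) ^ a * (Err w m (-a) (a + zz) - Err w (m / 2) (-a) (a + zz)) =
    (3 : ℂ) ^ a * (Err w m (-a) (a + zz) + Phi (-a) (a + zz)) -
      (3 : ℂ) ^ a * (Err w (m / 2) (-a) (a + zz) + Phi (-a) (a + zz)) by ring, h1, h2,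
    ← Finset.sum_sub_distrib, GG, Finset.mul_sum, Finset.mul_sum]
  refine Finset.sum_congr rfl fun d _ => ?_
  rw [Xd_TT hm d ha, om]
  push_cast
  ring

lemma f6_jac {n : ℕ} (hn : Odd n) : f6 n = jacobiSym n 3 := by
  have h1 : n % 2 = 1 := Nat.odd_iff.1 hn
  rw [jacobiSym.mod_left, f6]
  have h2 : n % 6 = 1 ∨ n % 6 = 3 ∨ n % 6 = 5 := by omega
  rcases h2 with h | h | h
  · rw [show (n : ℤ) % (3 : ℕ) = 1 by omega, h]; norm_num
  · rw [show (n : ℤ) % (3 : ℕ) = 0 by omega, h]; norm_num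
  · rw [show (n : ℤ) % (3 : ℕ) = 2 by omega, h]; norm_num

lemma f6_even {n : ℕ} (hn : ¬ Odd n) : f6 n = 0 := by
  rw [Nat.odd_iff] at hn
  rw [f6, if_neg (by omega), if_neg (by omega)]

lemma jac_neg (n : ℤ) : jacobiSym (-n) 3 = -jacobiSym n 3 := by
  rw [neg_eq_neg_one_mul, jacobiSym.mul_left, show jacobiSym (-1) 3 = -1 by norm_num]
  ring

lemma main_eq {w : ℝ → ℝ} (hw : Wt w) {m : ℕ} (hm : 0 < m) (σ t : ℝ) (r : ℂ) :
    ∑ d ∈ SS m, (om w m d.1 : ℂ) * (TT m d.1 ⟨σ, -t⟩ * (r * -(jacobiSym d.1 3 : ℤ))) =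
      r * (rho ⟨σ, -t⟩ - 1) * cexp (((t * Real.log m : ℝ) : ℂ) * I) *
        ES (Finset.Ioc 0 m) (fun n => ((om w m n * Real.exp (σ * Real.log (n / m)) : ℝ) : ℂ) * sf n)
          (fun n => -Real.log n) t := by
  have hm' : (0 : ℝ) < m := by exact_mod_cast hm
  rw [sum_SS (fun d : ℤ => (om w m d : ℂ) * (TT m d ⟨σ, -t⟩ * (r * -(jacobiSym d 3 : ℤ)))), ES,
    Finset.mul_sum]
  refine Finset.sum_congr rfl fun n hn => ?_
  have hn0 : 0 < n := (Finset.mem_Ioc.1 hn).1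
  have hn' : (0 : ℝ) < n := by exact_mod_cast hn0
  split_ifs with h
  · have e : cexp ((⟨σ, -t⟩ : ℂ) * (Real.log ((n : ℝ) / m) : ℂ)) =
        cexp (((t * Real.log m : ℝ) : ℂ) * I) * (Real.exp (σ * Real.log (n / m)) : ℝ) *
          cexp (((-Real.log n : ℝ) : ℂ) * t * I) := by
      rw [ofReal_exp, ← exp_add, ← exp_add, Real.log_div hn'.ne' hm'.ne', mk_eq_add_mul_I]
      congr 1
      push_cast
      ring
    rw [TT, TT, Int.natAbs_neg, Int.natAbs_natCast, e, if_neg (by omega), if_pos (by omega),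
      Int.cast_neg, om_neg hw, jac_neg, sf, if_pos h.2, f6_jac h.1, Int.cast_natCast, ofReal_mul]
    push_cast
    ring
  · have : sf n = 0 := by
      rw [sf]
      split_ifs with h2
      · rw [f6_even fun h3 => h ⟨h3, h2⟩, Int.cast_zero]
      · rfl
    simp [this]

lemma ES_le {w : ℝ → ℝ} (hw : Wt w) {m : ℕ} (hm : 8 ≤ m) {σ t : ℝ} (hσ : 4 ≤ σ) (ht : 3 ≤ t) :
    ‖ES (Finset.Ioc 0 m) (fun n => ((om w m n * Real.exp (σ * Real.log (n / m)) : ℝ) : ℂ) * sf n)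
      (fun n => -Real.log n) t‖ ≤
      2 * (‖GG w m ⟨σ, -t⟩‖ + 576 * m * (1000 * Real.exp (-σ / 2))) := by
  have h1 := main_eq hw (m := m) (by omega) σ t (2 * (3 : ℂ) ^ (-(1 / 2 : ℂ)))
  have h2 := sum_le hw hm (a := ⟨σ, -t⟩) (by show 0 ≤ σ; linarith) (by show -t ≤ -3; linarith)
    (F := fun d => BB d ⟨σ, -t⟩ - 2 * (3 : ℂ) ^ (-(1 / 2 : ℂ)) * -(jacobiSym d.1 3 : ℤ))
    (b := 1000 * Real.exp (-σ / 2)) (by positivity) fun d _ => BB_far d (a := ⟨σ, -t⟩) hσ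
  simp only [mul_sub] at h2
  rw [Finset.sum_sub_distrib, h1, ← GG, norm_sub_rev] at h2
  have h3 := (norm_sub_norm_le _ _).trans h2
  rw [norm_mul, norm_mul, norm_mul, norm_mul, norm_exp_ofReal_mul_I, Complex.norm_two] at h3
  have h4 := (rho_near (a := ⟨σ, -t⟩) (by show -t ≤ -3; linarith)).2
  have h5 := norm_root.1
  generalize ‖ES (Finset.Ioc 0 m) (fun n => ((om w m n * Real.exp (σ * Real.log (n / m)) : ℝ) : ℂ) *
    sf n) (fun n => -Real.log n) t‖ = e at *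
  rcases le_total e 0 with h | h
  · exact h.trans (by positivity)
  · have h6 : 2 * (1 / 2) * (1 / 2) * 1 * e ≤
        2 * ‖(3 : ℂ) ^ (-(1 / 2 : ℂ))‖ * ‖rho ⟨σ, -t⟩ - 1‖ * 1 * e := by gcongr
    linarith

end Pool.Agent.H464Z.R8
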