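import Mathlib

/-!
The Kronecker symbol of `8 d` as a product of a character modulo eight and a Jacobi symbol.
-/

namespace Pool.Agent.H464Z.R8

/-- the component modulo eight -/
def psi (d n : ℤ) : ℤ := if d % 4 = 1 then ZMod.χ₈ (n : ZMod 8) else ZMod.χ₈' (n : ZMod 8)

/-- the product of the two components, a function on the integers of period `8 |d|` -/
def kz (d n : ℤ) : ℤ := psi d n * jacobiSym n d.natAbs

lemma psi_even (d : ℤ) {n : ℤ} (hn : n % 2 = 0) : psi d n = 0 := by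
  unfold psi
  rw [ZMod.χ₈_int_eq_if_mod_eight, ZMod.χ₈'_int_eq_if_mod_eight]
  simp [hn]

lemma psi_mul (d a b : ℤ) : psi d (a * b) = psi d a * psi d b := by
  unfold psi
  split_ifs <;> push_cast <;> rw [map_mul]

lemma psi_congr (d : ℤ) {a b : ℤ} (h : a ≡ b [ZMOD 8]) : psi d a = psi d b := by
  have : (a : ZMod 8) = (b : ZMod 8) := (ZMod.intCast_eq_intCast_iff a b 8).2 h
  unfold psi
  rw [this]

lemma psi_one (d : ℤ) : psi d 1 = 1 := by
  unfold psi
  split_ifs <;> simp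

lemma kz_mul (d a b : ℤ) : kz d (a * b) = kz d a * kz d b := by
  unfold kz
  rw [psi_mul, jacobiSym.mul_left]
  ring

lemma kz_congr (d : ℤ) {a b : ℤ} (h : a ≡ b [ZMOD ((8 * d.natAbs : ℕ) : ℤ)]) : kz d a = kz d b := by
  unfold kz
  rw [psi_congr d (h.of_dvd (by push_cast; exact Dvd.intro _ rfl)),
    jacobiSym.mod_left' (b := d.natAbs) (h.of_dvd (by push_cast; exact Dvd.intro_left _ rfl))]

lemma jac_recip {m n : ℕ} (hm : Odd m) (hn : Odd n) :
    jacobiSym m n = (if m % 4 = 1 then 1 else ZMod.χ₄ n) * jacobiSym n m := by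
  have hm2 : m % 2 = 1 := Nat.odd_iff.1 hm
  have hn2 : n % 2 = 1 := Nat.odd_iff.1 hn
  split_ifs with h
  · rw [one_mul]; exact jacobiSym.quadratic_reciprocity_one_mod_four h hn
  · have hm3 : m % 4 = 3 := by omega
    rcases (by omega : n % 4 = 1 ∨ n % 4 = 3) with h1 | h3
    · rw [ZMod.χ₄_nat_one_mod_four h1, one_mul]
      exact jacobiSym.quadratic_reciprocity_one_mod_four' hm h1
    · rw [ZMod.χ₄_nat_three_mod_four h3, jacobiSym.quadratic_reciprocity_three_mod_four hm3 h3]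
      ring

lemma jac_eight {n : ℕ} (hn : Odd n) : jacobiSym 8 n = ZMod.χ₈ n := by
  rw [show (8 : ℤ) = 2 * 4 by norm_num, jacobiSym.mul_left, jacobiSym.at_two hn,
    jacobiSym.at_four hn, mul_one]

lemma jac_eq_kz {d : ℤ} (hd : Odd d) {n : ℕ} (hn : Odd n) : jacobiSym (8 * d) n = kz d n := by
  have hm : Odd d.natAbs := Int.natAbs_odd.2 hd
  have hd2 : d % 2 = 1 := Int.odd_iff.1 hd
  have h4 : ZMod.χ₄ (n : ZMod 4) * ZMod.χ₄ (n : ZMod 4) = 1 := by
    have hn2 : n % 2 = 1 := Nat.odd_iff.1 hn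
    rcases (by omega : n % 4 = 1 ∨ n % 4 = 3) with h1 | h3
    · rw [ZMod.χ₄_nat_one_mod_four h1]; norm_num
    · rw [ZMod.χ₄_nat_three_mod_four h3]; norm_num
  have h8 := ZMod.χ₈'_int_eq_χ₄_mul_χ₈ (n : ℤ)
  push_cast at h8
  rw [jacobiSym.mul_left, jac_eight hn]
  unfold kz psi
  push_cast
  rcases Int.natAbs_eq d with h | h
  · conv_lhs => rw [h]
    rw [jac_recip hm hn]
    by_cases h1 : d % 4 = 1
    · rw [if_pos h1, if_pos (by omega), one_mul]
    · rw [if_neg h1, if_neg (by omega), h8]; ring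
  · conv_lhs => rw [h]
    rw [jacobiSym.neg _ hn, jac_recip hm hn]
    by_cases h1 : d % 4 = 1
    · rw [if_pos h1, if_neg (by omega), ← mul_assoc (ZMod.χ₄ _), h4, one_mul]
    · rw [if_neg h1, if_pos (by omega), h8]; ring

lemma ite_eq_kz {d : ℤ} (hd : Odd d) (n : ℕ) :
    (if Odd n then jacobiSym (8 * d) n else 0) = kz d n := by
  split_ifs with h
  · exact jac_eq_kz hd h
  · unfold kz
    rw [psi_even d (by have := Nat.not_odd_iff_even.1 h; obtain ⟨k, hk⟩ := this; omega), zero_mul]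

lemma kz_one (d : ℤ) : kz d 1 = 1 := by
  unfold kz
  rw [psi_one, jacobiSym.one_left, one_mul]

lemma kz_eq_zero {d : ℤ} (hd : d ≠ 0) {n : ℕ} (h : ¬ Nat.Coprime n (8 * d.natAbs)) :
    kz d n = 0 := by
  unfold kz
  rw [Nat.coprime_mul_iff_right, not_and_or] at h
  rcases h with h | h
  · rw [psi_even d, zero_mul]
    by_contra h2
    apply h
    have : Odd n := by rw [Nat.odd_iff]; omega
    exact Nat.Coprime.pow_right 3 (Nat.coprime_two_right.2 this)
  · have : NeZero d.natAbs := ⟨Int.natAbs_ne_zero.2 hd⟩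
    rw [jacobiSym.eq_zero_iff_not_coprime.2 (by rwa [Int.gcd_natCast_natCast]), mul_zero]

end Pool.Agent.H464Z.R8
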