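import Pool.Agent.H464Z.R8G

/-!
The contradiction.
-/

namespace Pool.Agent.H464Z.R8

open Complex Pool.Agent.H464Z.Rat

lemma exp_log_pow {Q : ℝ} (hQ : 0 < Q) (k : ℕ) : Real.exp (k * Real.log Q) = Q ^ k := by
  rw [Real.exp_nat_mul, Real.exp_log hQ]

lemma GG_mid (hG : GRH) {w : ℝ → ℝ} (hw : Wt w) {m : ℕ} {Q K c : ℝ} (hQ : 10000 ≤ Q)
    (hm : (m : ℝ) = 100 * Q ^ 100) (hK : 0 ≤ K) (hc : 0 < c)
    (hGe : ∀ α : ℂ, α.re = -(1 / 5) → c ≤ ‖Ge α‖)
    (hE : ∀ a : ℂ, a.re = 1 / 5 → |a.im| ≤ 133 * Q ^ 98 →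
      ‖Err w m (-a) (a + zz)‖ ≤ K / Q ^ 49 ∧ ‖Err w (m / 2) (-a) (a + zz)‖ ≤ K / Q ^ 49)
    {t : ℝ} (ht1 : 97 * Q ^ 98 ≤ t) (ht2 : t ≤ 132 * Q ^ 98) :
    ‖GG w m ⟨140 * Real.log Q, -t⟩‖ ≤ 3 * ((600 * K / c + 60000000 + CB) * Q ^ 33) := by
  have hQ0 : 0 < Q := by linarith
  have hQ1 : 1 ≤ Q := by linarith
  have hl1 : 1 ≤ Real.log Q := log_three.trans (Real.log_le_log (by norm_num) (by linarith))
  have hl2 : Real.log Q ≤ Q := (Real.log_le_sub_one_of_pos hQ0).trans (by linarith)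
  have p1 : 1 ≤ Q ^ 33 := one_le_pow₀ hQ1
  have p2 : Q ^ 97 ≤ Q ^ 98 := pow_le_pow_right₀ hQ1 (by norm_num)
  have p3 : 1 ≤ Q ^ 98 := one_le_pow₀ hQ1
  have p4 : Q ^ 98 ≤ Q ^ 100 := pow_le_pow_right₀ hQ1 (by norm_num)
  have hm8 : 8 ≤ m := by
    have : (8 : ℝ) ≤ m := by linarith
    exact_mod_cast this
  have hC := CB_pos
  have hKc : 0 ≤ 600 * K / c := by positivity
  have him : ∀ a : ℂ, |a.im - -t| ≤ Q ^ 97 → a.im ≤ -3 ∧ |a.im| ≤ 133 * Q ^ 98 := by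
    intro a ha
    rw [abs_le] at ha ⊢
    refine ⟨?_, ?_, ?_⟩ <;> linarith [ha.1, ha.2]
  refine rect_max (σ₀ := 1 / 5) (σ₁ := 7140 * Real.log Q) (H := Q ^ 97) (Y := Q ^ 2) (κ := 1 / 70)
    (by norm_num) (by linarith) (by linarith) (by nlinarith) (by norm_num) (by positivity)
    (fun a h1 _ h3 => GG_diff hG w m (by linarith) (by linarith [(him a h3).1]))
    (fun a h1 h3 => ?_) (fun a h1 h3 => ?_) (fun a h1 h2 h3 => ?_)
  · have e := congrArg norm (GG_left hw (m := m) (by omega) h1)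
    obtain ⟨e1, e2⟩ := hE a h1 (him a h3).2
    have a1 : Q ^ 20 ≤ ‖cexp (a * (Real.log (8 * m) : ℂ)) * (Real.pi : ℂ) ^ (-a)‖ := by
      rw [norm_mul, norm_exp, norm_cpow_eq_rpow_re_of_pos Real.pi_pos, mul_re, ofReal_re, ofReal_im,
        mul_zero, sub_zero, neg_re, h1, Real.rpow_def_of_pos Real.pi_pos, ← Real.exp_add,
        ← exp_log_pow hQ0]
      have b : Real.log Real.pi + Real.log (Q ^ 100) ≤ Real.log (8 * m) := by
        rw [← Real.log_mul Real.pi_pos.ne' (by positivity)]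
        refine Real.log_le_log (by positivity) ?_
        rw [hm]
        nlinarith [Real.pi_lt_four]
      rw [Real.log_pow] at b
      apply Real.exp_le_exp.2
      push_cast at b ⊢
      linarith
    have a2 := hGe (-a) (by rw [neg_re, h1])
    have a3 : ‖(m : ℂ) * ((3 : ℂ) ^ a * (Err w m (-a) (a + zz) - Err w (m / 2) (-a) (a + zz)))‖ ≤
        100 * Q ^ 100 * (3 * (K / Q ^ 49 + K / Q ^ 49)) := by
      rw [norm_mul, norm_mul, norm_three, Complex.norm_natCast, hm, h1]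
      gcongr
      · calc (3 : ℝ) ^ (1 / 5 : ℝ) ≤ (3 : ℝ) ^ (1 : ℝ) :=
            Real.rpow_le_rpow_of_exponent_le (by norm_num) (by norm_num)
          _ = 3 := Real.rpow_one 3
      · rw [← hm]
        exact (norm_sub_le _ _).trans (add_le_add e1 e2)
    rw [← e, norm_mul, norm_mul] at a3
    have a4 : Q ^ 20 * c * ‖GG w m a‖ ≤ 600 * K * Q ^ 51 := by
      refine le_trans ?_ (a3.trans_eq (by field_simp; ring))
      gcongr
    have a5 : ‖GG w m a‖ * Q ^ 2 ≤ 600 * K / c * Q ^ 33 := by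
      rw [div_mul_eq_mul_div, le_div_iff₀ hc]
      refine le_of_mul_le_mul_right (a := Q ^ 18) ?_ (by positivity)
      calc _ = Q ^ 20 * c * ‖GG w m a‖ := by ring
        _ ≤ _ := a4
        _ = _ := by ring
    rw [show 1 / 70 * (140 * Real.log Q) = (2 : ℕ) * Real.log Q by push_cast; ring,
      exp_log_pow hQ0]
    nlinarith
  · have a1 : ‖GG w m a‖ ≤ 576 * m * 1002 := sum_le hw hm8 (by linarith) (him a h3).1
      (by norm_num) fun d _ => BB_right d (by linarith)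
    rw [show 1 / 70 * (7140 * Real.log Q - 140 * Real.log Q) = (100 : ℕ) * Real.log Q by
      push_cast; ring, Real.exp_neg, exp_log_pow hQ0, ← div_eq_mul_inv]
    have a2 : ‖GG w m a‖ / Q ^ 100 ≤ 60000000 := by
      rw [div_le_iff₀ (by positivity)]
      linarith
    nlinarith
  · have a1 : ‖GG w m a‖ ≤ 576 * m * (CB * Real.exp (870 * (800 * Q ^ 100))) :=
      sum_le hw hm8 (by linarith) (him a h3.le).1 (by positivity) fun d hd =>
        BB_crude hG d h1 (by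
          have : (d.1.natAbs : ℝ) ≤ m := by exact_mod_cast mem_SS.1 hd
          rw [Nat.cast_mul, Nat.cast_ofNat]
          linarith) (by linarith) (by linarith [(him a h3.le).2])
    have a2 : 576 * (m : ℝ) ≤ Real.exp (57600 * Q ^ 100) := by
      linarith [Real.add_one_le_exp (57600 * Q ^ 100)]
    have a3 : Real.exp (57600 * Q ^ 100) * Real.exp (870 * (800 * Q ^ 100)) *
        Real.exp (1 / 70 * (140 * Real.log Q) - (Q ^ 97) ^ 2 / (Q ^ 2) ^ 2) ≤ 1 := by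
      rw [← Real.exp_add, ← Real.exp_add, Real.exp_le_one_iff,
        show (Q ^ 97) ^ 2 / (Q ^ 2) ^ 2 = Q ^ 100 * Q ^ 90 by field_simp]
      have b1 : Q ^ 2 ≤ Q ^ 90 := pow_le_pow_right₀ hQ1 (by norm_num)
      have b2 : Q ≤ Q ^ 100 := le_self_pow₀ hQ1 (by norm_num)
      have b3 : 1000000 ≤ Q ^ 90 := by nlinarith
      have b4 : Q ^ 100 * 1000000 ≤ Q ^ 100 * Q ^ 90 := by gcongr
      linarith
    have a4 : ‖GG w m a‖ * Real.exp (1 / 70 * (140 * Real.log Q) - (Q ^ 97) ^ 2 / (Q ^ 2) ^ 2) ≤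
        CB * 1 := by
      calc _ ≤ Real.exp (57600 * Q ^ 100) * (CB * Real.exp (870 * (800 * Q ^ 100))) *
            Real.exp (1 / 70 * (140 * Real.log Q) - (Q ^ 97) ^ 2 / (Q ^ 2) ^ 2) := by
            gcongr
            exact a1.trans (by gcongr)
        _ = CB * (Real.exp (57600 * Q ^ 100) * Real.exp (870 * (800 * Q ^ 100)) *
            Real.exp (1 / 70 * (140 * Real.log Q) - (Q ^ 97) ^ 2 / (Q ^ 2) ^ 2)) := by ring
        _ ≤ _ := by gcongr
    nlinarith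

lemma final_ineq {Q D a₀ N T₁ η s : ℝ} (hQ : 10000 ≤ Q) (hD : 0 ≤ D) (hQD : 96 * (2 * D + 1) < Q)
    (ha : 1 / (3 * Q ^ 3) ≤ a₀) (hN : 1 / (16 * Q ^ 2) ≤ N) (hT0 : 0 ≤ T₁) (hT : T₁ ≤ 131 * Q ^ 98)
    (hη : η ≤ 1 / Q ^ 200) (hs : s ≤ 2 * Q ^ 47)
    (h : a₀ * (N * Q ^ 89) ≤ D * Q ^ 33 * s + Q ^ 89 * (100 * Q ^ 100 * (96 * η)) +
      (2 * Q ^ 5 + 1) * (Q ^ 89 * (a₀ * (10 / Q ^ 10) + a₀ * (2 * T₁ *
        (Q ^ 5 * (4 * Q ^ 5 + Q ^ 89) / (98 * Q ^ 100) ^ 2))) + a₀ * (3 * Q ^ 79))) : False := by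
  have hQ0 : 0 < Q := by linarith
  have hQ1 : 1 ≤ Q := by linarith
  have ha0 : 0 < a₀ := lt_of_lt_of_le (by positivity) ha
  have hQ2 : 10 ≤ Q ^ 2 := by nlinarith
  have b1 : a₀ * (Q ^ 87 / 16) ≤ a₀ * (N * Q ^ 89) := by
    gcongr
    calc Q ^ 87 / 16 = 1 / (16 * Q ^ 2) * Q ^ 89 := by field_simp
      _ ≤ _ := by gcongr
  have b2 : D * Q ^ 33 * s ≤ 2 * D * Q ^ 80 := by
    calc _ ≤ D * Q ^ 33 * (2 * Q ^ 47) := by gcongr
      _ = _ := by ring
  have b3 : Q ^ 89 * (100 * Q ^ 100 * (96 * η)) ≤ Q ^ 80 := by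
    calc _ ≤ Q ^ 89 * (100 * Q ^ 100 * (96 * (1 / Q ^ 200))) := by gcongr
      _ = 9600 / Q ^ 11 := by field_simp; ring
      _ ≤ 1 := by
        rw [div_le_one (by positivity)]
        exact le_trans (by linarith) (le_self_pow₀ hQ1 (by norm_num))
      _ ≤ _ := one_le_pow₀ hQ1
  have b4 : 10 / Q ^ 10 ≤ 1 / Q ^ 8 := by
    rw [div_le_div_iff₀ (by positivity) (by positivity)]
    calc 10 * Q ^ 8 ≤ Q ^ 2 * Q ^ 8 := by gcongr
      _ = _ := by ring
  have b5 : 4 * Q ^ 5 + Q ^ 89 ≤ 5 * Q ^ 89 := by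
    have : Q ^ 5 ≤ Q ^ 89 := pow_le_pow_right₀ hQ1 (by norm_num)
    linarith
  have b6 : 2 * T₁ * (Q ^ 5 * (4 * Q ^ 5 + Q ^ 89) / (98 * Q ^ 100) ^ 2) ≤ 1 / Q ^ 8 := by
    calc _ ≤ 2 * (131 * Q ^ 98) * (Q ^ 5 * (5 * Q ^ 89) / (98 * Q ^ 100) ^ 2) := by gcongr
      _ = 1310 / 9604 * (1 / Q ^ 8) := by field_simp; ring
      _ ≤ _ := by
        have : 0 < 1 / Q ^ 8 := by positivity
        linarith
  have b7 : 3 * Q ^ 79 ≤ Q ^ 81 := by
    calc 3 * Q ^ 79 ≤ Q ^ 2 * Q ^ 79 := by gcongr; linarith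
      _ = _ := by ring
  have b8 : 2 * Q ^ 5 + 1 ≤ 3 * Q ^ 5 := by
    have : 1 ≤ Q ^ 5 := one_le_pow₀ hQ1
    linarith
  have b9 : (2 * Q ^ 5 + 1) * (Q ^ 89 * (a₀ * (10 / Q ^ 10) + a₀ * (2 * T₁ *
        (Q ^ 5 * (4 * Q ^ 5 + Q ^ 89) / (98 * Q ^ 100) ^ 2))) + a₀ * (3 * Q ^ 79)) ≤
        a₀ * (Q ^ 87 / 32) := by
    calc _ ≤ 3 * Q ^ 5 * (Q ^ 89 * (a₀ * (1 / Q ^ 8) + a₀ * (1 / Q ^ 8)) + a₀ * Q ^ 81) := by gcongr
      _ = a₀ * (9 * Q ^ 86) := by field_simp; ring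
      _ ≤ a₀ * (Q / 32 * Q ^ 86) := by gcongr; linarith
      _ = _ := by ring
  have c1 : Q ^ 84 / 96 ≤ a₀ * (Q ^ 87 / 32) := by
    calc Q ^ 84 / 96 = 1 / (3 * Q ^ 3) * (Q ^ 87 / 32) := by field_simp; ring
      _ ≤ _ := by gcongr
  have c2 : 96 * (2 * D + 1) * Q ^ 80 < Q ^ 84 := by
    calc _ < Q * Q ^ 80 := by gcongr
      _ = Q ^ 81 := by ring
      _ ≤ _ := pow_le_pow_right₀ hQ1 (by norm_num)
  linarith

lemma core (hG : GRH) {w : ℝ → ℝ} (hw : Wt w) {K : ℝ} (hK : 0 ≤ K) : ∃ Q₀ : ℝ, ∀ q : ℕ, q.Prime →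
    Q₀ ≤ q → ∃ a : ℂ, a.re = 1 / 5 ∧ |a.im| ≤ 133 * (q : ℝ) ^ 98 ∧
      (K / (q : ℝ) ^ 49 < ‖Err w (100 * (q : ℝ) ^ 100) (-a) (a + zz)‖ ∨
        K / (q : ℝ) ^ 49 < ‖Err w (100 * (q : ℝ) ^ 100 / 2) (-a) (a + zz)‖) := by
  obtain ⟨c, hc, hGe⟩ := Ge_lower (σ := 1 / 5) (by norm_num) (by norm_num)
  set D : ℝ := 6 * (600 * K / c + 60000000 + CB) + 120000000 with hD
  have hC := CB_pos
  have hKc : 0 ≤ 600 * K / c := by positivity
  have hD0 : 120000000 ≤ D := by linarith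
  refine ⟨96 * (2 * D + 1) + 1, fun q hq hQ₀ => ?_⟩
  by_contra hcon
  push Not at hcon
  set Q : ℝ := (q : ℝ) with hQdef
  have hQ : 10000 ≤ Q := by linarith
  have hQ0 : 0 < Q := by linarith
  have hQ1 : 1 ≤ Q := by linarith
  have hq1 : 10000 ≤ q := by
    have : ((10000 : ℕ) : ℝ) ≤ q := by push_cast; exact hQ
    exact_mod_cast this
  set m : ℕ := 100 * q ^ 100 with hmdef
  have hm : (m : ℝ) = 100 * Q ^ 100 := by rw [hmdef]; push_cast; rfl
  rw [← hm] at hcon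
  have hl1 : 1 ≤ Real.log Q := log_three.trans (Real.log_le_log (by norm_num) (by linarith))
  have hl2 : Real.log Q ≤ Q := (Real.log_le_sub_one_of_pos hQ0).trans (by linarith)
  have p0 : 1 ≤ Q ^ 100 := one_le_pow₀ hQ1
  have p1 : 200 * Q ^ 97 ≤ Q ^ 98 := by
    calc 200 * Q ^ 97 ≤ Q * Q ^ 97 := by gcongr; linarith
      _ = _ := by ring
  have p2 : 1 ≤ Q ^ 98 := one_le_pow₀ hQ1
  have p3 : Q ^ 5 ≤ Q ^ 89 := pow_le_pow_right₀ hQ1 (by norm_num)
  have p4 : 3 * Q ^ 89 ≤ Q ^ 100 := by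
    calc 3 * Q ^ 89 ≤ Q * Q ^ 89 := by gcongr; linarith
      _ = Q ^ 90 := by ring
      _ ≤ _ := pow_le_pow_right₀ hQ1 (by norm_num)
  have hm8 : 8 ≤ m := by
    have : (8 : ℝ) ≤ m := by linarith
    exact_mod_cast this
  have hm0 : (0 : ℝ) < m := by linarith
  set σ : ℝ := 140 * Real.log Q with hσ
  have hW1 := le_Wst hw (X := m) (by linarith)
  have hW2 := Wst_le hw (X := m) (m := m) hm0 le_rfl
  have hW0 : 0 < Wst w m := by linarith
  set a₀ : ℝ := m / Wst w m * Real.exp (σ * Real.log (98 / 100)) with ha₀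
  have ha₀0 : 0 ≤ a₀ := by positivity
  have hT : 2 * Real.pi * ((98 * q ^ 100 : ℕ) : ℝ) / (6 * (q : ℝ) ^ 2) =
      98 * Real.pi / 3 * Q ^ 98 := by
    push_cast
    rw [← hQdef]
    field_simp
    ring
  have hT1 : 98 * Q ^ 98 ≤ 98 * Real.pi / 3 * Q ^ 98 := by gcongr; linarith [Real.pi_gt_three]
  have hT2 : 98 * Real.pi / 3 * Q ^ 98 ≤ 131 * Q ^ 98 := by gcongr; linarith [Real.pi_lt_four]
  have hη : (2 * (m : ℝ) / (Q ^ 97 * ((q ^ 5 : ℕ) : ℝ))) ^ 200 ≤ 1 / Q ^ 200 := by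
    rw [← one_div_pow]
    apply pow_le_pow_left₀ (by positivity)
    push_cast
    rw [hm, ← hQdef, div_le_div_iff₀ (by positivity) hQ0]
    calc 2 * (100 * Q ^ 100) * Q = 200 * Q ^ 101 := by ring
      _ ≤ Q * Q ^ 101 := by gcongr; linarith
      _ = _ := by ring
  have n1 : q ^ 5 ≤ q ^ 89 := Nat.pow_le_pow_right hq.pos (by norm_num)
  have n2 : 3 * q ^ 89 ≤ q ^ 100 := by
    have : ((3 * q ^ 89 : ℕ) : ℝ) ≤ ((q ^ 100 : ℕ) : ℝ) := by push_cast; exact p4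
    exact_mod_cast this
  have h := low_bound (q := q) (m := m) (y := 98 * q ^ 100) (V := q ^ 5) (L := q ^ 89) (k := 200)
    hq.ne_zero (T := Q ^ 97) (A := 96) (a₀ := a₀) (δ := a₀ * (10 / Q ^ 10)) (err := 3 * Q ^ 79)
    (M := D * Q ^ 33) (c := cq q (q ^ 10))
    (fun n => om w m n * Real.exp (σ * Real.log (n / m))) (by positivity) (pow_pos hq.pos _)
    (pow_pos hq.pos _) (by omega) (by omega) (by rw [hT]; push_cast; linarith) (by norm_num) ha₀0
    (by positivity) (by positivity) (fun n => ?_) (fun n h1 h2 => ?_) (fun z h1 h2 => ?_) ?_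
    (fun t ht => ?_)
  · rw [hT] at h
    refine final_ineq (N := ‖cq q (q ^ 10)‖) (a₀ := a₀) (D := D) hQ (by linarith) (by linarith) ?_
      (norm_cq hq (by omega) (le_self_pow₀ hq.one_le (by norm_num))) (by positivity) hT2 hη
      (s := √(Q ^ 89 * (2 * Q ^ 5 + 2))) ?_ ?_
    · have a1 : 1 / 3 ≤ m / Wst w m := by
        rw [div_le_div_iff₀ (by norm_num) hW0]
        linarith
      have a2 : 1 / Q ^ 3 ≤ Real.exp (σ * Real.log (98 / 100)) := by
        rw [← exp_log_pow hQ0, one_div, ← Real.exp_neg]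
        apply Real.exp_le_exp.2
        have := Real.one_sub_inv_le_log_of_pos (x := 98 / 100) (by norm_num)
        push_cast
        rw [hσ]
        nlinarith
      calc 1 / (3 * Q ^ 3) = 1 / 3 * (1 / Q ^ 3) := by field_simp
        _ ≤ _ := by rw [ha₀]; gcongr
    · rw [Real.sqrt_le_left (by positivity)]
      have : 1 ≤ Q ^ 5 := one_le_pow₀ hQ1
      calc Q ^ 89 * (2 * Q ^ 5 + 2) ≤ Q ^ 89 * (4 * Q ^ 5) := by gcongr; linarith
        _ = _ := by ring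
    · generalize (2 * (m : ℝ) / (Q ^ 97 * ((q ^ 5 : ℕ) : ℝ))) ^ 200 = η at h ⊢
      rw [hm] at h
      simp only [Nat.cast_mul, Nat.cast_pow, Nat.cast_ofNat, ← hQdef] at h
      exact h
  · rcases le_total n m with hn | hn
    · have a1 : Real.exp (σ * Real.log (n / m)) ≤ 1 := Real.exp_le_one_iff.2
        (mul_nonpos_of_nonneg_of_nonpos (by positivity) (Real.log_nonpos (by positivity)
          (div_le_one_of_le₀ (by exact_mod_cast hn) hm0.le)))
      rw [abs_mul, abs_of_pos (Real.exp_pos _)]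
      exact (mul_le_of_le_one_right (abs_nonneg _) a1).trans (om_le hw hm8 _)
    · have hn' : (m : ℝ) ≤ n := by exact_mod_cast hn
      rw [om, hw.2.2.2.2, hw.2.2.2.2]
      · simp
      · rw [abs_of_nonneg (by positivity), le_div_iff₀ (by positivity)]
        linarith
      · rw [abs_of_nonneg (by positivity), le_div_iff₀ (by positivity)]
        linarith
  · have h1' : 98 * Q ^ 100 ≤ (n : ℝ) := by
      have : ((98 * q ^ 100 : ℕ) : ℝ) ≤ n := by exact_mod_cast h1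
      push_cast at this
      exact this
    have h2' : (n : ℝ) ≤ 98 * Q ^ 100 + 3 * Q ^ 89 := by
      have : (n : ℝ) ≤ ((98 * q ^ 100 + 3 * q ^ 89 : ℕ) : ℝ) := by
        exact_mod_cast (by omega : n ≤ 98 * q ^ 100 + 3 * q ^ 89)
      push_cast at this
      exact this
    have hn0 : (0 : ℝ) < n := by linarith
    have e1 : om w m n = m / Wst w m := by
      rw [om, hw.2.2.2.1, hw.2.2.2.2]
      · ring
      · rw [abs_of_nonneg (by positivity), le_div_iff₀ (by positivity)]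
        linarith
      · rw [abs_of_nonneg (by positivity), div_le_iff₀ (by positivity)]
        linarith
    set u : ℝ := σ * Real.log (n / (98 * Q ^ 100)) with hu
    have e2 : σ * Real.log (n / m) = σ * Real.log (98 / 100) + u := by
      rw [hu, ← mul_add, ← Real.log_mul (by norm_num) (by positivity), hm]
      congr 2
      field_simp
    have u0 : 0 ≤ u := mul_nonneg (by positivity) (Real.log_nonneg (by
      rw [le_div_iff₀ (by positivity)]; linarith))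
    have u1 : u ≤ 5 / Q ^ 10 := by
      have b1 : Real.log (n / (98 * Q ^ 100)) ≤ 3 * Q ^ 89 / (98 * Q ^ 100) := by
        refine (Real.log_le_sub_one_of_pos (by positivity)).trans ?_
        rw [div_sub_one (by positivity)]
        gcongr
        linarith
      calc u ≤ 140 * Q * (3 * Q ^ 89 / (98 * Q ^ 100)) := by
            rw [hu]
            refine mul_le_mul (by linarith) b1 (Real.log_nonneg (by
              rw [le_div_iff₀ (by positivity)]; linarith)) (by positivity)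
        _ = 420 / 98 / Q ^ 10 := by field_simp; ring
        _ ≤ _ := by gcongr; norm_num
    have u2 : 5 / Q ^ 10 ≤ 1 := by
      rw [div_le_one (by positivity)]
      exact le_trans (by linarith) (le_self_pow₀ hQ1 (by norm_num))
    have u3 := Real.abs_exp_sub_one_le (x := u) (by rw [abs_of_nonneg u0]; linarith)
    rw [abs_of_nonneg u0] at u3
    show |om w m n * Real.exp (σ * Real.log (n / m)) - a₀| ≤ _
    rw [e1, e2, Real.exp_add, ← mul_assoc, ← ha₀, ← mul_sub_one, abs_mul, abs_of_nonneg ha₀0]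
    gcongr
    have : 10 / Q ^ 10 = 2 * (5 / Q ^ 10) := by ring
    linarith
  · refine (expsum (J := q ^ 10) (B := 10 * q ^ 50) hq.ne_zero (pow_pos hq.pos _) ?_ ?_).trans ?_
    · have : q ^ 10 ≤ q ^ 50 := Nat.pow_le_pow_right hq.pos (by norm_num)
      omega
    · rw [show (10 * q ^ 50) ^ 2 = 100 * q ^ 100 by ring]
      omega
    · push_cast
      rw [← hQdef, show Q ^ 89 / Q ^ 10 = Q ^ 79 by field_simp]
      have b1 : Q ^ 12 ≤ Q ^ 78 := pow_le_pow_right₀ hQ1 (by norm_num)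
      have b2 : Q ^ 10 ≤ Q ^ 78 := pow_le_pow_right₀ hQ1 (by norm_num)
      have b3 : Q ^ 50 ≤ Q ^ 78 := pow_le_pow_right₀ hQ1 (by norm_num)
      have b4 : 20 * Q ^ 78 ≤ Q ^ 79 := by
        calc 20 * Q ^ 78 ≤ Q * Q ^ 78 := by gcongr; linarith
          _ = _ := by ring
      have b5 : Q ^ 10 * (12 * Q ^ 2 + 1) = 12 * Q ^ 12 + Q ^ 10 := by ring
      have b6 : 0 < Q ^ 78 := by positivity
      linarith
  · refine (mul_le_mul_of_nonneg_left hη (by positivity)).trans ?_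
    push_cast
    rw [← hQdef, mul_one_div, div_le_one (by positivity)]
    exact pow_le_pow_right₀ hQ1 (by norm_num)
  · rw [hT] at ht
    have t1 : 97 * Q ^ 98 ≤ t := by
      have := ht.1
      push_cast at this
      linarith
    have t2 : t ≤ 132 * Q ^ 98 := by
      have := ht.2
      push_cast at this
      linarith
    refine (ES_le hw hm8 (σ := σ) (by linarith) (by linarith)).trans ?_
    have a1 := GG_mid hG hw hQ hm hK hc hGe hcon t1 t2
    have a2 : 576 * (m : ℝ) * (1000 * Real.exp (-σ / 2)) ≤ 60000000 * Q ^ 33 := by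
      rw [show -σ / 2 = -((70 : ℕ) * Real.log Q) by rw [hσ]; push_cast; ring, Real.exp_neg,
        exp_log_pow hQ0, hm]
      calc _ = 57600000 * Q ^ 30 := by field_simp; ring
        _ ≤ _ := by gcongr <;> norm_num
    rw [hD]
    linarith

end Pool.Agent.H464Z.R8
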