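import Pool.Agent.H464Z.R8Defs

/-!
Estimates to the right of the line of absolute convergence.
-/

namespace Pool.Agent.H464Z.R8

open Complex DirichletCharacter

lemma sum_inv_sq : Summable (fun n : ℕ => 1 / (n : ℝ) ^ 2) ∧ ∑' n : ℕ, 1 / (n : ℝ) ^ 2 ≤ 2 := by
  refine ⟨hasSum_zeta_two.summable, ?_⟩
  rw [hasSum_zeta_two.tsum_eq]
  nlinarith [Real.pi_lt_d2, Real.pi_pos]

lemma series_tail {N : ℕ} [NeZero N] (χ : DirichletCharacter ℂ N) (h2 : χ ((2 : ℕ) : ZMod N) = 0)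
    {s : ℂ} (hs : 2 ≤ s.re) :
    ‖LFunction χ s - 1 - χ ((3 : ℕ) : ZMod N) * (3 : ℂ) ^ (-s)‖ ≤ 50 * (5 : ℝ) ^ (-s.re) := by
  have hs1 : 1 < s.re := by linarith
  have hsum : Summable (LSeries.term (fun n : ℕ => χ n) s) := LSeriesSummable_of_one_lt_re χ hs1
  rw [LFunction_eq_LSeries χ hs1, LSeries, ← hsum.sum_add_tsum_nat_add 5]
  have h4 : χ ((4 : ℕ) : ZMod N) = 0 := by
    rw [show (4 : ℕ) = 2 * 2 from rfl, Nat.cast_mul, map_mul, h2, zero_mul]
  have e : ∑ i ∈ Finset.range 5, LSeries.term (fun n : ℕ => χ n) s i =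
      1 + χ ((3 : ℕ) : ZMod N) * (3 : ℂ) ^ (-s) := by
    simp only [Finset.sum_range_succ, Finset.range_zero, Finset.sum_empty, LSeries.term_zero,
      LSeries.term_of_ne_zero (show (1 : ℕ) ≠ 0 by norm_num),
      LSeries.term_of_ne_zero (show (2 : ℕ) ≠ 0 by norm_num),
      LSeries.term_of_ne_zero (show (3 : ℕ) ≠ 0 by norm_num),
      LSeries.term_of_ne_zero (show (4 : ℕ) ≠ 0 by norm_num), h2, h4]
    rw [cpow_neg, div_eq_mul_inv (χ ((3 : ℕ) : ZMod N))]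
    simp
  rw [e, show ∀ a b : ℂ, 1 + a + b - 1 - a = b from fun a b => by ring]
  have hb : ∀ n : ℕ, ‖LSeries.term (fun n : ℕ => χ n) s (n + 5)‖ ≤
      25 * (5 : ℝ) ^ (-s.re) * (1 / ((n + 5 : ℕ) : ℝ) ^ 2) := by
    intro n
    rw [LSeries.norm_term_eq, if_neg (by omega)]
    have h5 : (5 : ℝ) ≤ ((n + 5 : ℕ) : ℝ) := by push_cast; linarith [Nat.cast_nonneg (α := ℝ) n]
    generalize ((n + 5 : ℕ) : ℝ) = x at *
    have hx : 0 < x := by linarith
    have a1 : x ^ (2 - s.re) ≤ (5 : ℝ) ^ (2 - s.re) :=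
      Real.rpow_le_rpow_of_nonpos (by norm_num) h5 (by linarith)
    rw [sub_eq_add_neg, Real.rpow_add hx, Real.rpow_add (by norm_num), Real.rpow_two,
      Real.rpow_two] at a1
    calc _ ≤ 1 / x ^ s.re := by gcongr; exact norm_le_one χ _
      _ = x ^ 2 * x ^ (-s.re) * (1 / x ^ 2) := by rw [Real.rpow_neg hx.le]; field_simp
      _ ≤ 5 ^ 2 * (5 : ℝ) ^ (-s.re) * (1 / x ^ 2) := by gcongr
      _ = _ := by norm_num
  have hs2 : Summable fun n : ℕ => 1 / ((n + 5 : ℕ) : ℝ) ^ 2 :=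
    (summable_nat_add_iff 5).2 sum_inv_sq.1
  refine (tsum_of_norm_bounded (hs2.mul_left (25 * (5 : ℝ) ^ (-s.re))).hasSum hb).trans ?_
  rw [tsum_mul_left]
  have a1 : ∑' n : ℕ, 1 / ((n + 5 : ℕ) : ℝ) ^ 2 ≤ 2 := by
    have := sum_inv_sq.1.sum_add_tsum_nat_add 5
    have b : 0 ≤ ∑ i ∈ Finset.range 5, 1 / (i : ℝ) ^ 2 := by positivity
    linarith [sum_inv_sq.2]
  have a2 : 0 < (5 : ℝ) ^ (-s.re) := by positivity
  nlinarith

/-- The shift `z` with `3 ^ (-z) = -1`. -/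
noncomputable def zz : ℂ := ((Real.pi / Real.log 3 : ℝ) : ℂ) * I

lemma zz_re : zz.re = 0 := by simp [zz, -ofReal_div]

lemma log_three : 1 ≤ Real.log 3 := by
  rw [Real.le_log_iff_exp_le (by norm_num)]
  linarith [Real.exp_one_lt_d9]

lemma zz_im : |zz.im| ≤ 4 := by
  have : zz.im = Real.pi / Real.log 3 := by simp [zz, -ofReal_div]
  rw [this, abs_of_nonneg (by have := log_three; positivity), div_le_iff₀ (by linarith [log_three])]
  nlinarith [Real.pi_lt_four, log_three]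

lemma three_zz : (3 : ℂ) ^ (-zz) = -1 := by
  have h : (Real.log 3 : ℂ) ≠ 0 := by
    have := log_three
    exact_mod_cast (by linarith : Real.log 3 ≠ 0)
  rw [cpow_def_of_ne_zero (by norm_num), show (3 : ℂ) = ((3 : ℝ) : ℂ) by simp,
    ← ofReal_log (by norm_num), zz]
  rw [ofReal_div, show (Real.log 3 : ℂ) * -(Real.pi / (Real.log 3 : ℂ) * I) = -(Real.pi * I) by
    field_simp, exp_neg, exp_pi_mul_I]
  norm_num

lemma zz_ne : zz ≠ 0 := by
  intro h
  have := three_zz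
  rw [h] at this
  norm_num at this

lemma norm_three (s : ℂ) : ‖(3 : ℂ) ^ s‖ = (3 : ℝ) ^ s.re := by
  exact_mod_cast norm_natCast_cpow_of_pos (n := 3) (by norm_num) s

lemma far_small {τ : ℝ} (h : 4 ≤ τ) : (3 : ℝ) ^ (-τ) ≤ 1 / 81 ∧ (5 : ℝ) ^ (-τ) ≤ 1 / 625 ∧
    (3 : ℝ) ^ (-τ) * (3 : ℝ) ^ (-τ) ≤ (5 : ℝ) ^ (-τ) := by
  refine ⟨?_, ?_, ?_⟩
  · calc (3 : ℝ) ^ (-τ) ≤ (3 : ℝ) ^ (-4 : ℝ) :=
        Real.rpow_le_rpow_of_exponent_le (by norm_num) (by linarith)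
      _ = _ := by rw [Real.rpow_neg (by norm_num)]; norm_num
  · calc (5 : ℝ) ^ (-τ) ≤ (5 : ℝ) ^ (-4 : ℝ) :=
        Real.rpow_le_rpow_of_exponent_le (by norm_num) (by linarith)
      _ = _ := by rw [Real.rpow_neg (by norm_num)]; norm_num
  · rw [← Real.mul_rpow (by norm_num) (by norm_num)]
    exact Real.rpow_le_rpow_of_nonpos (by norm_num) (by norm_num) (by linarith)

lemma L_lower {N : ℕ} [NeZero N] (χ : DirichletCharacter ℂ N) (h2 : χ ((2 : ℕ) : ZMod N) = 0)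
    {s : ℂ} (hs : 4 ≤ s.re) : 1 / 2 ≤ ‖LFunction χ s‖ := by
  have h := series_tail χ h2 (s := s) (by linarith)
  obtain ⟨f1, f2, -⟩ := far_small hs
  have hc : ‖χ ((3 : ℕ) : ZMod N) * (3 : ℂ) ^ (-s)‖ ≤ (3 : ℝ) ^ (-s.re) := by
    rw [norm_mul, norm_three, neg_re]
    exact mul_le_of_le_one_left (by positivity) (norm_le_one χ _)
  generalize χ ((3 : ℕ) : ZMod N) * (3 : ℂ) ^ (-s) = c at *
  generalize LFunction χ s = A at *
  have a1 := norm_sub_le (A - c) (A - 1 - c)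
  have a2 := norm_sub_le A c
  rw [show A - c - (A - 1 - c) = 1 by ring, norm_one] at a1
  linarith

lemma ratio_far {N : ℕ} [NeZero N] (χ : DirichletCharacter ℂ N) (h2 : χ ((2 : ℕ) : ZMod N) = 0)
    {s : ℂ} (hs : 4 ≤ s.re) :
    ‖LFunction χ s / LFunction χ (s + zz) - 1 - 2 * (χ ((3 : ℕ) : ZMod N) * (3 : ℂ) ^ (-s))‖ ≤
      304 * (5 : ℝ) ^ (-s.re) := by
  have hre : (s + zz).re = s.re := by simp [zz_re]
  have h := series_tail χ h2 (s := s) (by linarith)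
  have h' := series_tail χ h2 (s := s + zz) (by linarith)
  have hl := L_lower χ h2 (s := s + zz) (by linarith)
  rw [hre, neg_add, cpow_add _ _ (by norm_num), three_zz, mul_neg_one, mul_neg] at h'
  obtain ⟨f1, f2, f3⟩ := far_small hs
  have hc : ‖χ ((3 : ℕ) : ZMod N) * (3 : ℂ) ^ (-s)‖ ≤ (3 : ℝ) ^ (-s.re) := by
    rw [norm_mul, norm_three, neg_re]
    exact mul_le_of_le_one_left (by positivity) (norm_le_one χ _)
  generalize χ ((3 : ℕ) : ZMod N) * (3 : ℂ) ^ (-s) = c at *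
  generalize LFunction χ s = A at *
  generalize LFunction χ (s + zz) = B at *
  have hB : B ≠ 0 := norm_pos_iff.1 (by linarith)
  have e : A / B - 1 - 2 * c = (2 * (c * c) + (A - 1 - c) - (B - 1 - -c) * (1 + 2 * c)) / B := by
    field_simp
    ring
  rw [e, norm_div, div_le_iff₀ (by linarith)]
  have a1 : ‖1 + 2 * c‖ ≤ 2 := by
    refine (norm_add_le _ _).trans ?_
    rw [norm_one, norm_mul, Complex.norm_two]
    linarith
  have a2 : ‖2 * (c * c)‖ ≤ 2 * (5 : ℝ) ^ (-s.re) := by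
    rw [norm_mul, norm_mul, Complex.norm_two]
    have : ‖c‖ * ‖c‖ ≤ (3 : ℝ) ^ (-s.re) * (3 : ℝ) ^ (-s.re) := by gcongr
    linarith
  have a3 : ‖(B - 1 - -c) * (1 + 2 * c)‖ ≤ 50 * (5 : ℝ) ^ (-s.re) * 2 := by
    rw [norm_mul]; gcongr
  have a4 := norm_sub_le (2 * (c * c) + (A - 1 - c)) ((B - 1 - -c) * (1 + 2 * c))
  have a5 := norm_add_le (2 * (c * c)) (A - 1 - c)
  have a6 : 0 < (5 : ℝ) ^ (-s.re) := by positivity
  nlinarith

/-- a bound for series at real part at least `7 / 5` -/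
noncomputable def ZB : ℝ := ∑' n : ℕ, 1 / (n : ℝ) ^ (7 / 5 : ℝ)

lemma LSeries_crude {f : ℕ → ℂ} (hf : ∀ n, ‖f n‖ ≤ 1) {s : ℂ} (hs : 7 / 5 ≤ s.re) :
    ‖LSeries f s‖ ≤ ZB := by
  have hsum : Summable fun n : ℕ => 1 / (n : ℝ) ^ (7 / 5 : ℝ) :=
    Real.summable_one_div_nat_rpow.2 (by norm_num)
  refine tsum_of_norm_bounded hsum.hasSum fun n => ?_
  rw [LSeries.norm_term_eq]
  split_ifs with h
  · positivity
  · have h1 : (1 : ℝ) ≤ n := by exact_mod_cast Nat.one_le_iff_ne_zero.2 h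
    exact div_le_div₀ zero_le_one (hf n) (by positivity) (Real.rpow_le_rpow_of_exponent_le h1 hs)

lemma ratio_crude {N : ℕ} [NeZero N] (χ : DirichletCharacter ℂ N) {s : ℂ} (hs : 7 / 5 ≤ s.re) :
    ‖LFunction χ s / LFunction χ (s + zz)‖ ≤ ZB * ZB := by
  have hre : (s + zz).re = s.re := by simp [zz_re]
  have h1 := LSeries.mul_mu_eq_one χ (s := s + zz) (by linarith)
  rw [LFunction_eq_LSeries χ (by linarith), LFunction_eq_LSeries χ (by linarith), div_eq_mul_inv,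
    ← eq_inv_of_mul_eq_one_right h1, norm_mul]
  have a1 := LSeries_crude (f := fun n : ℕ => χ n) (fun n => norm_le_one χ _) hs
  refine mul_le_mul a1 (LSeries_crude (fun n => ?_) (by linarith)) (norm_nonneg _)
    ((norm_nonneg _).trans a1)
  rw [Pi.mul_apply, norm_mul]
  refine mul_le_one₀ (norm_le_one χ _) (norm_nonneg _) ?_
  rw [norm_intCast]
  exact_mod_cast ArithmeticFunction.abs_moebius_le_one

/-- the deviation from one of a factor of the product -/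
noncomputable def gfac (α γ : ℂ) (p : {p : ℕ // p.Prime ∧ 2 < p}) : ℂ :=
  ((p.1 : ℂ) ^ (-1 - α - γ) - (p.1 : ℂ) ^ (-1 - 2 * α)) /
    (((p.1 : ℂ) + 1) * (1 - (p.1 : ℂ) ^ (-1 - α - γ)))

lemma y_small {α γ : ℂ} (h : 0 ≤ (α + γ).re) (p : {p : ℕ // p.Prime ∧ 2 < p}) :
    2 / 3 ≤ ‖1 - (p.1 : ℂ) ^ (-1 - α - γ)‖ := by
  obtain ⟨p, hp, hp2⟩ := p
  have hp3 : (3 : ℝ) ≤ p := by exact_mod_cast hp2
  have a1 := norm_sub_norm_le (1 : ℂ) ((p : ℂ) ^ (-1 - α - γ))
  rw [norm_one, norm_natCast_cpow_of_pos hp.pos] at a1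
  have a2 : (p : ℝ) ^ (-1 - α - γ).re ≤ (p : ℝ) ^ (-1 : ℝ) := by
    apply Real.rpow_le_rpow_of_exponent_le (by linarith)
    simp only [add_re, sub_re, neg_re, one_re] at h ⊢
    linarith
  rw [Real.rpow_neg_one] at a2
  have a3 : (p : ℝ)⁻¹ ≤ 3⁻¹ := inv_anti₀ (by norm_num) hp3
  show 2 / 3 ≤ ‖1 - (p : ℂ) ^ (-1 - α - γ)‖
  linarith

lemma p_add_one (p : ℕ) : ‖(p : ℂ) + 1‖ = p + 1 := by
  have : (p : ℂ) + 1 = ((p + 1 : ℕ) : ℂ) := by push_cast; ring
  rw [this, norm_natCast]; push_cast; ring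

lemma Afac_eq {α γ : ℂ} (h : 0 ≤ (α + γ).re) (p : {p : ℕ // p.Prime ∧ 2 < p}) :
    Afac α γ p = 1 + gfac α γ p := by
  have h1 : 1 - (p.1 : ℂ) ^ (-1 - α - γ) ≠ 0 := norm_pos_iff.1 (by linarith [y_small h p])
  have h2 : (p.1 : ℂ) + 1 ≠ 0 := norm_pos_iff.1 (by rw [p_add_one]; positivity)
  have h3 : (p.1 : ℂ) ≠ 0 := Nat.cast_ne_zero.2 p.2.1.ne_zero
  have h4 : (p.1 : ℂ) ^ (-α - γ) = p.1 * (p.1 : ℂ) ^ (-1 - α - γ) := by
    rw [show -α - γ = 1 + (-1 - α - γ) by ring, cpow_add _ _ h3, cpow_one]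
  rw [Afac, gfac, h4]
  field_simp
  ring

lemma gfac_bound {α γ : ℂ} {β : ℝ} (h : 0 ≤ (α + γ).re) (h1 : β ≤ 1 + 2 * α.re)
    (h2 : β ≤ 1 + (α + γ).re) (p : {p : ℕ // p.Prime ∧ 2 < p}) :
    ‖gfac α γ p‖ ≤ 3 * (p.1 : ℝ) ^ (-1 - β) := by
  have hy := y_small h p
  obtain ⟨p, hp, hp2⟩ := p
  have hp3 : (3 : ℝ) ≤ p := by exact_mod_cast hp2
  simp only [gfac, norm_div, norm_mul, p_add_one] at hy ⊢
  have a1 : ‖(p : ℂ) ^ (-1 - α - γ) - (p : ℂ) ^ (-1 - 2 * α)‖ ≤ 2 * (p : ℝ) ^ (-β) := by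
    refine (norm_sub_le _ _).trans ?_
    rw [norm_natCast_cpow_of_pos hp.pos, norm_natCast_cpow_of_pos hp.pos]
    have b1 : (p : ℝ) ^ (-1 - α - γ).re ≤ (p : ℝ) ^ (-β) := by
      apply Real.rpow_le_rpow_of_exponent_le (by linarith)
      simp only [add_re, sub_re, neg_re, one_re] at h2 ⊢
      linarith
    have b2 : (p : ℝ) ^ (-1 - 2 * α).re ≤ (p : ℝ) ^ (-β) := by
      apply Real.rpow_le_rpow_of_exponent_le (by linarith)
      simp
      linarith
    linarith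
  have a2 : (p : ℝ) ^ (-β) = (p : ℝ) ^ (-1 - β) * p := by
    rw [← Real.rpow_add_one (by linarith)]; congr 1; ring
  rw [div_le_iff₀ (by positivity)]
  have a3 : 0 < (p : ℝ) ^ (-1 - β) := by positivity
  calc _ ≤ 2 * ((p : ℝ) ^ (-1 - β) * p) := by rw [← a2]; exact a1
    _ = 3 * (p : ℝ) ^ (-1 - β) * (p * (2 / 3)) := by ring
    _ ≤ _ := by gcongr; linarith

lemma Afac_mult {α γ : ℂ} (h : 0 ≤ (α + γ).re) (h1 : -1 / 4 ≤ α.re) : Multipliable (Afac α γ) := by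
  have e : Afac α γ = fun p => 1 + gfac α γ p := funext (Afac_eq h)
  rw [e]
  have hs : Summable fun n : ℕ => 3 * (n : ℝ) ^ (-1 - 1 / 2 : ℝ) :=
    (Real.summable_nat_rpow.2 (by norm_num)).mul_left 3
  exact multipliable_one_add_of_summable (Summable.of_nonneg_of_le (fun _ => norm_nonneg _)
    (gfac_bound (β := 1 / 2) h (by linarith) (by linarith)) (hs.comp_injective Subtype.val_injective))

lemma gfac_diag {a : ℂ} (ha : 0 ≤ a.re) (p : {p : ℕ // p.Prime ∧ 2 < p}) :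
    ‖gfac a (a + zz) p‖ ≤ 3 * (3 : ℝ) ^ (-(2 * a.re)) * (1 / (p.1 : ℝ) ^ 2) := by
  have hp3 : (3 : ℝ) ≤ p.1 := by exact_mod_cast p.2.2
  refine (gfac_bound (β := 1 + 2 * a.re) (by simp [zz_re]; linarith) le_rfl
    (by simp [zz_re]; linarith) p).trans ?_
  rw [show -1 - (1 + 2 * a.re) = -(2 * a.re) + -(2 : ℝ) by ring,
    Real.rpow_add (by linarith : (0 : ℝ) < p.1),
    Real.rpow_neg (y := 2) (by linarith : (0 : ℝ) ≤ p.1), Real.rpow_two, one_div, mul_assoc]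
  have h : (p.1 : ℝ) ^ (-(2 * a.re)) ≤ (3 : ℝ) ^ (-(2 * a.re)) :=
    Real.rpow_le_rpow_of_nonpos (by norm_num) hp3 (by linarith)
  exact mul_le_mul_of_nonneg_left (mul_le_mul_of_nonneg_right h (by positivity)) (by norm_num)

lemma sum_primes : Summable (fun p : {p : ℕ // p.Prime ∧ 2 < p} => 1 / (p.1 : ℝ) ^ 2) ∧
    ∑' p : {p : ℕ // p.Prime ∧ 2 < p}, 1 / (p.1 : ℝ) ^ 2 ≤ 2 :=
  ⟨sum_inv_sq.1.comp_injective Subtype.val_injective,
    (tsum_comp_le_tsum_of_inj sum_inv_sq.1 (fun _ => by positivity)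
      Subtype.val_injective).trans sum_inv_sq.2⟩

/-- the Euler product along the shifted diagonal -/
noncomputable def PP (a : ℂ) : ℂ := ∏' p : {p : ℕ // p.Prime ∧ 2 < p}, (1 + gfac a (a + zz) p)

lemma PP_near {a : ℂ} (ha : 0 ≤ a.re) :
    ‖PP a - 1‖ ≤ Real.exp (6 * (3 : ℝ) ^ (-(2 * a.re))) - 1 := by
  have hs := sum_primes.1.mul_left (3 * (3 : ℝ) ^ (-(2 * a.re)))
  have hm : Multipliable fun p => 1 + gfac a (a + zz) p := multipliable_one_add_of_summable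
    (Summable.of_nonneg_of_le (fun _ => norm_nonneg _) (gfac_diag ha) hs)
  refine le_of_tendsto' ((continuous_norm.tendsto _).comp (hm.hasProd.sub_const 1)) fun t => ?_
  refine (t.norm_prod_one_add_sub_one_le _).trans ?_
  gcongr
  refine ((Finset.sum_le_sum fun i _ => gfac_diag ha i).trans
    (hs.sum_le_tsum t fun i _ => by positivity)).trans ?_
  rw [tsum_mul_left]
  have := sum_primes.2
  have : 0 < (3 : ℝ) ^ (-(2 * a.re)) := by positivity
  nlinarith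

lemma PP_diff : DifferentiableOn ℂ PP {a | 0 < a.re} := by
  have ho : IsOpen {a : ℂ | 0 < a.re} := isOpen_lt continuous_const continuous_re
  have hd : ∀ p, DifferentiableOn ℂ (fun a => gfac a (a + zz) p) {a | 0 < a.re} := by
    intro p a ha
    have ha' : 0 < a.re := ha
    have h3 : (p.1 : ℂ) ≠ 0 := Nat.cast_ne_zero.2 p.2.1.ne_zero
    have h1 := y_small (α := a) (γ := a + zz) (by simp [zz_re]; linarith) p
    refine DifferentiableAt.differentiableWithinAt ?_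
    unfold gfac
    refine DifferentiableAt.div ?_ ?_ (mul_ne_zero (norm_pos_iff.1 (by rw [p_add_one]; positivity))
      (norm_pos_iff.1 (by linarith)))
    · exact ((by fun_prop : DifferentiableAt ℂ _ a).const_cpow (.inl h3)).sub
        ((by fun_prop : DifferentiableAt ℂ _ a).const_cpow (.inl h3))
    · exact (((by fun_prop : DifferentiableAt ℂ _ a).const_cpow (.inl h3)).const_sub _).const_mul _
  have h := (sum_primes.1.mul_left 3).hasProdLocallyUniformlyOn_one_add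
    (f := fun p a => gfac a (a + zz) p) ho (Filter.Eventually.of_forall fun p a ha => ?_)
    fun p => (hd p).continuousOn
  · refine TendstoLocallyUniformlyOn.differentiableOn
      (hasProdLocallyUniformlyOn_iff_tendstoLocallyUniformlyOn.1 h)
      (Filter.Eventually.of_forall fun t => ?_) ho
    exact DifferentiableOn.fun_finsetProd fun p _ => (hd p).const_add 1
  · have ha' : 0 < a.re := ha
    refine (gfac_diag ha'.le p).trans ?_
    have : (3 : ℝ) ^ (-(2 * a.re)) ≤ 1 :=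
      Real.rpow_le_one_of_one_le_of_nonpos (by norm_num) (by linarith)
    gcongr
    linarith

lemma triv_two : (1 : DirichletCharacter ℂ 2) ((2 : ℕ) : ZMod 2) = 0 := by
  apply MulChar.map_nonunit
  rw [ZMod.natCast_self]
  exact not_isUnit_zero

lemma Phi_eq {a : ℂ} (ha : 0 < a.re) : Phi a (a + zz) =
    LFunction (1 : DirichletCharacter ℂ 2) (1 + 2 * a) /
      LFunction (1 : DirichletCharacter ℂ 2) (1 + 2 * a + zz) * PP a := by
  have h1 : 1 + 2 * a ≠ 1 := fun h => by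
    have := congrArg re h
    simp at this
    linarith
  have h2 : 1 + 2 * a + zz ≠ 1 := fun h => by
    have := congrArg re h
    simp [zz_re] at this
    linarith
  have e1 := LFunctionTrivChar_eq_mul_riemannZeta (N := 2) h1
  have e2 := LFunctionTrivChar_eq_mul_riemannZeta (N := 2) h2
  rw [Nat.Prime.primeFactors Nat.prime_two, Finset.prod_singleton, LFunctionTrivChar] at e1 e2
  have e3 : Afac a (a + zz) = fun p => 1 + gfac a (a + zz) p :=
    funext (Afac_eq (by simp [zz_re]; linarith))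
  rw [e1, e2, Phi, Acon, e3, PP, show 1 + a + (a + zz) = 1 + 2 * a + zz by ring,
    show -1 - a - (a + zz) = -(1 + 2 * a + zz) by ring, show -1 - 2 * a = -(1 + 2 * a) by ring]
  simp only [Nat.cast_ofNat, div_eq_mul_inv, mul_inv]
  ring

lemma Phi_diff {a : ℂ} (ha : 0 < a.re) : DifferentiableAt ℂ (fun a => Phi a (a + zz)) a := by
  have ho : IsOpen {a : ℂ | 0 < a.re} := isOpen_lt continuous_const continuous_re
  have h1 : 1 + 2 * a ≠ 1 := fun h => by
    have := congrArg re h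
    simp at this
    linarith
  have h2 : 1 + 2 * a + zz ≠ 1 := fun h => by
    have := congrArg re h
    simp [zz_re] at this
    linarith
  refine DifferentiableAt.congr_of_eventuallyEq ?_
    (Filter.eventually_of_mem (ho.mem_nhds ha) fun b hb => Phi_eq hb)
  refine (DifferentiableAt.div ?_ ?_ ?_).mul (PP_diff.differentiableAt (ho.mem_nhds ha))
  · exact (differentiableAt_LFunction _ _ (.inl h1)).comp a (by fun_prop)
  · exact (differentiableAt_LFunction _ _ (.inl h2)).comp a (by fun_prop)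
  · exact LFunction_ne_zero_of_one_le_re _ (.inr h2) (by simp [zz_re]; linarith)

lemma Phi_crude {a : ℂ} (ha : 1 / 5 ≤ a.re) : ‖Phi a (a + zz)‖ ≤ ZB * ZB * Real.exp 6 := by
  rw [Phi_eq (by linarith), norm_mul]
  have a1 := ratio_crude (1 : DirichletCharacter ℂ 2) (s := 1 + 2 * a) (by simp; linarith)
  have a2 := PP_near (a := a) (by linarith)
  have a3 : (3 : ℝ) ^ (-(2 * a.re)) ≤ 1 :=
    Real.rpow_le_one_of_one_le_of_nonpos (by norm_num) (by linarith)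
  have a4 : Real.exp (6 * (3 : ℝ) ^ (-(2 * a.re))) ≤ Real.exp 6 := Real.exp_le_exp.2 (by linarith)
  have a5 := norm_sub_norm_le (PP a) 1
  rw [norm_one] at a5
  exact mul_le_mul a1 (by linarith) (norm_nonneg _) ((norm_nonneg _).trans a1)

lemma Phi_far {a : ℂ} (ha : 4 ≤ a.re) : ‖Phi a (a + zz) - 1‖ ≤ 624 * (5 : ℝ) ^ (-a.re) := by
  rw [Phi_eq (by linarith)]
  have hre : (1 + 2 * a).re = 1 + 2 * a.re := by simp
  have a1 := ratio_far (1 : DirichletCharacter ℂ 2) triv_two (s := 1 + 2 * a) (by rw [hre]; linarith)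
  have a2 := PP_near (a := a) (by linarith)
  obtain ⟨f1, f2, f3⟩ := far_small ha
  have hc : ‖(1 : DirichletCharacter ℂ 2) ((3 : ℕ) : ZMod 2) * (3 : ℂ) ^ (-(1 + 2 * a))‖ ≤
      (3 : ℝ) ^ (-(1 + 2 * a.re)) := by
    rw [norm_mul, norm_three, neg_re, hre]
    exact mul_le_of_le_one_left (by positivity) (norm_le_one _ _)
  rw [hre] at a1
  have b0 : (3 : ℝ) ^ (-(2 * a.re)) ≤ (5 : ℝ) ^ (-a.re) := by
    rw [show -(2 * a.re) = -a.re + -a.re by ring, Real.rpow_add (by norm_num)]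
    exact f3
  have b1 : (3 : ℝ) ^ (-(1 + 2 * a.re)) ≤ (5 : ℝ) ^ (-a.re) :=
    (Real.rpow_le_rpow_of_exponent_le (by norm_num) (by linarith)).trans b0
  have b2 : (5 : ℝ) ^ (-(1 + 2 * a.re)) ≤ (5 : ℝ) ^ (-a.re) :=
    Real.rpow_le_rpow_of_exponent_le (by norm_num) (by linarith)
  have b3 : 0 < (3 : ℝ) ^ (-(2 * a.re)) := by positivity
  have b4 := Real.abs_exp_sub_one_le (x := 6 * (3 : ℝ) ^ (-(2 * a.re)))
    (by rw [abs_of_pos (by positivity)]; linarith)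
  rw [abs_of_pos (a := 6 * _) (by positivity)] at b4
  have b5 := le_abs_self (Real.exp (6 * (3 : ℝ) ^ (-(2 * a.re))) - 1)
  generalize (1 : DirichletCharacter ℂ 2) ((3 : ℕ) : ZMod 2) * (3 : ℂ) ^ (-(1 + 2 * a)) = c at *
  generalize LFunction (1 : DirichletCharacter ℂ 2) (1 + 2 * a) /
    LFunction (1 : DirichletCharacter ℂ 2) (1 + 2 * a + zz) = R at *
  generalize PP a = P at *
  have c1 : ‖P - 1‖ ≤ 12 * (5 : ℝ) ^ (-a.re) := by linarith
  have c2 : ‖P‖ ≤ 2 := by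
    have := norm_sub_norm_le P 1
    rw [norm_one] at this
    linarith
  have c3 : ‖R - 1‖ ≤ 306 * (5 : ℝ) ^ (-a.re) := by
    have := norm_add_le (R - 1 - 2 * c) (2 * c)
    rw [sub_add_cancel, norm_mul, Complex.norm_two] at this
    linarith
  have c4 : ‖(R - 1) * P‖ ≤ 306 * (5 : ℝ) ^ (-a.re) * 2 := by rw [norm_mul]; gcongr
  have c5 := norm_add_le ((R - 1) * P) (P - 1)
  rw [show (R - 1) * P + (P - 1) = R * P - 1 by ring] at c5
  linarith

end Pool.Agent.H464Z.R8
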