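import Mathlib

/-!
Definitions for the ratios conjecture for the Jacobi symbols of odd squarefree modulus.
-/

namespace Pool.Agent.H464Z.Rat

open Complex

/-- The Jacobi symbol `m ↦ (m / n)` as a complex Dirichlet character modulo `n`. -/
noncomputable def chi (n : ℕ) [NeZero n] : DirichletCharacter ℂ n where
  toFun a := ((jacobiSym (a.val : ℤ) n : ℤ) : ℂ)
  map_one' := by
    have h : jacobiSym (((1 : ZMod n).val : ℕ) : ℤ) n = jacobiSym 1 n := by
      apply jacobiSym.mod_left'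
      rw [ZMod.val_one_eq_one_mod]
      simp
    rw [h, jacobiSym.one_left]
    simp
  map_mul' a b := by
    have h : jacobiSym (((a * b).val : ℕ) : ℤ) n = jacobiSym ((a.val : ℤ) * (b.val : ℤ)) n := by
      apply jacobiSym.mod_left'
      rw [ZMod.val_mul]
      simp
    rw [h, jacobiSym.mul_left]
    simp
  map_nonunit' a ha := by
    have h : jacobiSym ((a.val : ℕ) : ℤ) n = 0 := by
      rw [jacobiSym.eq_zero_iff_not_coprime]
      intro hg
      apply ha
      have : Nat.Coprime a.val n := by rwa [Int.gcd_natCast_natCast] at hg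
      have h2 := (ZMod.isUnit_iff_coprime a.val n).2 this
      simpa using h2
    rw [h]
    simp

/-- `L n s` is the Dirichlet `L`-function `L(s, χ_n)` (analytically continued) for `n ≥ 1`. -/
noncomputable def L : ℕ → ℂ → ℂ
  | 0, _ => 0
  | n + 1, s => DirichletCharacter.LFunction (chi (n + 1)) s

/-- `Ge α = Γ_e(1/2 + α)`. -/
noncomputable def Ge (α : ℂ) : ℂ := Gamma (1 / 4 - α / 2) / Gamma (1 / 4 + α / 2)

/-- `Go α = Γ_o(1/2 + α)`. -/
noncomputable def Go (α : ℂ) : ℂ := Gamma (3 / 4 - α / 2) / Gamma (3 / 4 + α / 2)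

/-- The factor at the odd prime `p` of the product `P_{D,2}(α, β)`. -/
noncomputable def Pfac (α β : ℂ) (p : {p : ℕ // p.Prime ∧ 3 ≤ p}) : ℂ :=
  1 + (1 - (p.1 : ℂ) ^ (β - α)) / (((p.1 : ℂ) + 1) * ((p.1 : ℂ) ^ (1 + α + β) - 1))

/-- `P_{D,2}(α, β)`, the product over the odd primes. -/
noncomputable def P (α β : ℂ) : ℂ := ∏' p : {p : ℕ // p.Prime ∧ 3 ≤ p}, Pfac α β p

/-- `S(X; α, β)`, the sum over odd `n ≤ X` of `μ(n)^2 L(1/2+α, χ_n) / L(1/2+β, χ_n)`. -/
noncomputable def S (X : ℝ) (α β : ℂ) : ℂ :=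
  ∑ n ∈ (Finset.Icc 1 ⌊X⌋₊).filter Odd,
    ((ArithmeticFunction.moebius n : ℤ) : ℂ) ^ 2 * L n (1 / 2 + α) * (L n (1 / 2 + β))⁻¹

/-- The first conjectured main term. -/
noncomputable def M1 (X : ℝ) (α β : ℂ) : ℂ :=
  2 * (X : ℂ) * riemannZeta (1 + 2 * α) * P α β / (3 * riemannZeta 2 * riemannZeta (1 + α + β))

/-- The second conjectured main term. -/
noncomputable def M2 (X : ℝ) (α β : ℂ) : ℂ :=
  (Real.pi : ℂ) ^ α * (X : ℂ) ^ (1 - α) * riemannZeta (1 - 2 * α) * P (-α) β /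
    (3 * (1 - α) * riemannZeta 2 * riemannZeta (1 + β - α)) * (Ge α + Go α)

end Pool.Agent.H464Z.Rat
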