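import Pool.Agent.H464Z.RatStep

/-!
Assembly of the counterexample to the uniform ratios conjecture.
-/

namespace Pool.Agent.H464Z.Rat

open Complex Filter Topology MeasureTheory

/-- A large value of the exponential sum at a point where no `L`-function vanishes. -/
lemma exists_t {σ : ℝ} (h0 : 0 < σ) (h1 : σ < 1 / 4) (c : ℕ → ℂ)
    (hc : ∀ n, Odd n → Squarefree n → ‖c n‖ = (n : ℝ) ^ σ) (m N k : ℕ) (T : ℝ) (hT : 0 < T)
    (hN : 8 ≤ N) (hNm : N ≤ m) (hsm : (m : ℝ) * (m * (4 * N / T) ^ k) ≤ 1 / 2) :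
    ∃ t : ℝ, T < t ∧ t < (k + 3) * T ∧
      ((N : ℝ) / 8) ^ (1 / 2 + σ) / 6 < ‖ES (OS m) c (fun n => -Real.log n) t‖ ∧
      ∀ n ∈ OS m, L n (1 / 2 - (-σ + t * I)) ≠ 0 := by
  classical
  obtain ⟨μ, hμ1, hμ2, hμ3⟩ := exists_kernel (2 * T) T hT k
  set B := (Finset.Icc 1 N).filter fun n => Odd n ∧ Squarefree n ∧ N < 8 * n with hB
  have hN' : (8 : ℝ) ≤ N := by exact_mod_cast hN
  have hBc : (N : ℝ) / 8 ≤ B.card := count_sqfree N
  have hBA : B ⊆ OS m := by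
    intro n hn
    simp only [hB, Finset.mem_filter, Finset.mem_Icc] at hn
    exact mem_OS.2 ⟨⟨hn.1.1, hn.1.2.trans hNm⟩, hn.2.1, hn.2.2.1⟩
  have hBne : B.Nonempty := by
    rw [← Finset.card_pos]
    have : (0 : ℝ) < B.card := by linarith
    exact_mod_cast this
  have hv1 : 1 ≤ ((N : ℝ) / 8) ^ σ := Real.one_le_rpow (by linarith) h0.le
  have hcard : ((OS m).card : ℝ) ≤ m := by
    have : (OS m).card ≤ (Finset.Icc 1 m).card := Finset.card_filter_le _ _
    simp only [Nat.card_Icc, add_tsub_cancel_right] at this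
    exact_mod_cast this
  obtain ⟨t₀, ht₀, hbig⟩ := mean_lower μ _ hμ2 (OS m) B hBA hBne c (fun n => -Real.log n) m
    (((N : ℝ) / 8) ^ σ) ((4 * N / T) ^ k) (by linarith) (by positivity)
    (fun n hn => by
      obtain ⟨⟨hn1, hnm⟩, ho, hs⟩ := mem_OS.1 hn
      rw [hc n ho hs]
      calc (n : ℝ) ^ σ ≤ (n : ℝ) ^ (1 : ℝ) :=
            Real.rpow_le_rpow_of_exponent_le (by exact_mod_cast hn1) (by linarith)
        _ ≤ m := by rw [Real.rpow_one]; exact_mod_cast hnm)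
    (fun n hn => by
      simp only [hB, Finset.mem_filter, Finset.mem_Icc] at hn
      rw [hc n hn.2.1 hn.2.2.1]
      apply Real.rpow_le_rpow (by positivity) _ h0.le
      have : (N : ℝ) < 8 * n := by exact_mod_cast hn.2.2.2
      linarith)
    (fun a ha n hn hne => by
      simp only [hB, Finset.mem_filter, Finset.mem_Icc] at hn
      have hsp := log_spacing (mem_OS.1 ha).1.1 hn.1.1 hn.1.2 hne
      have e : |-Real.log a - -Real.log n| = |Real.log a - Real.log n| := by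
        rw [← abs_neg]; congr 1; ring
      have hpos : 0 < 1 / (2 * (N : ℝ)) := by positivity
      have hl : -Real.log a - -Real.log n ≠ 0 := by
        intro h
        rw [h, abs_zero] at e
        linarith
      refine (hμ3 _ hl).trans ?_
      rw [e]
      apply pow_le_pow_left₀ (by positivity)
      calc 2 / (T * |Real.log a - Real.log n|) ≤ 2 / (T * (1 / (2 * (N : ℝ)))) := by gcongr
        _ = 4 * N / T := by field_simp; ring)
    (by
      calc ((OS m).card : ℝ) * (m * (4 * N / T) ^ k) ≤ m * (m * (4 * N / T) ^ k) := by gcongr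
        _ ≤ _ := by linarith)
  have hD : ((N : ℝ) / 8) ^ (1 / 2 + σ) / 6 < ‖ES (OS m) c (fun n => -Real.log n) t₀‖ := by
    refine lt_of_lt_of_le ?_ hbig
    rw [Real.rpow_add (by linarith), ← Real.sqrt_eq_rpow]
    have a1 : √((N : ℝ) / 8) ≤ √(B.card : ℝ) := Real.sqrt_le_sqrt hBc
    have a2 : 0 < √((N : ℝ) / 8) := Real.sqrt_pos.2 (by linarith)
    have a3 : √((N : ℝ) / 8) * ((N : ℝ) / 8) ^ σ ≤ √(B.card : ℝ) * ((N : ℝ) / 8) ^ σ := by gcongr
    have a4 : 0 < √((N : ℝ) / 8) * ((N : ℝ) / 8) ^ σ := by positivity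
    linarith
  have e1 : ∀ᶠ t in 𝓝[≠] t₀, T < t ∧ t < (k + 3) * T := by
    refine Eventually.filter_mono nhdsWithin_le_nhds ?_
    exact (eventually_gt_nhds (by linarith [ht₀.1])).and
      (eventually_lt_nhds (by linarith [ht₀.2]))
  have e2 : ∀ᶠ t in 𝓝[≠] t₀,
      ((N : ℝ) / 8) ^ (1 / 2 + σ) / 6 < ‖ES (OS m) c (fun n => -Real.log n) t‖ := by
    refine Eventually.filter_mono nhdsWithin_le_nhds ?_
    exact ((ES_continuous _ _ _).norm.tendsto t₀).eventually (eventually_gt_nhds hD)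
  have e3 : ∀ᶠ t : ℝ in 𝓝[≠] t₀, ∀ n ∈ OS m, L n (1 / 2 - (-σ + t * I)) ≠ 0 := by
    rw [eventually_all_finset]
    intro n hn
    have hs1 : (1 / 2 - (-σ + t₀ * I) : ℂ) ≠ 1 := by
      intro h
      have := congrArg re h
      simp at this
      linarith
    have hmap : Tendsto (fun t : ℝ => (1 / 2 - (-σ + t * I) : ℂ)) (𝓝[≠] t₀)
        (𝓝[≠] (1 / 2 - (-σ + t₀ * I))) := by
      refine tendsto_nhdsWithin_iff.2 ⟨?_, ?_⟩
      · have : Continuous fun t : ℝ => (1 / 2 - (-σ + t * I) : ℂ) := by fun_prop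
        exact (this.tendsto t₀).mono_left nhdsWithin_le_nhds
      · filter_upwards [self_mem_nhdsWithin] with t ht h
        have := congrArg im h
        simp at this
        exact ht this
    exact hmap.eventually (L_eventually_ne_zero n (by have := (mem_OS.1 hn).1.1; omega) hs1)
  obtain ⟨t, ⟨a1, a2⟩, a3, a4⟩ := (e1.and (e2.and e3)).exists
  exact ⟨t, a1, a2, a3, a4⟩

theorem main {σ : ℝ} (h0 : 0 < σ) (h1 : σ < 1 / 4) :
    ∃ ε : ℝ, 0 < ε ∧ ∀ c : ℝ, 0 < c → ∀ C : ℝ, 0 < C → ∀ K : ℝ,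
      ∃ X : ℝ, 2 ≤ X ∧ ∃ α β : ℂ,
        α.re = -σ ∧ c / Real.log X ≤ β.re ∧ β.re < 1 / 4 ∧
        |α.im| ≤ C * X ^ (1 - ε) ∧ |β.im| ≤ C * X ^ (1 - ε) ∧
        0 < (α + β).re ∧
        (∀ n : ℕ, Odd n → Squarefree n → (n : ℝ) ≤ X → L n (1 / 2 + β) ≠ 0) ∧
        Multipliable (Pfac α β) ∧ Multipliable (Pfac (-α) β) ∧
        K * X ^ (1 / 2 + ε) < ‖S X α β - M1 X α β - M2 X α β‖ := by
  obtain ⟨cf, hcf, hS⟩ := S_diag h0 h1
  obtain ⟨g, hg0, hg⟩ := Ge_lower h0 h1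
  obtain ⟨a, ha⟩ := exists_nat_ge (6 / σ)
  have haσ : 6 ≤ a * σ := (div_le_iff₀ h0).1 ha
  have ha24 : (24 : ℝ) ≤ a := by nlinarith
  have ha3 : 3 ≤ a := by
    have : (3 : ℝ) ≤ a := by linarith
    exact_mod_cast this
  set A : ℝ := a + 3 with hA
  have hA0 : 0 < A := by linarith
  refine ⟨1 / A, by positivity, fun c hc C hC K => ?_⟩
  set k : ℕ := 2 * (a + 3) + 1 with hk
  set g₀ : ℝ := Real.pi ^ (-σ) * g with hg₀
  have hg₀0 : 0 < g₀ := mul_pos (Real.rpow_pos_of_pos Real.pi_pos _) hg0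
  have hPB := PB_pos
  obtain ⟨Y, hY1, hY2, hY3, hY4, hY5⟩ : ∃ Y : ℕ, (8 : ℝ) ≤ Y ∧ 2 * 4 ^ k ≤ (Y : ℝ) ∧
      (k + 3) / C ≤ Y ∧ Real.exp (c / σ) ≤ Y ∧ 48 * (1 + 2 * PB + (|K| + 2) / g₀) ≤ Y := by
    have t := tendsto_natCast_atTop_atTop (R := ℝ)
    exact ((t.eventually_ge_atTop _).and ((t.eventually_ge_atTop _).and
      ((t.eventually_ge_atTop _).and ((t.eventually_ge_atTop _).and
        (t.eventually_ge_atTop _))))).exists
  set y : ℝ := (Y : ℝ) with hy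
  have hy0 : 0 < y := by linarith
  have hy1 : 1 ≤ y := by linarith
  have hY8 : 8 ≤ Y := by rw [hy] at hY1; exact_mod_cast hY1
  have hpw : ∀ i j : ℕ, i ≤ j → y ^ i ≤ y ^ j := fun i j h => pow_le_pow_right₀ hy1 h
  have hm : ((Y ^ (a + 3) : ℕ) : ℝ) = y ^ (a + 3) := by push_cast; rfl
  have hN : ((Y ^ a : ℕ) : ℝ) = y ^ a := by push_cast; rfl
  have hya : y ≤ y ^ a := by simpa using hpw 1 a (by omega)
  obtain ⟨t, ht1, ht2, ht3, ht4⟩ := exists_t h0 h1 cf hcf (Y ^ (a + 3)) (Y ^ a) k (y ^ (a + 1))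
    (by positivity) (by have : (8 : ℝ) ≤ ((Y ^ a : ℕ) : ℝ) := by rw [hN]; linarith
                        exact_mod_cast this)
    (Nat.pow_le_pow_right (by omega) (by omega))
    (by
      rw [hm, hN]
      have e : y ^ (a + 3) * (y ^ (a + 3) * (4 * y ^ a / y ^ (a + 1)) ^ k) = 4 ^ k / y := by
        have : 4 * y ^ a / y ^ (a + 1) = 4 / y := by field_simp; ring
        rw [this, div_pow, hk]
        field_simp
        ring
      rw [e, div_le_iff₀ hy0]
      linarith)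
  have hT1 : y ≤ y ^ (a + 1) := by simpa using hpw 1 (a + 1) (by omega)
  have ht0 : 1 ≤ t := by linarith
  have hexp : 4 * ((Y ^ (a + 3) : ℕ) : ℝ) ^ 2 ≤ Real.exp (Real.pi * t) := by
    rw [hm]
    have a1 := Real.pow_div_factorial_le_exp (Real.pi * t) (by positivity) 3
    have a2 : 3 * y ^ (a + 1) ≤ Real.pi * t := by nlinarith [Real.pi_gt_three]
    have a3 : (3 * y ^ (a + 1)) ^ 3 ≤ (Real.pi * t) ^ 3 := by gcongr
    have a4 : (y ^ (a + 3)) ^ 2 ≤ (y ^ (a + 1)) ^ 3 := by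
      rw [← pow_mul, ← pow_mul]; exact hpw _ _ (by omega)
    have a5 : ((Nat.factorial 3 : ℕ) : ℝ) = 6 := by norm_num [Nat.factorial]
    rw [a5] at a1
    have a6 : 0 ≤ (y ^ (a + 1)) ^ 3 := by positivity
    nlinarith
  have hSd := hS _ t ht0 hexp ht4
  set α : ℂ := -σ + t * I with hα
  have hre : α.re = -σ := by simp [hα]
  have him : α.im = t := by simp [hα]
  set X : ℝ := ((Y ^ (a + 3) : ℕ) : ℝ) with hX
  have hXy : y ≤ X := by rw [hm]; simpa using hpw 1 (a + 3) (by omega)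
  have hX0 : 0 < X := by linarith
  have hfl : ⌊X⌋₊ = Y ^ (a + 3) := Nat.floor_natCast _
  have hXr : ∀ u : ℝ, X ^ u = y ^ (A * u) := by
    intro u
    rw [hm, ← Real.rpow_natCast, ← Real.rpow_mul hy0.le, hA]
    push_cast
    rfl
  obtain ⟨δ, ⟨d0, d1, d2, d3, d4⟩, d5⟩ :=
    ((step_delta h0 h1 hX0 hre (him ▸ ht0) (hfl ▸ ht4)).and self_mem_nhdsWithin).exists
  have d5' : 0 < δ := d5
  have hrange : t ≤ C * X ^ (1 - 1 / A) := by
    rw [hXr, show A * (1 - 1 / A) = ((a + 2 : ℕ) : ℝ) by push_cast; field_simp; rw [hA]; ring,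
      Real.rpow_natCast]
    have a1 : (k + 3 : ℝ) ≤ C * y := by
      rw [div_le_iff₀ hC] at hY3; linarith
    calc t ≤ (k + 3) * y ^ (a + 1) := ht2.le
      _ ≤ C * y * y ^ (a + 1) := by gcongr
      _ = C * y ^ (a + 2) := by ring
  refine ⟨X, by linarith, α, -α + δ, hre, ?_, ?_, ?_, ?_, ?_, ?_, ?_, ?_, ?_⟩
  · have a1 : c / σ ≤ Real.log X := by
      rw [Real.le_log_iff_exp_le hX0]; linarith
    have a2 : 0 < c / σ := by positivity
    have a3 : c / Real.log X ≤ σ := by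
      rw [div_le_iff₀ (by linarith)]
      rw [div_le_iff₀ h0] at a1
      linarith
    simp [hre]
    linarith
  · simp [hre]; linarith
  · rw [him, abs_of_pos (by linarith)]; exact hrange
  · simp only [add_im, neg_im, ofReal_im, add_zero, abs_neg]
    rw [him, abs_of_pos (by linarith)]; exact hrange
  · simpa using d5'
  · intro n ho hs hn
    exact d4 n (mem_OS.2 ⟨⟨ho.pos, Nat.le_floor hn⟩, ho, hs⟩)
  · exact (P_bound (by simp; linarith) (by simp [hre]; linarith)).1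
  · exact (P_bound (by simp [hre]; linarith) (by simp; linarith)).1
  -- the main inequality
  set E : ℝ := a * (1 / 2 + σ) with hE
  set Z : ℝ := y ^ (E - 1) with hZ
  have hZ1 : 1 ≤ Z := Real.one_le_rpow hy1 (by rw [hE]; nlinarith)
  have hD : y * Z / 48 ≤ (((Y ^ a : ℕ) : ℝ) / 8) ^ (1 / 2 + σ) / 6 := by
    rw [hN, Real.div_rpow (by positivity) (by norm_num), ← Real.rpow_natCast,
      ← Real.rpow_mul hy0.le, ← hE]
    have a1 : y * Z = y ^ E := by
      rw [hZ, Real.rpow_sub hy0, Real.rpow_one]; field_simp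
    have a2 : (8 : ℝ) ^ (1 / 2 + σ) ≤ 8 := by
      calc (8 : ℝ) ^ (1 / 2 + σ) ≤ 8 ^ (1 : ℝ) :=
            Real.rpow_le_rpow_of_exponent_le (by norm_num) (by linarith)
        _ = 8 := Real.rpow_one _
    have a3 : y ^ E / 8 ≤ y ^ E / 8 ^ (1 / 2 + σ) := by gcongr
    rw [a1]
    linarith
  have hM2 : X ^ (1 + σ) / α.im ≤ Z := by
    rw [him, div_le_iff₀ (by linarith), hXr]
    calc y ^ (A * (1 + σ)) ≤ y ^ (E - 1 + ((a + 1 : ℕ) : ℝ)) := by
          apply Real.rpow_le_rpow_of_exponent_le hy1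
          push_cast
          rw [hA, hE]
          nlinarith
      _ = Z * y ^ (a + 1) := by rw [Real.rpow_add hy0, Real.rpow_natCast]
      _ ≤ Z * t := by gcongr
  have hK : K * X ^ (1 / 2 + 1 / A) ≤ |K| * Z := by
    have a1 : X ^ (1 / 2 + 1 / A) ≤ Z := by
      rw [hXr]
      apply Real.rpow_le_rpow_of_exponent_le hy1
      rw [show A * (1 / 2 + 1 / A) = A / 2 + 1 by field_simp, hA, hE]
      nlinarith
    calc K * X ^ (1 / 2 + 1 / A) ≤ |K| * X ^ (1 / 2 + 1 / A) := by gcongr; exact le_abs_self K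
      _ ≤ |K| * Z := by gcongr
  set G : ℝ := Real.pi ^ (-σ) * ‖Ge α‖ with hG
  have hGg : g₀ ≤ G := by
    rw [hG, hg₀]; gcongr; exact hg α hre
  have hG0 : 0 < G := by linarith
  set V := ‖ES (OS (Y ^ (a + 3))) cf (fun n => -Real.log n) t‖ with hV
  have n1 : ‖S X α (-α)‖ - ‖S X α (-α + δ) - S X α (-α)‖ - ‖M1 X α (-α + δ)‖ -
      ‖M2 X α (-α + δ)‖ ≤ ‖S X α (-α + δ) - M1 X α (-α + δ) - M2 X α (-α + δ)‖ := by
    have e : S X α (-α) = (S X α (-α + δ) - M1 X α (-α + δ) - M2 X α (-α + δ)) -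
        (S X α (-α + δ) - S X α (-α)) + M1 X α (-α + δ) + M2 X α (-α + δ) := by ring
    have b1 := norm_add_le ((S X α (-α + δ) - M1 X α (-α + δ) - M2 X α (-α + δ)) -
        (S X α (-α + δ) - S X α (-α)) + M1 X α (-α + δ)) (M2 X α (-α + δ))
    have b2 := norm_add_le ((S X α (-α + δ) - M1 X α (-α + δ) - M2 X α (-α + δ)) -
        (S X α (-α + δ) - S X α (-α))) (M1 X α (-α + δ))
    have b3 := norm_sub_le (S X α (-α + δ) - M1 X α (-α + δ) - M2 X α (-α + δ))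
        (S X α (-α + δ) - S X α (-α))
    rw [← e] at b1
    linarith
  have n2 : ‖M2 X α (-α + δ)‖ ≤ G * (2 * PB * Z) := d3.trans (by gcongr)
  have n3 : G * (y * Z / 48 - Z) ≤ G * (V - 1) := by gcongr; linarith
  have n4 : (|K| + 2) / g₀ * Z ≤ y * Z / 48 - Z - 2 * PB * Z := by
    have := mul_le_mul_of_nonneg_right hY5 (show 0 ≤ Z by linarith)
    linarith
  have n5 : (|K| + 2) * Z ≤ G * (y * Z / 48 - Z - 2 * PB * Z) := by
    calc (|K| + 2) * Z = g₀ * ((|K| + 2) / g₀ * Z) := by field_simp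
      _ ≤ G * ((|K| + 2) / g₀ * Z) := by gcongr
      _ ≤ _ := by gcongr
  linarith

end Pool.Agent.H464Z.Rat
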