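import Mathlib

/-!
A mean value lower bound for exponential sums, with a compactly supported averaging kernel.
-/

namespace Pool.Agent.H464Z.Rat

open Complex MeasureTheory Set

lemma exists_unif (T : ℝ) (hT : 0 < T) :
    ∃ ν : Measure ℝ, IsProbabilityMeasure ν ∧ (∀ᵐ t ∂ν, t ∈ Icc 0 T) ∧
      ∀ l : ℝ, l ≠ 0 → ‖charFun ν l‖ ≤ 2 / (T * |l|) := by
  refine ⟨(ENNReal.ofReal T)⁻¹ • volume.restrict (Ioc 0 T), ⟨?_⟩, ?_, ?_⟩
  · simp only [Measure.smul_apply, Measure.restrict_apply_univ, Real.volume_Ioc, sub_zero,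
      smul_eq_mul]
    exact ENNReal.inv_mul_cancel (by simpa using hT) ENNReal.ofReal_ne_top
  · apply Measure.ae_smul_measure
    filter_upwards [ae_restrict_mem measurableSet_Ioc] with t ht using Ioc_subset_Icc_self ht
  · intro l hl
    rw [charFun_apply_real, integral_smul_measure, ← intervalIntegral.integral_of_le hT.le]
    have hc : (l : ℂ) * I ≠ 0 := mul_ne_zero (ofReal_ne_zero.2 hl) I_ne_zero
    have h1 : ∫ x in (0 : ℝ)..T, cexp (l * x * I) = ∫ x in (0 : ℝ)..T, cexp ((l * I) * x) := by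
      congr 1; ext x; congr 1; ring
    rw [h1, integral_exp_mul_complex hc, norm_smul, norm_div]
    have h2 : ‖cexp (l * I * T) - cexp (l * I * (0 : ℝ))‖ ≤ 2 := by
      refine (norm_sub_le _ _).trans ?_
      have a1 : ‖cexp (l * I * T)‖ = 1 := by
        rw [show (l : ℂ) * I * T = ((l * T : ℝ) : ℂ) * I by push_cast; ring]
        exact norm_exp_ofReal_mul_I _
      have a2 : ‖cexp (l * I * (0 : ℝ))‖ = 1 := by simp
      rw [a1, a2]; norm_num
    have h3 : ‖(l : ℂ) * I‖ = |l| := by simp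
    have h4 : ‖((ENNReal.ofReal T)⁻¹).toReal‖ = T⁻¹ := by
      rw [ENNReal.toReal_inv, ENNReal.toReal_ofReal hT.le, norm_inv, Real.norm_of_nonneg hT.le]
    rw [h3, h4]
    have h5 : 0 < |l| := abs_pos.2 hl
    calc T⁻¹ * (‖cexp (l * I * T) - cexp (l * I * (0 : ℝ))‖ / |l|) ≤ T⁻¹ * (2 / |l|) := by
          gcongr
      _ = 2 / (T * |l|) := by field_simp

lemma exists_kernel (T₀ T : ℝ) (hT : 0 < T) (k : ℕ) :
    ∃ μ : Measure ℝ, IsProbabilityMeasure μ ∧ (∀ᵐ t ∂μ, t ∈ Icc T₀ (T₀ + k * T)) ∧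
      ∀ l : ℝ, l ≠ 0 → ‖charFun μ l‖ ≤ (2 / (T * |l|)) ^ k := by
  obtain ⟨ν, hν1, hν2, hν3⟩ := exists_unif T hT
  induction k with
  | zero =>
    refine ⟨Measure.dirac T₀, inferInstance, ?_, fun l _ => ?_⟩
    · rw [ae_dirac_iff (by measurability)]
      simp
    · simpa using norm_charFun_le_one (μ := Measure.dirac T₀) l
  | succ k ih =>
    obtain ⟨μ, hμ1, hμ2, hμ3⟩ := ih
    refine ⟨μ ∗ ν, inferInstance, ?_, fun l hl => ?_⟩
    · unfold Measure.conv
      refine (ae_map_iff (by fun_prop) measurableSet_Icc).2 ?_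
      have h1 : ∀ᵐ z ∂(μ.prod ν), z.1 ∈ Icc T₀ (T₀ + k * T) :=
        Measure.quasiMeasurePreserving_fst.ae hμ2
      have h2 : ∀ᵐ z ∂(μ.prod ν), z.2 ∈ Icc 0 T :=
        Measure.quasiMeasurePreserving_snd.ae hν2
      filter_upwards [h1, h2] with z hz1 hz2
      constructor
      · linarith [hz1.1, hz2.1]
      · push_cast
        linarith [hz1.2, hz2.2]
    · rw [charFun_conv, norm_mul, pow_succ]
      exact mul_le_mul (hμ3 l hl) (hν3 l hl) (norm_nonneg _) (by positivity)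

/-- The exponential sum with coefficients `c` and frequencies `f`. -/
noncomputable def ES {ι : Type*} (A : Finset ι) (c : ι → ℂ) (f : ι → ℝ) (t : ℝ) : ℂ :=
  ∑ m ∈ A, c m * cexp (f m * t * I)

lemma ES_continuous {ι : Type*} (A : Finset ι) (c : ι → ℂ) (f : ι → ℝ) :
    Continuous (ES A c f) := by
  unfold ES
  fun_prop

lemma integrable_exp (μ : Measure ℝ) [IsProbabilityMeasure μ] (c : ℂ) (l : ℝ) :
    Integrable (fun t : ℝ => c * cexp (l * t * I)) μ := by
  refine Integrable.const_mul ?_ c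
  refine Integrable.of_bound (by fun_prop) 1 (Filter.Eventually.of_forall fun t => ?_)
  rw [show (l : ℂ) * t * I = ((l * t : ℝ) : ℂ) * I by push_cast; ring]
  exact (norm_exp_ofReal_mul_I _).le

lemma ES_mul {ι : Type*} (A B : Finset ι) (c d : ι → ℂ) (f g : ι → ℝ) (t : ℝ) :
    ES A c f t * ES B d g t =
      ∑ n ∈ B, ∑ m ∈ A, c m * d n * cexp (((f m + g n : ℝ) : ℂ) * t * I) := by
  unfold ES
  rw [mul_comm, Finset.sum_mul_sum]
  refine Finset.sum_congr rfl fun n _ => Finset.sum_congr rfl fun m _ => ?_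
  rw [show ((f m + g n : ℝ) : ℂ) * t * I = f m * t * I + g n * t * I by push_cast; ring, exp_add]
  ring

lemma integrable_ES_mul {ι : Type*} (μ : Measure ℝ) [IsProbabilityMeasure μ] (A B : Finset ι)
    (c d : ι → ℂ) (f g : ι → ℝ) : Integrable (fun t => ES A c f t * ES B d g t) μ := by
  simp_rw [ES_mul]
  exact integrable_finsetSum _ fun n _ => integrable_finsetSum _ fun m _ => integrable_exp μ _ _

lemma integral_ES_mul {ι : Type*} (μ : Measure ℝ) [IsProbabilityMeasure μ] (A B : Finset ι)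
    (c d : ι → ℂ) (f g : ι → ℝ) :
    ∫ t, ES A c f t * ES B d g t ∂μ =
      ∑ n ∈ B, ∑ m ∈ A, c m * d n * charFun μ (f m + g n) := by
  simp_rw [ES_mul]
  rw [integral_finsetSum _ fun n _ => integrable_finsetSum _ fun m _ => integrable_exp μ _ _]
  refine Finset.sum_congr rfl fun n _ => ?_
  rw [integral_finsetSum _ fun m _ => integrable_exp μ _ _]
  refine Finset.sum_congr rfl fun m _ => ?_
  rw [integral_const_mul, charFun_apply_real]

/-- The diagonal part of the integral, up to the off-diagonal error. -/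
lemma integral_diag {ι : Type*} [DecidableEq ι] (μ : Measure ℝ) [IsProbabilityMeasure μ]
    (A B : Finset ι) (hBA : B ⊆ A) (c d : ι → ℂ) (f : ι → ℝ) (W η : ℝ) (hW0 : 0 ≤ W) (hη0 : 0 ≤ η)
    (hW : ∀ m ∈ A, ‖c m‖ ≤ W) (hd : ∀ n ∈ B, ‖d n‖ ≤ 1)
    (hη : ∀ m ∈ A, ∀ n ∈ B, m ≠ n → ‖charFun μ (f m - f n)‖ ≤ η) :
    ‖∫ t, ES A c f t * ES B d (fun n => -f n) t ∂μ - ∑ n ∈ B, c n * d n‖ ≤
      B.card * (A.card * (W * η)) := by
  rw [integral_ES_mul, ← Finset.sum_sub_distrib]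
  refine (norm_sum_le _ _).trans ?_
  rw [← nsmul_eq_mul]
  refine Finset.sum_le_card_nsmul _ _ _ fun n hn => ?_
  rw [← Finset.add_sum_erase A _ (hBA hn)]
  have h0 : charFun μ (f n + -f n) = 1 := by simp
  rw [h0, mul_one, add_sub_cancel_left]
  refine (norm_sum_le _ _).trans ?_
  have h1 : ∀ m ∈ A.erase n, ‖c m * d n * charFun μ (f m + -f n)‖ ≤ W * η := by
    intro m hm
    rw [Finset.mem_erase] at hm
    rw [norm_mul, norm_mul, ← sub_eq_add_neg]
    have a1 := hW m hm.2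
    have a2 := hd n hn
    have a3 := hη m hm.2 n hn hm.1
    calc ‖c m‖ * ‖d n‖ * ‖charFun μ (f m - f n)‖ ≤ W * 1 * η := by gcongr
      _ = W * η := by ring
  refine (Finset.sum_le_card_nsmul _ _ _ h1).trans ?_
  rw [nsmul_eq_mul]
  gcongr
  exact Finset.erase_subset _ _

lemma conj_ES {ι : Type*} (B : Finset ι) (d : ι → ℂ) (f : ι → ℝ) (t : ℝ) :
    (starRingEnd ℂ) (ES B d (fun n => -f n) t) = ES B (fun n => (starRingEnd ℂ) (d n)) f t := by
  unfold ES
  rw [map_sum]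
  refine Finset.sum_congr rfl fun n _ => ?_
  rw [map_mul, ← exp_conj]
  simp

/-- Lower bound for the maximum of an exponential sum on the support of a kernel. -/
lemma mean_lower {ι : Type*} [DecidableEq ι] (μ : Measure ℝ) [IsProbabilityMeasure μ]
    (J : Set ℝ) (hJ : ∀ᵐ t ∂μ, t ∈ J)
    (A B : Finset ι) (hBA : B ⊆ A) (hB : B.Nonempty) (c : ι → ℂ) (f : ι → ℝ) (W v η : ℝ)
    (hv0 : 0 < v) (hη0 : 0 ≤ η)
    (hW : ∀ m ∈ A, ‖c m‖ ≤ W) (hv : ∀ n ∈ B, v ≤ ‖c n‖)
    (hη : ∀ m ∈ A, ∀ n ∈ B, m ≠ n → ‖charFun μ (f m - f n)‖ ≤ η)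
    (hsmall : A.card * (W * η) ≤ v / 2) :
    ∃ t ∈ J, √(B.card) * v / 5 ≤ ‖ES A c f t‖ := by
  by_contra hcon
  push Not at hcon
  obtain ⟨n₀, hn₀⟩ := hB
  have hvW : v ≤ W := (hv n₀ hn₀).trans (hW n₀ (hBA hn₀))
  have hW0 : 0 < W := hv0.trans_le hvW
  set d : ι → ℂ := fun n => (starRingEnd ℂ) (c n) / (‖c n‖ : ℂ) with hd
  have hcn : ∀ n ∈ B, 0 < ‖c n‖ := fun n hn => hv0.trans_le (hv n hn)
  have hd1 : ∀ n ∈ B, ‖d n‖ = 1 := by
    intro n hn
    simp only [hd, norm_div, RCLike.norm_conj, norm_real, norm_norm]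
    exact div_self (hcn n hn).ne'
  set G := ES B d (fun n => -f n) with hG
  set R : ℝ := (B.card : ℝ) with hR
  have hRpos : 0 < R := by
    rw [hR]; exact_mod_cast Finset.card_pos.2 ⟨n₀, hn₀⟩
  set r := √R with hr
  have hr0 : 0 < r := Real.sqrt_pos.2 hRpos
  have hrr : r * r = R := Real.mul_self_sqrt hRpos.le
  -- first integral
  have h1 := integral_diag μ A B hBA c d f W η hW0.le hη0 hW (fun n hn => (hd1 n hn).le) hη
  have h1d : ∑ n ∈ B, c n * d n = ((∑ n ∈ B, ‖c n‖ : ℝ) : ℂ) := by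
    push_cast
    refine Finset.sum_congr rfl fun n hn => ?_
    have : (‖c n‖ : ℂ) ≠ 0 := ofReal_ne_zero.2 (hcn n hn).ne'
    simp only [hd]
    rw [← mul_div_assoc, mul_conj, normSq_eq_norm_sq]
    push_cast
    field_simp
  have h1s : R * v ≤ ∑ n ∈ B, ‖c n‖ := by
    have := Finset.card_nsmul_le_sum B (fun n => ‖c n‖) v hv
    rwa [nsmul_eq_mul] at this
  have h1l : R * v / 2 ≤ ‖∫ t, ES A c f t * G t ∂μ‖ := by
    have a1 : ‖∑ n ∈ B, c n * d n‖ = ∑ n ∈ B, ‖c n‖ := by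
      rw [h1d, norm_real, Real.norm_of_nonneg (Finset.sum_nonneg fun _ _ => norm_nonneg _)]
    have a2 := norm_sub_norm_le (∑ n ∈ B, c n * d n) (∫ t, ES A c f t * G t ∂μ)
    rw [norm_sub_rev] at a2
    have a3 : R * (A.card * (W * η)) ≤ R * (v / 2) := by gcongr
    linarith
  -- second integral
  have hBη : R * η ≤ 1 := by
    have a1 : R ≤ A.card := by rw [hR]; exact_mod_cast Finset.card_le_card hBA
    have a2 : R * (W * η) ≤ v / 2 := le_trans (by gcongr) hsmall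
    have a3 : W * (R * η) ≤ W * 1 := by nlinarith
    exact le_of_mul_le_mul_left a3 hW0
  have h2 := integral_diag μ B B (Finset.Subset.refl _) (fun n => (starRingEnd ℂ) (d n)) d f 1 η
    zero_le_one hη0 (fun n hn => by rw [RCLike.norm_conj]; exact (hd1 n hn).le)
    (fun n hn => (hd1 n hn).le) (fun m hm n hn => hη m (hBA hm) n hn)
  have h2e : ∀ t, ES B (fun n => (starRingEnd ℂ) (d n)) f t * G t = ((‖G t‖ ^ 2 : ℝ) : ℂ) := by
    intro t
    rw [← conj_ES, ← hG, mul_comm, mul_conj, normSq_eq_norm_sq]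
  have h2i : Integrable (fun t => ‖G t‖ ^ 2) μ := by
    have := integrable_ES_mul μ B B (fun n => (starRingEnd ℂ) (d n)) d f (fun n => -f n)
    simp_rw [← hG, h2e] at this
    exact this.re
  have h2d : ‖∑ n ∈ B, (starRingEnd ℂ) (d n) * d n‖ ≤ R := by
    refine (norm_sum_le _ _).trans ?_
    rw [hR, ← mul_one (B.card : ℝ), ← nsmul_eq_mul]
    refine Finset.sum_le_card_nsmul _ _ _ fun n hn => ?_
    rw [norm_mul, RCLike.norm_conj, hd1 n hn, mul_one]
  have h2u : ∫ t, ‖G t‖ ^ 2 ∂μ ≤ 2 * R := by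
    simp_rw [← hG, h2e] at h2
    rw [integral_complex_ofReal] at h2
    have a1 := norm_sub_norm_le (((∫ t, ‖G t‖ ^ 2 ∂μ : ℝ)) : ℂ)
      (∑ n ∈ B, (starRingEnd ℂ) (d n) * d n)
    have a2 : ∫ t, ‖G t‖ ^ 2 ∂μ ≤ ‖(((∫ t, ‖G t‖ ^ 2 ∂μ : ℝ)) : ℂ)‖ := by
      rw [norm_real]; exact le_abs_self _
    have a3 : R * (R * (1 * η)) ≤ R * 1 := by
      rw [one_mul]; gcongr
    have a4 := a1.trans h2
    linarith
  -- combine
  set M := r * v / 5 with hM
  have hM0 : 0 < M := by positivity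
  have h3 : ‖∫ t, ES A c f t * G t ∂μ‖ ≤ ∫ t, (M / (2 * r) * ‖G t‖ ^ 2 + M * r / 2) ∂μ := by
    refine norm_integral_le_of_norm_le ((h2i.const_mul _).add (integrable_const _)) ?_
    filter_upwards [hJ] with t ht
    rw [norm_mul]
    have a1 := (hcon t ht).le
    have a2 : ‖G t‖ ≤ ‖G t‖ ^ 2 / (2 * r) + r / 2 := by
      rw [div_add_div _ _ (by positivity) (by positivity), le_div_iff₀ (by positivity)]
      nlinarith [sq_nonneg (‖G t‖ - r)]
    calc ‖ES A c f t‖ * ‖G t‖ ≤ M * (‖G t‖ ^ 2 / (2 * r) + r / 2) := by gcongr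
      _ = M / (2 * r) * ‖G t‖ ^ 2 + M * r / 2 := by ring
  rw [integral_add (h2i.const_mul _) (integrable_const _), integral_const_mul] at h3
  simp only [integral_const, probReal_univ, smul_eq_mul, one_mul] at h3
  have h4 : M / (2 * r) * ∫ t, ‖G t‖ ^ 2 ∂μ ≤ M / (2 * r) * (2 * R) := by gcongr
  have h5 : M / (2 * r) * (2 * R) = M * r := by rw [← hrr]; field_simp
  have h6 : M * r = R * v / 5 := by rw [hM, ← hrr]; ring
  have h7 : 0 < R * v := by positivity
  linarith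

lemma log_spacing {m n N : ℕ} (hm : 0 < m) (hn : 0 < n) (hN : n ≤ N) (hmn : m ≠ n) :
    1 / (2 * (N : ℝ)) ≤ |Real.log m - Real.log n| := by
  have hm' : (0 : ℝ) < m := by exact_mod_cast hm
  have hn' : (1 : ℝ) ≤ n := by exact_mod_cast hn
  have hN' : (n : ℝ) ≤ N := by exact_mod_cast hN
  rcases lt_or_gt_of_ne hmn with h | h
  · have h' : (m : ℝ) + 1 ≤ n := by exact_mod_cast h
    rw [abs_sub_comm, ← Real.log_div (by positivity) hm'.ne']
    refine le_trans ?_ (le_abs_self _)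
    refine le_trans ?_ (Real.one_sub_inv_le_log_of_pos (by positivity))
    rw [inv_div, one_sub_div (by positivity), div_le_div_iff₀ (by linarith) (by linarith)]
    nlinarith
  · have h' : (n : ℝ) + 1 ≤ m := by exact_mod_cast h
    rw [← Real.log_div hm'.ne' (by positivity)]
    refine le_trans ?_ (le_abs_self _)
    refine le_trans ?_ (Real.one_sub_inv_le_log_of_pos (by positivity))
    rw [inv_div, one_sub_div hm'.ne', div_le_div_iff₀ (by linarith) hm']
    nlinarith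

end Pool.Agent.H464Z.Rat
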