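import Pool.Agent.H464Z.RatChar
import Pool.Agent.H464Z.RatMean
import Pool.Agent.H464Z.RatGamma

/-!
Evaluation of the sum at `β = -α` and perturbation in `β`.
-/

namespace Pool.Agent.H464Z.Rat

open Complex Filter Topology

/-- the odd squarefree numbers up to `m` -/
def OS (m : ℕ) : Finset ℕ := (Finset.Icc 1 m).filter fun n => Odd n ∧ Squarefree n

lemma mem_OS {m n : ℕ} : n ∈ OS m ↔ (1 ≤ n ∧ n ≤ m) ∧ Odd n ∧ Squarefree n := by
  simp [OS]

lemma S_eq (X : ℝ) (α β : ℂ) :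
    S X α β = ∑ n ∈ OS ⌊X⌋₊, L n (1 / 2 + α) * (L n (1 / 2 + β))⁻¹ := by
  unfold S OS
  rw [← Finset.filter_filter, Finset.sum_filter (p := Squarefree)]
  refine Finset.sum_congr rfl fun n _ => ?_
  have h : ((ArithmeticFunction.moebius n : ℤ) : ℂ) ^ 2 = if Squarefree n then 1 else 0 := by
    have := ArithmeticFunction.moebius_sq (n := n)
    have h2 : (((ArithmeticFunction.moebius n) ^ 2 : ℤ) : ℂ) =
        ((if Squarefree n then 1 else 0 : ℤ) : ℂ) := by rw [this]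
    push_cast at h2
    exact h2
  rw [h]
  split_ifs <;> simp

lemma zeta_inv_tendsto : Tendsto (fun δ : ℝ => (riemannZeta (1 + δ))⁻¹) (𝓝[>] 0) (𝓝 0) := by
  have h0 : Tendsto (fun δ : ℝ => (1 + δ : ℂ)) (𝓝[>] 0) (𝓝[≠] 1) := by
    refine tendsto_nhdsWithin_iff.2 ⟨?_, ?_⟩
    · have : Continuous fun δ : ℝ => (1 + δ : ℂ) := by fun_prop
      simpa using (this.tendsto 0).mono_left nhdsWithin_le_nhds
    · filter_upwards [self_mem_nhdsWithin] with δ hδ
      simpa using (ne_of_gt hδ)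
  have h1 := (riemannZeta_residue_one.comp h0).inv₀ one_ne_zero
  have h2 : Tendsto (fun δ : ℝ => (δ : ℂ)) (𝓝[>] 0) (𝓝 0) := by
    simpa using (continuous_ofReal.tendsto 0).mono_left nhdsWithin_le_nhds
  have h3 := h2.mul h1
  rw [zero_mul] at h3
  refine h3.congr' ?_
  filter_upwards [self_mem_nhdsWithin] with δ hδ
  have : (δ : ℂ) ≠ 0 := ofReal_ne_zero.2 (ne_of_gt hδ)
  simp only [Function.comp, add_sub_cancel_left, mul_inv]
  field_simp

lemma norm_zeta_two : 1 ≤ ‖riemannZeta 2‖ := by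
  rw [riemannZeta_two, norm_div, norm_pow, norm_real, Real.norm_of_nonneg Real.pi_pos.le]
  have : ‖(6 : ℂ)‖ = 6 := by simp
  rw [this, le_div_iff₀ (by norm_num)]
  nlinarith [Real.pi_gt_three]

lemma norm_cot_le {α : ℂ} (ht : 1 ≤ α.im) : ‖1 + cot (Real.pi * (1 / 4 + α / 2))‖ ≤ 3 := by
  have h := cot_near ht
  have h2 : Real.exp (-(Real.pi * α.im)) ≤ 1 / 4 := by
    rw [Real.exp_neg, one_div]
    apply inv_anti₀ (by norm_num)
    have := Real.add_one_le_exp (Real.pi * α.im)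
    nlinarith [Real.pi_gt_three]
  have h3 : 1 + cot (Real.pi * (1 / 4 + α / 2)) =
      1 + (cot (Real.pi * (1 / 4 + α / 2)) + I) - I := by ring
  rw [h3]
  refine (norm_sub_le _ _).trans ?_
  have := norm_add_le (1 : ℂ) (cot (Real.pi * (1 / 4 + α / 2)) + I)
  rw [norm_one] at this
  rw [norm_I]
  linarith

lemma step_delta {σ X : ℝ} (h0 : 0 < σ) (h1 : σ < 1 / 4) (hX : 0 < X) {α : ℂ} (hα : α.re = -σ)
    (ht : 1 ≤ α.im) (hL : ∀ n ∈ OS ⌊X⌋₊, L n (1 / 2 - α) ≠ 0) :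
    ∀ᶠ δ : ℝ in 𝓝[>] 0, δ < 1 / 4 - σ ∧ ‖S X α (-α + δ) - S X α (-α)‖ < 1 ∧
      ‖M1 X α (-α + δ)‖ < 1 ∧
      ‖M2 X α (-α + δ)‖ ≤ Real.pi ^ (-σ) * ‖Ge α‖ * (2 * PB * (X ^ (1 + σ) / α.im)) ∧
      ∀ n ∈ OS ⌊X⌋₊, L n (1 / 2 + (-α + δ)) ≠ 0 := by
  have hs1 : (1 / 2 - α : ℂ) ≠ 1 := by
    intro h
    have := congrArg re h
    simp [hα] at this
    linarith
  have hd : Tendsto (fun δ : ℝ => (δ : ℂ)) (𝓝[>] 0) (𝓝 0) := by
    simpa using (continuous_ofReal.tendsto 0).mono_left nhdsWithin_le_nhds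
  have hLc : ∀ n, Tendsto (fun δ : ℝ => L n (1 / 2 + (-α + δ))) (𝓝[>] 0) (𝓝 (L n (1 / 2 - α))) := by
    intro n
    refine (L_differentiableAt n hs1).continuousAt.tendsto.comp ?_
    have := (hd.const_add (-α)).const_add (1 / 2)
    simpa [sub_eq_add_neg] using this
  have e0 : ∀ᶠ δ : ℝ in 𝓝[>] 0, δ < 1 / 4 - σ :=
    (eventually_lt_nhds (by linarith)).filter_mono nhdsWithin_le_nhds
  have e1 : ∀ᶠ δ : ℝ in 𝓝[>] 0, ‖S X α (-α + δ) - S X α (-α)‖ < 1 := by
    have : Tendsto (fun δ : ℝ => S X α (-α + δ)) (𝓝[>] 0) (𝓝 (S X α (-α))) := by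
      simp_rw [S_eq]
      refine tendsto_finsetSum _ fun n hn => Tendsto.const_mul _ ?_
      rw [← sub_eq_add_neg]
      exact (hLc n).inv₀ (hL n hn)
    have h2 := tendsto_iff_norm_sub_tendsto_zero.1 this
    exact h2.eventually (eventually_lt_nhds one_pos)
  have hP1 : ∀ δ : ℝ, 0 < δ → δ < 1 / 4 - σ → ‖P α (-α + δ)‖ ≤ PB := fun δ a b =>
    (P_bound (by simp; linarith) (by simp [hα]; linarith)).2
  have hP2 : ∀ δ : ℝ, 0 < δ → δ < 1 / 4 - σ → ‖P (-α) (-α + δ)‖ ≤ PB := fun δ a b =>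
    (P_bound (by simp [hα]; linarith) (by simp; linarith)).2
  have e2 : ∀ᶠ δ : ℝ in 𝓝[>] 0, ‖M1 X α (-α + δ)‖ < 1 := by
    have h2 := (zeta_inv_tendsto.norm.const_mul
      (‖2 * (X : ℂ) * riemannZeta (1 + 2 * α) / (3 * riemannZeta 2)‖ * PB))
    rw [norm_zero, mul_zero] at h2
    filter_upwards [h2.eventually (eventually_lt_nhds one_pos), e0, self_mem_nhdsWithin]
      with δ a b c
    refine lt_of_le_of_lt ?_ a
    have : M1 X α (-α + δ) = 2 * (X : ℂ) * riemannZeta (1 + 2 * α) / (3 * riemannZeta 2) *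
        P α (-α + δ) * (riemannZeta (1 + δ))⁻¹ := by
      rw [M1, show 1 + α + (-α + δ) = 1 + δ by ring]
      ring
    rw [this, norm_mul, norm_mul]
    gcongr
    exact hP1 δ c b
  have e3 : ∀ᶠ δ : ℝ in 𝓝[>] 0,
      ‖riemannZeta (1 - 2 * α) * (riemannZeta (1 - 2 * α + δ))⁻¹‖ < 2 := by
    have hre : 1 < (1 - 2 * α).re := by simp [hα]; linarith
    have hne : riemannZeta (1 - 2 * α) ≠ 0 := riemannZeta_ne_zero_of_one_lt_re hre
    have hn1 : 1 - 2 * α ≠ 1 := by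
      intro h; rw [h] at hre; simp at hre
    have a1 : Tendsto (fun δ : ℝ => riemannZeta (1 - 2 * α + δ)) (𝓝[>] 0)
        (𝓝 (riemannZeta (1 - 2 * α))) := by
      refine (differentiableAt_riemannZeta hn1).continuousAt.tendsto.comp ?_
      simpa using hd.const_add (1 - 2 * α)
    have a2 := ((a1.inv₀ hne).const_mul (riemannZeta (1 - 2 * α))).norm
    rw [mul_inv_cancel₀ hne, norm_one] at a2
    exact a2.eventually (eventually_lt_nhds one_lt_two)
  have e4 : ∀ᶠ δ : ℝ in 𝓝[>] 0, ∀ n ∈ OS ⌊X⌋₊, L n (1 / 2 + (-α + δ)) ≠ 0 := by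
    rw [eventually_all_finset]
    exact fun n hn => (hLc n).eventually_ne (hL n hn)
  filter_upwards [e0, e1, e2, e3, e4, self_mem_nhdsWithin] with δ a0 a1 a2 a3 a4 a5
  refine ⟨a0, a1, a2, ?_, a4⟩
  have hM : M2 X α (-α + δ) = (Real.pi : ℂ) ^ α * Ge α * ((X : ℂ) ^ (1 - α) * (1 - α)⁻¹ *
      (P (-α) (-α + δ) * (riemannZeta (1 - 2 * α) * (riemannZeta (1 - 2 * α + δ))⁻¹) *
        ((1 + cot (Real.pi * (1 / 4 + α / 2))) * (3 * riemannZeta 2)⁻¹))) := by
    rw [M2, Go_eq (by linarith) (by linarith), show 1 + (-α + δ) - α = 1 - 2 * α + δ by ring]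
    simp only [mul_inv, div_eq_mul_inv]
    ring
  have b1 : ‖(Real.pi : ℂ) ^ α‖ = Real.pi ^ (-σ) := by
    rw [norm_cpow_eq_rpow_re_of_pos Real.pi_pos, hα]
  have b2 : ‖(X : ℂ) ^ (1 - α)‖ = X ^ (1 + σ) := by
    rw [norm_cpow_eq_rpow_re_of_pos hX]; simp [hα]
  have b3 : ‖(1 - α)⁻¹‖ ≤ α.im⁻¹ := by
    rw [norm_inv]
    apply inv_anti₀ (by linarith)
    have := abs_im_le_norm (1 - α)
    simp only [sub_im, one_im, zero_sub, abs_neg] at this
    exact (le_abs_self _).trans this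
  have b4 : ‖(1 + cot (Real.pi * (1 / 4 + α / 2))) * (3 * riemannZeta 2)⁻¹‖ ≤ 1 := by
    rw [norm_mul, norm_inv, norm_mul, ← div_eq_mul_inv]
    have : ‖(3 : ℂ)‖ = 3 := by simp
    rw [this, div_le_one (by linarith [norm_zeta_two])]
    linarith [norm_zeta_two, norm_cot_le ht]
  have b5 := hP2 δ a5 a0
  have b6 := PB_pos
  rw [hM, norm_mul, norm_mul, b1, norm_mul, norm_mul, b2, norm_mul, norm_mul]
  have b7 : 0 < α.im := by linarith
  calc _ ≤ Real.pi ^ (-σ) * ‖Ge α‖ * (X ^ (1 + σ) * α.im⁻¹ * (PB * 2 * 1)) := by gcongr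
    _ = _ := by ring

/-- The sum at `β = -α` is, up to the gamma factor and an error at most one, an exponential sum
whose coefficients have modulus `n ^ σ`. -/
lemma S_diag {σ : ℝ} (h0 : 0 < σ) (h1 : σ < 1 / 4) :
    ∃ c : ℕ → ℂ, (∀ n, Odd n → Squarefree n → ‖c n‖ = (n : ℝ) ^ σ) ∧
      ∀ (m : ℕ) (t : ℝ), 1 ≤ t → 4 * (m : ℝ) ^ 2 ≤ Real.exp (Real.pi * t) →
        (∀ n ∈ OS m, L n (1 / 2 - (-σ + t * I)) ≠ 0) →
        Real.pi ^ (-σ) * ‖Ge (-σ + t * I)‖ * (‖ES (OS m) c (fun n => -Real.log n) t‖ - 1) ≤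
          ‖S m (-σ + t * I) (-(-σ + t * I))‖ := by
  classical
  choose! e b he hfe using fe
  refine ⟨fun n => e n * ((n : ℝ) ^ σ : ℝ) * (if b n then 1 else -I), fun n ho hs => ?_,
    fun m t ht hm hL => ?_⟩
  · rw [norm_mul, norm_mul, he n ho hs, norm_real, Real.norm_of_nonneg (by positivity)]
    split_ifs <;> simp
  set α : ℂ := -σ + t * I with hα
  have hre : α.re = -σ := by simp [hα]
  have him : α.im = t := by simp [hα]
  set ρ := cot (Real.pi * (1 / 4 + α / 2)) with hρ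
  have hS : S m α (-α) = (Real.pi : ℂ) ^ α * Ge α *
      ∑ n ∈ OS m, e n * (n : ℂ) ^ (-α) * (if b n then 1 else ρ) := by
    rw [S_eq, Nat.floor_natCast, Finset.mul_sum]
    refine Finset.sum_congr rfl fun n hn => ?_
    obtain ⟨-, ho, hs⟩ := mem_OS.1 hn
    rw [hfe n ho hs α (by linarith) (by linarith), ← sub_eq_add_neg,
      mul_inv_cancel_right₀ (hL n hn), Go_eq (by linarith) (by linarith)]
    split_ifs <;> ring
  have hE : ‖ES (OS m) (fun n => e n * ((n : ℝ) ^ σ : ℝ) * (if b n then 1 else -I))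
      (fun n => -Real.log n) t -
      ∑ n ∈ OS m, e n * (n : ℂ) ^ (-α) * (if b n then 1 else ρ)‖ ≤ 1 := by
    unfold ES
    rw [← Finset.sum_sub_distrib]
    refine (norm_sum_le _ _).trans ?_
    have hc := cot_near (α := α) (by rw [him]; exact ht)
    rw [him, ← hρ] at hc
    have hterm : ∀ n ∈ OS m, ‖e n * ((n : ℝ) ^ σ : ℝ) * (if b n then 1 else -I) *
        cexp (((-Real.log n : ℝ) : ℂ) * t * I) - e n * (n : ℂ) ^ (-α) * (if b n then 1 else ρ)‖ ≤
        m * (4 * Real.exp (-(Real.pi * t))) := by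
      intro n hn
      obtain ⟨⟨hn1, hnm⟩, ho, hs⟩ := mem_OS.1 hn
      have hn0 : (0 : ℝ) < n := by exact_mod_cast hn1
      have hn1' : (1 : ℝ) ≤ n := by exact_mod_cast hn1
      have hpow : (n : ℂ) ^ (-α) = ((n : ℝ) ^ σ : ℝ) * cexp (((-Real.log n : ℝ) : ℂ) * t * I) := by
        rw [Real.rpow_def_of_pos hn0, ofReal_exp, ← exp_add,
          cpow_def_of_ne_zero (by exact_mod_cast hn0.ne'), ← natCast_log, hα]
        congr 1
        push_cast
        ring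
      have hno : ‖(n : ℂ) ^ (-α)‖ ≤ m := by
        rw [norm_natCast_cpow_of_pos hn1]
        calc (n : ℝ) ^ (-α).re ≤ (n : ℝ) ^ (1 : ℝ) :=
              Real.rpow_le_rpow_of_exponent_le hn1' (by simp [hre]; linarith)
          _ ≤ m := by rw [Real.rpow_one]; exact_mod_cast hnm
      rw [show e n * ((n : ℝ) ^ σ : ℝ) * (if b n then 1 else -I) *
          cexp (((-Real.log n : ℝ) : ℂ) * t * I) - e n * (n : ℂ) ^ (-α) * (if b n then 1 else ρ) =
          e n * (n : ℂ) ^ (-α) * ((if b n then 1 else -I) - (if b n then 1 else ρ)) by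
        rw [hpow]; ring]
      rw [norm_mul, norm_mul, he n ho hs, one_mul]
      gcongr
      split_ifs
      · simp; positivity
      · rw [show -I - ρ = -(ρ + I) by ring, norm_neg]; exact hc
    refine (Finset.sum_le_card_nsmul _ _ _ hterm).trans ?_
    have hcard : ((OS m).card : ℝ) ≤ m := by
      have : (OS m).card ≤ (Finset.Icc 1 m).card := Finset.card_filter_le _ _
      simp only [Nat.card_Icc, add_tsub_cancel_right] at this
      exact_mod_cast this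
    rw [nsmul_eq_mul]
    calc ((OS m).card : ℝ) * (m * (4 * Real.exp (-(Real.pi * t)))) ≤
          m * (m * (4 * Real.exp (-(Real.pi * t)))) := by gcongr
      _ = 4 * (m : ℝ) ^ 2 / Real.exp (Real.pi * t) := by rw [Real.exp_neg]; ring
      _ ≤ 1 := (div_le_one (Real.exp_pos _)).2 hm
  rw [hS, norm_mul, norm_mul, norm_cpow_eq_rpow_re_of_pos Real.pi_pos, hre]
  gcongr
  have := norm_sub_norm_le (ES (OS m) (fun n => e n * ((n : ℝ) ^ σ : ℝ) * (if b n then 1 else -I))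
      (fun n => -Real.log n) t) (∑ n ∈ OS m, e n * (n : ℂ) ^ (-α) * (if b n then 1 else ρ))
  linarith

end Pool.Agent.H464Z.Rat
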