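import Mathlib

/-!
Sampling inequality used for the exotic theta relation.
-/

namespace Pool.Agent.H464Z.Theta

open MeasureTheory Set Filter Topology

lemma cs_weight {k y b : ℝ} (hy : 0 < y) (hyb : y ≤ b) {f : ℝ → ℝ} (hf : Continuous f) :
    (∫ t in y..b, f t) ^ 2 ≤ (∫ t in y..b, t ^ (-k)) * ∫ t in y..b, t ^ k * f t ^ 2 := by
  have hpos : ∀ t ∈ uIcc y b, 0 < t := by
    intro t ht
    rw [uIcc_of_le hyb] at ht
    exact hy.trans_le ht.1
  have c1 : ∀ r : ℝ, ContinuousOn (fun t : ℝ => t ^ r) (uIcc y b) := fun r =>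
    continuousOn_id.rpow_const fun t ht => Or.inl (hpos t ht).ne'
  have i1 : IntervalIntegrable (fun t : ℝ => t ^ (-k)) volume y b := (c1 _).intervalIntegrable
  have i2 : IntervalIntegrable f volume y b := hf.intervalIntegrable _ _
  have i3 : IntervalIntegrable (fun t : ℝ => t ^ k * f t ^ 2) volume y b :=
    ((c1 _).mul (hf.pow 2).continuousOn).intervalIntegrable
  have key : ∀ c : ℝ, 0 ≤ (∫ t in y..b, t ^ (-k)) * (c * c) + (-2 * ∫ t in y..b, f t) * c +
      ∫ t in y..b, t ^ k * f t ^ 2 := by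
    intro c
    have h1 : (∫ t in y..b, t ^ (-k)) * (c * c) + (-2 * ∫ t in y..b, f t) * c +
        ∫ t in y..b, t ^ k * f t ^ 2 =
        ∫ t in y..b, (t ^ (-k) * (c * c) + (-2 * c) * f t + t ^ k * f t ^ 2) := by
      rw [intervalIntegral.integral_add ((i1.mul_const _).add (i2.const_mul _)) i3,
        intervalIntegral.integral_add (i1.mul_const _) (i2.const_mul _),
        intervalIntegral.integral_mul_const, intervalIntegral.integral_const_mul]
      ring
    rw [h1]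
    refine intervalIntegral.integral_nonneg hyb fun t ht => ?_
    have ht0 : 0 < t := hy.trans_le ht.1
    have hw : 0 < t ^ k := Real.rpow_pos_of_pos ht0 _
    rw [Real.rpow_neg ht0.le]
    have : (t ^ k)⁻¹ * (c * c) + -2 * c * f t + t ^ k * f t ^ 2 =
        (t ^ k)⁻¹ * (c - t ^ k * f t) ^ 2 := by field_simp; ring
    rw [this]
    positivity
  have := discrim_le_zero key
  rw [discrim] at this
  nlinarith

section

variable {k : ℝ} {h h' : ℝ → ℝ}

lemma cont_w (hk : 0 < k) {f : ℝ → ℝ} (hf : Continuous f) :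
    Continuous fun t : ℝ => t ^ k * f t ^ 2 :=
  (Real.continuous_rpow_const hk.le).mul (hf.pow 2)

lemma diff_le (hk : 0 < k) (hd : ∀ y, HasDerivAt h (h' y) y) (hc : Continuous h') {a y b : ℝ}
    (ha : 0 ≤ a) (hy : 0 < y) (hay : a ≤ y) (hyb : y ≤ b) :
    (h b - h y) ^ 2 ≤ (∫ t in y..b, t ^ (-k)) * ∫ t in a..b, t ^ k * h' t ^ 2 := by
  rw [← intervalIntegral.integral_eq_sub_of_hasDerivAt (fun t _ => hd t)
    (hc.intervalIntegrable _ _)]
  refine (cs_weight (k := k) hy hyb hc).trans ?_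
  refine mul_le_mul_of_nonneg_left ?_
    (intervalIntegral.integral_nonneg hyb fun t ht => Real.rpow_nonneg (hy.le.trans ht.1) _)
  rw [← intervalIntegral.integral_add_adjacent_intervals (a := a) (b := y) (c := b)
    ((cont_w hk hc).intervalIntegrable _ _) ((cont_w hk hc).intervalIntegrable _ _)]
  have : 0 ≤ ∫ t in a..y, t ^ k * h' t ^ 2 :=
    intervalIntegral.integral_nonneg hay fun t ht =>
      mul_nonneg (Real.rpow_nonneg (ha.trans ht.1) _) (sq_nonneg _)
  linarith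

lemma local_le (hk : 0 < k) (hd : ∀ y, HasDerivAt h (h' y) y) (hc : Continuous h') {a b κ : ℝ}
    (ha : 0 ≤ a) (hab : a ≤ b) (hκ0 : 0 ≤ κ)
    (hκ : ∀ y, 0 < y → a ≤ y → y ≤ b → y ^ k * ∫ t in y..b, t ^ (-k) ≤ κ) :
    ∫ t in a..b, t ^ k * h t ^ 2 ≤
      2 * ((b - a) * b ^ k) * h b ^ 2 + 2 * ((b - a) * κ) * ∫ t in a..b, t ^ k * h' t ^ 2 := by
  have hh : Continuous h := continuous_iff_continuousAt.2 fun y => (hd y).continuousAt
  set E := ∫ t in a..b, t ^ k * h' t ^ 2 with hE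
  have hE0 : 0 ≤ E := intervalIntegral.integral_nonneg hab fun t ht =>
      mul_nonneg (Real.rpow_nonneg (ha.trans ht.1) _) (sq_nonneg _)
  have hb0 : 0 ≤ b ^ k := Real.rpow_nonneg (ha.trans hab) _
  have h1 : ∫ t in a..b, t ^ k * h t ^ 2 ≤ ∫ _t in a..b, (2 * b ^ k * h b ^ 2 + 2 * κ * E) := by
    refine intervalIntegral.integral_mono_on hab ((cont_w hk hh).intervalIntegrable _ _)
      (by simp) fun y hy => ?_
    rcases (ha.trans hy.1).eq_or_lt with h0 | h0
    · rw [← h0, Real.zero_rpow hk.ne', zero_mul]; positivity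
    · have a1 := diff_le hk hd hc ha h0 hy.1 hy.2
      have a2 := hκ y h0 hy.1 hy.2
      have a3 : y ^ k ≤ b ^ k := Real.rpow_le_rpow h0.le hy.2 hk.le
      have a4 : 0 ≤ y ^ k := Real.rpow_nonneg h0.le _
      have a5 : h y ^ 2 ≤ 2 * h b ^ 2 + 2 * (h b - h y) ^ 2 := by nlinarith [sq_nonneg (2 * h b - h y)]
      have a6 : y ^ k * (h b - h y) ^ 2 ≤ κ * E := by
        calc y ^ k * (h b - h y) ^ 2 ≤ y ^ k * ((∫ t in y..b, t ^ (-k)) * E) := by gcongr
          _ = (y ^ k * ∫ t in y..b, t ^ (-k)) * E := by ring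
          _ ≤ κ * E := by gcongr
      have a7 : y ^ k * h b ^ 2 ≤ b ^ k * h b ^ 2 := by gcongr
      calc y ^ k * h y ^ 2 ≤ y ^ k * (2 * h b ^ 2 + 2 * (h b - h y) ^ 2) := by gcongr
        _ = 2 * (y ^ k * h b ^ 2) + 2 * (y ^ k * (h b - h y) ^ 2) := by ring
        _ ≤ _ := by linarith
  rw [intervalIntegral.integral_const, smul_eq_mul] at h1
  linarith

end

lemma int_neg_le {k y b : ℝ} (hk : 1 < k) (hy : 0 < y) (hyb : y ≤ b) :
    ∫ t in y..b, t ^ (-k) ≤ y ^ (1 - k) / (k - 1) := by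
  rw [integral_rpow (Or.inr ⟨by linarith, by
    rw [uIcc_of_le hyb]; intro h; exact absurd h.1 (not_le.2 hy)⟩)]
  have h1 : 0 ≤ b ^ (-k + 1) := Real.rpow_nonneg (hy.le.trans hyb) _
  rw [show (b ^ (-k + 1) - y ^ (-k + 1)) / (-k + 1) = (y ^ (-k + 1) - b ^ (-k + 1)) / (k - 1) by
    rw [← neg_div_neg_eq]; congr 1 <;> ring, show 1 - k = -k + 1 by ring]
  gcongr
  linarith

lemma int_neg_le' {k a y b : ℝ} (hk : 0 < k) (ha : 0 < a) (hay : a ≤ y) (hyb : y ≤ b) :
    ∫ t in y..b, t ^ (-k) ≤ (b - a) * a ^ (-k) := by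
  have hy : 0 < y := ha.trans_le hay
  have h1 : ∫ t in y..b, t ^ (-k) ≤ ∫ _t in y..b, a ^ (-k) := by
    refine intervalIntegral.integral_mono_on hyb ?_ (by simp) fun t ht => ?_
    · refine (continuousOn_id.rpow_const fun t ht => Or.inl ?_).intervalIntegrable
      rw [uIcc_of_le hyb] at ht
      exact (hy.trans_le ht.1).ne'
    · exact Real.rpow_le_rpow_of_nonpos ha (hay.trans ht.1) (by linarith)
  rw [intervalIntegral.integral_const, smul_eq_mul] at h1
  refine h1.trans ?_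
  have : 0 ≤ a ^ (-k) := Real.rpow_nonneg ha.le _
  gcongr

lemma gap_le {p m : ℝ} (hp : p ≤ 1) (hm : 1 ≤ m) :
    (m + 1) ^ p ≤ m ^ p + m ^ p / m := by
  have hm0 : 0 < m := by linarith
  have h1 : m + 1 = m * (1 + 1 / m) := by field_simp
  have h2 : (1 + 1 / m) ^ p ≤ 1 + 1 / m := by
    have : 0 ≤ 1 / m := by positivity
    calc (1 + 1 / m) ^ p ≤ (1 + 1 / m) ^ (1 : ℝ) :=
          Real.rpow_le_rpow_of_exponent_le (by linarith) hp
      _ = _ := Real.rpow_one _
  rw [h1, Real.mul_rpow hm0.le (by positivity)]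
  calc m ^ p * (1 + 1 / m) ^ p ≤ m ^ p * (1 + 1 / m) := by gcongr
    _ = _ := by ring

/-- The sampling inequality. -/
lemma sampling {k : ℝ} (hk : 1 < k) : ∃ η C : ℝ, 0 < η ∧ 0 ≤ C ∧ ∀ h h' : ℝ → ℝ,
    (∀ y, HasDerivAt h (h' y) y) → Continuous h' →
    IntegrableOn (fun t => t ^ k * h t ^ 2) (Ioi 0) →
    IntegrableOn (fun t => t ^ k * h' t ^ 2) (Ioi 0) →
    (∫ t in Ioi 0, t ^ k * h t ^ 2 = ∫ t in Ioi 0, t ^ k * h' t ^ 2) →
    ∀ S : ℝ, (∀ N : ℕ, ∑ n ∈ Finset.Icc 2 N, (n : ℝ) ^ (1 / k) * h (η * (n : ℝ) ^ (1 / k)) ^ 2 ≤ S) →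
      h η ^ 2 ≤ C * S := by
  have hk0 : 0 < k := by linarith
  have hk1 : 0 < k - 1 := by linarith
  set p := 1 / k with hp
  have hp0 : 0 < p := by positivity
  have hp1 : p ≤ 1 := by rw [hp, div_le_one hk0]; linarith
  have hpk : p * k = 1 := by rw [hp]; field_simp
  have h2k : 0 < (2 : ℝ) ^ k := Real.rpow_pos_of_pos two_pos _
  obtain ⟨η, hη0, hη1, hη2, hη3⟩ : ∃ η : ℝ, 0 < η ∧ η ≤ 1 ∧ η ≤ (k - 1) / 16 ∧
      η ≤ 1 / (4 * 2 ^ k) :=
    ⟨min 1 (min ((k - 1) / 16) (1 / (4 * 2 ^ k))), by positivity, min_le_left _ _,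
      (min_le_right _ _).trans (min_le_left _ _), (min_le_right _ _).trans (min_le_right _ _)⟩
  refine ⟨η, 2 + 2 * (η ^ (1 - k) / (k - 1)) * 8, hη0, by positivity,
    fun h h' hd hc i1 i2 heq S hS => ?_⟩
  have hh : Continuous h := continuous_iff_continuousAt.2 fun y => (hd y).continuousAt
  set y : ℕ → ℝ := fun n => η * (n : ℝ) ^ p with hy
  have hy0 : ∀ n, 0 ≤ y n := fun n => by simp only [hy]; positivity
  have hyk : ∀ n, y n ^ k ≤ n := by
    intro n
    simp only [hy]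
    rw [Real.mul_rpow hη0.le (by positivity), ← Real.rpow_mul (Nat.cast_nonneg n), hpk,
      Real.rpow_one]
    have : η ^ k ≤ 1 := Real.rpow_le_one hη0.le hη1 hk0.le
    calc η ^ k * n ≤ 1 * n := by gcongr
      _ = n := one_mul _
  have h2p : (2 : ℝ) ^ p ≤ 2 := by
    calc (2 : ℝ) ^ p ≤ 2 ^ (1 : ℝ) := Real.rpow_le_rpow_of_exponent_le one_le_two hp1
      _ = 2 := Real.rpow_one _
  have h2p' : 1 ≤ (2 : ℝ) ^ p := Real.one_le_rpow one_le_two hp0.le
  have hy2 : y 2 = η * 2 ^ p := by simp [hy]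
  have wpos : ∀ (f : ℝ → ℝ) (a b : ℝ), 0 ≤ a → a ≤ b → 0 ≤ ∫ t in a..b, t ^ k * f t ^ 2 :=
    fun f a b ha hab => intervalIntegral.integral_nonneg hab fun t ht =>
      mul_nonneg (Real.rpow_nonneg (ha.trans ht.1) _) (sq_nonneg _)
  have main : ∀ N : ℕ, 2 ≤ N → ∫ t in (0 : ℝ)..y N, t ^ k * h t ^ 2 ≤
      4 * ∑ n ∈ Finset.Icc 2 N, (n : ℝ) ^ p * h (y n) ^ 2 +
        1 / 2 * ∫ t in (0 : ℝ)..y N, t ^ k * h' t ^ 2 := by
    intro N hN
    induction N, hN using Nat.le_induction with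
    | base =>
      have a1 := local_le hk0 hd hc le_rfl (hy0 2) (κ := y 2 / (k - 1))
        (div_nonneg (hy0 2) hk1.le) (fun z hz _ hzb => by
          calc z ^ k * ∫ t in z..y 2, t ^ (-k) ≤ z ^ k * (z ^ (1 - k) / (k - 1)) := by
                gcongr; exact int_neg_le hk hz hzb
            _ = z / (k - 1) := by
                rw [← mul_div_assoc, ← Real.rpow_add hz]; simp
            _ ≤ _ := by gcongr)
      have a2 : (y 2 - 0) * y 2 ^ k ≤ 2 * ((2 : ℕ) : ℝ) ^ p := by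
        have := hyk 2
        have b1 : y 2 ≤ ((2 : ℕ) : ℝ) ^ p := by
          rw [hy2]; push_cast
          calc η * 2 ^ p ≤ 1 * 2 ^ p := by gcongr
            _ = _ := one_mul _
        rw [sub_zero, mul_comm]
        push_cast at this b1 ⊢
        have := hy0 2
        gcongr
      have a3 : (y 2 - 0) * (y 2 / (k - 1)) ≤ 1 / 4 := by
        have b1 : y 2 ≤ 2 * η := by rw [hy2]; nlinarith
        have b2 := hy0 2
        rw [sub_zero, ← mul_div_assoc, div_le_iff₀ hk1]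
        nlinarith
      have a4 := wpos h' 0 (y 2) le_rfl (hy0 2)
      rw [Finset.Icc_self, Finset.sum_singleton]
      have a5 : (y 2 - 0) * y 2 ^ k * h (y 2) ^ 2 ≤ 2 * ((2 : ℕ) : ℝ) ^ p * h (y 2) ^ 2 := by gcongr
      have a6 := mul_le_mul_of_nonneg_right a3 a4
      push_cast at a5 ⊢
      linarith
    | succ N hN ih =>
      have hN' : (2 : ℝ) ≤ N := by exact_mod_cast hN
      have hN0 : (0 : ℝ) < N := by linarith
      have hNp : 0 < (N : ℝ) ^ p := Real.rpow_pos_of_pos hN0 _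
      have g1 := gap_le hp1 (show (1 : ℝ) ≤ N by linarith)
      have g2 : (N : ℝ) ^ p ≤ ((N : ℝ) + 1) ^ p := Real.rpow_le_rpow hN0.le (by linarith) hp0.le
      have g3 : (N : ℝ) ^ p / N ≤ 1 := by
        rw [div_le_one hN0]
        calc (N : ℝ) ^ p ≤ (N : ℝ) ^ (1 : ℝ) := Real.rpow_le_rpow_of_exponent_le (by linarith) hp1
          _ = _ := Real.rpow_one _
      have e1 : y (N + 1) = η * ((N : ℝ) + 1) ^ p := by simp [hy]
      have e0 : y N = η * (N : ℝ) ^ p := rfl
      have hle : y N ≤ y (N + 1) := by rw [e1, e0]; gcongr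
      have hpos : 0 < y N := by rw [e0]; positivity
      have hgap : y (N + 1) - y N ≤ η * ((N : ℝ) ^ p / N) := by rw [e1, e0]; nlinarith
      have hgap' : y (N + 1) - y N ≤ η := hgap.trans (by nlinarith)
      have hdbl : y (N + 1) ≤ 2 * y N := by
        have : (N : ℝ) ^ p / N ≤ (N : ℝ) ^ p := div_le_self hNp.le (by linarith)
        rw [e1, e0]; nlinarith
      have a1 := local_le hk0 hd hc (hy0 N) hle (κ := η * 2 ^ k) (by positivity)
        (fun z hz haz hzb => by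
          have b1 : z ^ k ≤ 2 ^ k * y N ^ k := by
            rw [← Real.mul_rpow (by norm_num) hpos.le]
            exact Real.rpow_le_rpow hz.le (hzb.trans hdbl) hk0.le
          have b2 := int_neg_le' hk0 hpos haz hzb
          have b3 : 0 < y N ^ k := Real.rpow_pos_of_pos hpos _
          have b4 : 0 ≤ z ^ k := Real.rpow_nonneg hz.le _
          rw [Real.rpow_neg hpos.le] at b2
          calc z ^ k * ∫ t in z..y (N + 1), t ^ (-k) ≤ z ^ k * ((y (N + 1) - y N) * (y N ^ k)⁻¹) := by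
                gcongr
            _ ≤ (2 ^ k * y N ^ k) * (η * (y N ^ k)⁻¹) := by
                gcongr
            _ = η * 2 ^ k := by field_simp)
      have a2 : (y (N + 1) - y N) * y (N + 1) ^ k ≤ 2 * ((N + 1 : ℕ) : ℝ) ^ p := by
        have b1 := hyk (N + 1)
        push_cast at b1 ⊢
        have b2 : 0 ≤ y (N + 1) ^ k := Real.rpow_nonneg (hy0 _) _
        calc (y (N + 1) - y N) * y (N + 1) ^ k ≤ (η * ((N : ℝ) ^ p / N)) * (N + 1) := by gcongr
          _ ≤ (1 * ((N : ℝ) ^ p / N)) * (2 * N) := by gcongr; linarith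
          _ = 2 * (N : ℝ) ^ p := by field_simp
          _ ≤ _ := by gcongr
      have a3 : (y (N + 1) - y N) * (η * 2 ^ k) ≤ 1 / 4 := by
        have b1 : η * 2 ^ k ≤ 1 / 4 := by
          rw [le_div_iff₀ (by positivity)] at hη3
          linarith
        calc (y (N + 1) - y N) * (η * 2 ^ k) ≤ 1 * (1 / 4) := by gcongr; linarith
          _ = _ := one_mul _
      have a4 := wpos h' (y N) (y (N + 1)) (hy0 N) hle
      have a5 : (y (N + 1) - y N) * y (N + 1) ^ k * h (y (N + 1)) ^ 2 ≤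
          2 * ((N + 1 : ℕ) : ℝ) ^ p * h (y (N + 1)) ^ 2 := by gcongr
      have a6 := mul_le_mul_of_nonneg_right a3 a4
      rw [Finset.sum_Icc_succ_top (by omega),
        ← intervalIntegral.integral_add_adjacent_intervals (b := y N)
          ((cont_w hk0 hh).intervalIntegrable _ _) ((cont_w hk0 hh).intervalIntegrable _ _),
        ← intervalIntegral.integral_add_adjacent_intervals (b := y N)
          ((cont_w hk0 hc).intervalIntegrable _ _) ((cont_w hk0 hc).intervalIntegrable _ _)]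
      linarith
  have hyt : Tendsto y atTop atTop :=
    ((tendsto_rpow_atTop hp0).comp tendsto_natCast_atTop_atTop).const_mul_atTop hη0
  have t1 := intervalIntegral_tendsto_integral_Ioi 0 i1 hyt
  have t2 := intervalIntegral_tendsto_integral_Ioi 0 i2 hyt
  set Q := ∫ t in Ioi (0 : ℝ), t ^ k * h' t ^ 2 with hQ
  have hQS : Q ≤ 8 * S := by
    have := le_of_tendsto_of_tendsto t1 ((t2.const_mul (1 / 2)).const_add (4 * S)) (by
      filter_upwards [eventually_ge_atTop 2] with N hN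
      have := main N hN
      have := hS N
      linarith)
    linarith
  have hE : ∫ t in (0 : ℝ)..y 2, t ^ k * h' t ^ 2 ≤ Q := by
    refine ge_of_tendsto t2 ?_
    filter_upwards [hyt.eventually_ge_atTop (y 2)] with N hN
    rw [← intervalIntegral.integral_add_adjacent_intervals (b := y 2) (c := y N)
      ((cont_w hk0 hc).intervalIntegrable _ _) ((cont_w hk0 hc).intervalIntegrable _ _)]
    linarith [wpos h' (y 2) (y N) (hy0 2) hN]
  have hηy : η ≤ y 2 := by rw [hy2]; nlinarith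
  have d1 := diff_le hk0 hd hc le_rfl hη0 hη0.le hηy
  have d2 := int_neg_le hk hη0 hηy
  have d3 := wpos h' 0 (y 2) le_rfl (hy0 2)
  have d4 : (h (y 2) - h η) ^ 2 ≤ η ^ (1 - k) / (k - 1) * (8 * S) := by
    refine d1.trans ?_
    gcongr
    exact hE.trans hQS
  have d5 : h (y 2) ^ 2 ≤ S := by
    have := hS 2
    rw [Finset.Icc_self, Finset.sum_singleton] at this
    push_cast at this
    rw [hy2]
    nlinarith [sq_nonneg (h (η * 2 ^ p))]
  nlinarith [sq_nonneg (2 * h (y 2) - h η)]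

end Pool.Agent.H464Z.Theta
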