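import Pool.Agent.H464Z.ThetaA

/-!
The exotic theta relation.
-/

namespace Pool.Agent.H464Z.Theta

open MeasureTheory Set Filter Topology

lemma int_w {k s : ℝ} (hk : 0 < k) (hs : 0 < s) :
    IntegrableOn (fun y : ℝ => y ^ k * Real.exp (-(s * y))) (Ioi 0) ∧
      ∫ y in Ioi (0 : ℝ), y ^ k * Real.exp (-(s * y)) = s ^ (-(k + 1)) * Real.Gamma (k + 1) := by
  constructor
  · have := integrableOn_rpow_mul_exp_neg_mul_rpow (p := 1) (s := k) (b := s) (by linarith)
      one_pos hs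
    simpa using this
  · have := Real.integral_rpow_mul_exp_neg_mul_Ioi (a := k + 1) (r := s) (by linarith) hs
    rw [add_sub_cancel_right] at this
    rw [this, one_div, Real.inv_rpow hs.le, Real.rpow_neg hs.le]

/-- a combination of two exponentials -/
noncomputable def ex (c d s u y : ℝ) : ℝ := c * Real.exp (-(s * y)) + d * Real.exp (-(u * y))

lemma int_ex {k s u s' u' : ℝ} (c d c' d' : ℝ) (hk : 0 < k) (hs : 0 < s) (hu : 0 < u)
    (hs' : 0 < s') (hu' : 0 < u') :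
    IntegrableOn (fun y : ℝ => y ^ k * (ex c d s u y * ex c' d' s' u' y)) (Ioi 0) ∧
      ∫ y in Ioi (0 : ℝ), y ^ k * (ex c d s u y * ex c' d' s' u' y) =
        (c * c' * (s + s') ^ (-(k + 1)) + c * d' * (s + u') ^ (-(k + 1)) +
          d * c' * (u + s') ^ (-(k + 1)) + d * d' * (u + u') ^ (-(k + 1))) *
            Real.Gamma (k + 1) := by
  have e : (fun y : ℝ => y ^ k * (ex c d s u y * ex c' d' s' u' y)) = fun y : ℝ =>
      c * c' * (y ^ k * Real.exp (-((s + s') * y))) + c * d' * (y ^ k * Real.exp (-((s + u') * y))) +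
        d * c' * (y ^ k * Real.exp (-((u + s') * y))) +
          d * d' * (y ^ k * Real.exp (-((u + u') * y))) := by
    ext y
    simp only [ex, add_mul, neg_add, Real.exp_add]
    ring
  obtain ⟨a1, b1⟩ := int_w hk (add_pos hs hs')
  obtain ⟨a2, b2⟩ := int_w hk (add_pos hs hu')
  obtain ⟨a3, b3⟩ := int_w hk (add_pos hu hs')
  obtain ⟨a4, b4⟩ := int_w hk (add_pos hu hu')
  have c1 := a1.const_mul (c * c')
  have c2 := a2.const_mul (c * d')
  have c3 := a3.const_mul (d * c')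
  have c4 := a4.const_mul (d * d')
  rw [e]
  refine ⟨((c1.add c2).add c3).add c4, ?_⟩
  rw [integral_add ((c1.fun_add c2).fun_add c3) c4, integral_add (c1.fun_add c2) c3,
    integral_add c1 c2, integral_const_mul, integral_const_mul, integral_const_mul, integral_const_mul, b1, b2, b3, b4]
  ring

/-- the generators -/
noncomputable def g (k t : ℝ) : ℝ → ℝ := ex 1 (-t ^ (-k)) t (1 / t)

/-- their derivatives -/
noncomputable def g' (k t : ℝ) : ℝ → ℝ := ex (-t) (t ^ (-k) / t) t (1 / t)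

lemma hasDerivAt_g (k t y : ℝ) : HasDerivAt (g k t) (g' k t y) y := by
  have h1 : ∀ s : ℝ, HasDerivAt (fun y : ℝ => Real.exp (-(s * y))) (Real.exp (-(s * y)) * (-s)) y := by
    intro s
    have := ((hasDerivAt_id y).const_mul s).neg.exp
    simpa using this
  have := ((h1 t).const_mul 1).add ((h1 (1 / t)).const_mul (-t ^ (-k)))
  refine HasDerivAt.congr_deriv (f := g k t) this ?_
  unfold g' ex
  ring

lemma continuous_g' (k t : ℝ) : Continuous (g' k t) := by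
  unfold g' ex
  fun_prop

lemma bilin {k t s : ℝ} (hk : 0 < k) (ht : 0 < t) (hs : 0 < s) :
    IntegrableOn (fun y : ℝ => y ^ k * (g k t y * g k s y)) (Ioi 0) ∧
    IntegrableOn (fun y : ℝ => y ^ k * (g' k t y * g' k s y)) (Ioi 0) ∧
      ∫ y in Ioi (0 : ℝ), y ^ k * (g k t y * g k s y) =
        ∫ y in Ioi (0 : ℝ), y ^ k * (g' k t y * g' k s y) := by
  obtain ⟨a1, b1⟩ := int_ex 1 (-t ^ (-k)) 1 (-s ^ (-k)) hk ht (one_div_pos.2 ht) hs
    (one_div_pos.2 hs)
  obtain ⟨a2, b2⟩ := int_ex (-t) (t ^ (-k) / t) (-s) (s ^ (-k) / s) hk ht (one_div_pos.2 ht) hs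
    (one_div_pos.2 hs)
  refine ⟨a1, a2, ?_⟩
  unfold g g'
  rw [b1, b2]
  congr 1
  have hts : 0 < 1 + t * s := by positivity
  have e1 : t + 1 / s = (1 + t * s) / s := by field_simp; ring
  have e2 : 1 / t + s = (1 + t * s) / t := by field_simp
  have e3 : 1 / t + 1 / s = (t + s) / t / s := by field_simp; ring
  have r : ∀ x : ℝ, 0 < x → x ^ (-(k + 1)) = x ^ (-k) / x := by
    intro x hx
    rw [neg_add, Real.rpow_add hx, Real.rpow_neg_one]; rfl
  rw [e1, e2, e3, Real.div_rpow hts.le hs.le, Real.div_rpow hts.le ht.le,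
    Real.div_rpow (by positivity) hs.le, Real.div_rpow (by positivity) ht.le, r t ht, r s hs]
  have p1 : 0 < t ^ (-k) := Real.rpow_pos_of_pos ht _
  have p2 : 0 < s ^ (-k) := Real.rpow_pos_of_pos hs _
  generalize (t + s) ^ (-(k + 1)) = A
  generalize (1 + t * s) ^ (-(k + 1)) = B
  generalize t ^ (-k) = T at *
  generalize s ^ (-k) = U at *
  field_simp
  ring

lemma comb {k : ℝ} (hk : 0 < k) {n : ℕ} (c t : Fin n → ℝ) (ht : ∀ i, 0 < t i) :
    IntegrableOn (fun y : ℝ => y ^ k * (∑ i, c i * g k (t i) y) ^ 2) (Ioi 0) ∧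
    IntegrableOn (fun y : ℝ => y ^ k * (∑ i, c i * g' k (t i) y) ^ 2) (Ioi 0) ∧
      ∫ y in Ioi (0 : ℝ), y ^ k * (∑ i, c i * g k (t i) y) ^ 2 =
        ∫ y in Ioi (0 : ℝ), y ^ k * (∑ i, c i * g' k (t i) y) ^ 2 := by
  have e : ∀ f : ℝ → ℝ → ℝ, (fun y : ℝ => y ^ k * (∑ i, c i * f (t i) y) ^ 2) =
      fun y : ℝ => ∑ i, ∑ j, c i * c j * (y ^ k * (f (t i) y * f (t j) y)) := by
    intro f
    ext y
    rw [sq, Finset.sum_mul_sum, Finset.mul_sum]
    refine Finset.sum_congr rfl fun i _ => ?_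
    rw [Finset.mul_sum]
    refine Finset.sum_congr rfl fun j _ => ?_
    ring
  have i1 : ∀ i j, Integrable (fun y : ℝ => c i * c j * (y ^ k * (g k (t i) y * g k (t j) y)))
      (volume.restrict (Ioi 0)) := fun i j => (bilin hk (ht i) (ht j)).1.const_mul _
  have i2 : ∀ i j, Integrable (fun y : ℝ => c i * c j * (y ^ k * (g' k (t i) y * g' k (t j) y)))
      (volume.restrict (Ioi 0)) := fun i j => (bilin hk (ht i) (ht j)).2.1.const_mul _
  rw [e (g k), e (g' k)]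
  refine ⟨integrable_finsetSum _ fun i _ => integrable_finsetSum _ fun j _ => i1 i j,
    integrable_finsetSum _ fun i _ => integrable_finsetSum _ fun j _ => i2 i j, ?_⟩
  rw [integral_finsetSum _ fun i _ => integrable_finsetSum _ fun j _ => i1 i j,
    integral_finsetSum _ fun i _ => integrable_finsetSum _ fun j _ => i2 i j]
  refine Finset.sum_congr rfl fun i _ => ?_
  rw [integral_finsetSum _ fun j _ => i1 i j, integral_finsetSum _ fun j _ => i2 i j]
  refine Finset.sum_congr rfl fun j _ => ?_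
  rw [integral_const_mul, integral_const_mul, (bilin hk (ht i) (ht j)).2.2]

lemma summable_decay {p c : ℝ} (hp : 0 < p) (hc : 0 < c) :
    Summable fun n : ℕ => (n : ℝ) ^ p * Real.exp (-(c * (n : ℝ) ^ p)) := by
  obtain ⟨m, hm⟩ := exists_nat_ge (2 / p + 1)
  have hm' : p - m * p ≤ -2 := by
    have : 2 / p * p = 2 := by field_simp
    nlinarith
  rw [← summable_nat_add_iff 1]
  have hs : Summable fun n : ℕ => (m.factorial : ℝ) / c ^ m * ((n + 1 : ℕ) : ℝ) ^ (-2 : ℝ) :=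
    ((summable_nat_add_iff 1).2 (Real.summable_nat_rpow.2 (by norm_num))).mul_left _
  refine Summable.of_nonneg_of_le (fun n => by positivity) (fun n => ?_) hs
  set x : ℝ := ((n + 1 : ℕ) : ℝ) with hx
  have hx1 : 1 ≤ x := by rw [hx]; exact_mod_cast Nat.succ_pos n
  have hx0 : 0 < x := by linarith
  have hxp : 0 < x ^ p := Real.rpow_pos_of_pos hx0 _
  have a1 := Real.pow_div_factorial_le_exp (c * x ^ p) (by positivity) m
  have a2 : Real.exp (-(c * x ^ p)) ≤ ((c * x ^ p) ^ m / m.factorial)⁻¹ := by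
    rw [Real.exp_neg]
    exact inv_anti₀ (by positivity) a1
  calc x ^ p * Real.exp (-(c * x ^ p)) ≤ x ^ p * ((c * x ^ p) ^ m / m.factorial)⁻¹ := by gcongr
    _ = (m.factorial : ℝ) / c ^ m * x ^ (p - m * p) := by
        rw [Real.rpow_sub hx0, mul_comm (m : ℝ) p, Real.rpow_mul hx0.le, Real.rpow_natCast, mul_pow]
        field_simp
    _ ≤ _ := by
        gcongr

end Pool.Agent.H464Z.Theta

namespace Pool.Agent.H520Z.Sel

open MeasureTheory Set Filter Topology Pool.Agent.H464Z.Theta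

theorem exotic_theta (lam : ℝ) (hlam : 1 < lam) : ∃ (η C : ℝ) (a : ℕ → ℝ), 0 < η ∧ a 0 = 0 ∧
    a 1 = 1 ∧ (∀ n : ℕ, 1 ≤ n → |a n| ≤ C * (n : ℝ) ^ (1 : ℝ)) ∧
    (∀ σ : ℝ, (1 + 1 / lam) / 2 < σ → Summable fun n : ℕ => |a n| * (n : ℝ) ^ (-σ)) ∧
    ∀ t : ℝ, 0 < t → ∑' n : ℕ, a n * Real.exp (-(t * (η * (n : ℝ) ^ (1 / lam)))) =
      t ^ (-lam) * ∑' n : ℕ, a n * Real.exp (-(η * (n : ℝ) ^ (1 / lam) / t)) := by
  classical
  obtain ⟨η, C, hη, hC, hsamp⟩ := sampling hlam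
  have hk0 : 0 < lam := by linarith
  set p := 1 / lam with hp
  have hp0 : 0 < p := by positivity
  have hp1 : p ≤ 1 := by rw [hp, div_le_one hk0]; linarith
  have hw : ∀ n : ℕ, ((n : ℝ) ^ (p / 2)) ^ 2 = (n : ℝ) ^ p := by
    intro n
    rw [← Real.rpow_natCast, ← Real.rpow_mul (Nat.cast_nonneg n)]
    norm_num
  have h2 : ∀ x : ℝ, ‖x‖ ^ (2 : ENNReal).toReal = x ^ 2 := by
    intro x
    simp
  have hmem : ∀ s : ℝ, 0 < s → Memℓp (E := fun _ : ℕ => ℝ)
      (fun n : ℕ => (n : ℝ) ^ (p / 2) * Real.exp (-(s * (η * (n : ℝ) ^ p)))) 2 := by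
    intro s hs
    refine memℓp_gen ?_
    simp_rw [h2]
    refine (summable_decay hp0 (c := 2 * s * η) (by positivity)).congr fun n => ?_
    rw [mul_pow, hw, ← Real.exp_nat_mul]
    congr 2
    push_cast
    ring
  let v : {s : ℝ // 0 < s} → lp (fun _ : ℕ => ℝ) 2 := fun s => ⟨_, hmem s.1 s.2⟩
  have hv : ∀ s n, v s n = (n : ℝ) ^ (p / 2) * Real.exp (-(s.1 * (η * (n : ℝ) ^ p))) :=
    fun s n => rfl
  let u : {s : ℝ // 0 < s} → lp (fun _ : ℕ => ℝ) 2 := fun s =>
    v s - s.1 ^ (-lam) • v ⟨1 / s.1, one_div_pos.2 s.2⟩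
  have hu : ∀ s n, u s n = (n : ℝ) ^ (p / 2) * g lam s.1 (η * (n : ℝ) ^ p) := by
    intro s n
    simp only [u, lp.coeFn_sub, lp.coeFn_smul, Pi.sub_apply, Pi.smul_apply, hv, smul_eq_mul, g, ex]
    ring
  set K : Submodule ℝ (lp (fun _ : ℕ => ℝ) 2) := Submodule.span ℝ (range u) with hK
  have hF : ∀ x ∈ K, x 1 ^ 2 ≤ C * (‖x‖ ^ 2 - x 1 ^ 2) := by
    intro x hx
    obtain ⟨n, c, z, rfl⟩ := Submodule.mem_span_set'.1 hx
    choose t ht using fun i => (z i).2
    set x := ∑ i, c i • (z i : lp (fun _ : ℕ => ℝ) 2) with hxdef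
    have hxn : ∀ m : ℕ, x m = (m : ℝ) ^ (p / 2) * ∑ i, c i * g lam (t i).1 (η * (m : ℝ) ^ p) := by
      intro m
      rw [hxdef, lp.coeFn_sum, Finset.sum_apply, Finset.mul_sum]
      refine Finset.sum_congr rfl fun i _ => ?_
      rw [← ht i, lp.coeFn_smul, Pi.smul_apply, hu, smul_eq_mul]
      ring
    obtain ⟨j1, j2, j3⟩ := comb hk0 c (fun i => (t i).1) (fun i => (t i).2)
    have := hsamp (fun y => ∑ i, c i * g lam (t i).1 y) (fun y => ∑ i, c i * g' lam (t i).1 y)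
      (fun y => HasDerivAt.fun_sum fun i _ => (hasDerivAt_g lam (t i).1 y).const_mul (c i))
      (continuous_finsetSum _ fun i _ => continuous_const.mul (continuous_g' _ _)) j1 j2 j3
      (‖x‖ ^ 2 - x 1 ^ 2) (fun N => by
        have b1 := lp.sum_rpow_le_norm_rpow (p := 2) (by simp) x (insert 1 (Finset.Icc 2 N))
        rw [Finset.sum_insert (by simp)] at b1
        simp_rw [h2] at b1
        have b2 : ‖x‖ ^ (2 : ENNReal).toReal = ‖x‖ ^ 2 := by simp
        rw [b2] at b1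
        have b3 : ∑ n ∈ Finset.Icc 2 N, (n : ℝ) ^ p * (∑ i, c i * g lam (t i).1 (η * (n : ℝ) ^ p)) ^ 2 =
            ∑ n ∈ Finset.Icc 2 N, x n ^ 2 := by
          refine Finset.sum_congr rfl fun m _ => ?_
          rw [hxn, mul_pow, hw]
        rw [b3]
        linarith)
    have b4 : x 1 = ∑ i, c i * g lam (t i).1 η := by
      rw [hxn]; simp
    rw [b4] at this ⊢
    exact this
  have hev : Continuous fun x : lp (fun _ : ℕ => ℝ) 2 => x 1 :=
    (lp.evalCLM ℝ (fun _ : ℕ => ℝ) 2 1).continuous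
  obtain ⟨b, hbK, hb1⟩ : ∃ b ∈ Kᗮ, b 1 ≠ 0 := by
    by_contra hcon
    push Not at hcon
    have he : lp.single 2 1 (1 : ℝ) ∈ Kᗮᗮ := by
      rw [Submodule.mem_orthogonal]
      intro b hb
      rw [lp.inner_single_right]
      simp [hcon b hb]
    rw [Submodule.orthogonal_orthogonal_eq_closure] at he
    have hcl : IsClosed {x : lp (fun _ : ℕ => ℝ) 2 | x 1 ^ 2 ≤ C * (‖x‖ ^ 2 - x 1 ^ 2)} :=
      isClosed_le (hev.pow 2) (continuous_const.mul ((continuous_norm.pow 2).sub (hev.pow 2)))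
    have : (lp.single 2 1 (1 : ℝ) : lp (fun _ : ℕ => ℝ) 2) 1 ^ 2 ≤
        C * (‖(lp.single 2 1 (1 : ℝ) : lp (fun _ : ℕ => ℝ) 2)‖ ^ 2 -
          (lp.single 2 1 (1 : ℝ) : lp (fun _ : ℕ => ℝ) 2) 1 ^ 2) :=
      closure_minimal (s := (K : Set (lp (fun _ : ℕ => ℝ) 2))) hF hcl he
    rw [lp.norm_single (by simp), lp.single_apply_self] at this
    norm_num at this
  have hb0 : 0 < |b 1| := abs_pos.2 hb1
  refine ⟨η, ‖b‖ / |b 1|, fun n => b n * (n : ℝ) ^ (p / 2) / b 1, hη, ?_, ?_, ?_, ?_, ?_⟩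
  · have : p / 2 ≠ 0 := by positivity
    simp [Real.zero_rpow this]
  · simp [hb1]
  · intro n hn
    have hn' : (1 : ℝ) ≤ n := by exact_mod_cast hn
    have a1 : |b n| ≤ ‖b‖ := lp.norm_apply_le_norm (by simp) b n
    have a2 : (n : ℝ) ^ (p / 2) ≤ (n : ℝ) ^ (1 : ℝ) :=
      Real.rpow_le_rpow_of_exponent_le hn' (by linarith)
    rw [abs_div, abs_mul, abs_of_nonneg (by positivity : 0 ≤ (n : ℝ) ^ (p / 2)), div_mul_eq_mul_div]
    gcongr
  · intro σ hσ
    have s1 : Summable fun n => b n ^ 2 := by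
      have := (memℓp_gen_iff (p := 2) (by simp)).1 (lp.memℓp b)
      simpa only [h2] using this
    have s2 : Summable fun n : ℕ => (n : ℝ) ^ (p - 2 * σ) :=
      Real.summable_nat_rpow.2 (by linarith)
    rw [← summable_nat_add_iff 1]
    refine Summable.of_nonneg_of_le (fun n => by positivity) (fun n => ?_)
      (((summable_nat_add_iff 1).2 (s1.add s2)).div_const |b 1|)
    set x : ℝ := ((n + 1 : ℕ) : ℝ) with hx
    have hx0 : 0 < x := by rw [hx]; exact_mod_cast Nat.succ_pos n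
    rw [abs_div, abs_mul, abs_of_nonneg (by positivity : 0 ≤ x ^ (p / 2)), div_mul_eq_mul_div,
      mul_assoc, ← Real.rpow_add hx0]
    have a1 : (x ^ (p / 2 + -σ)) ^ 2 = x ^ (p - 2 * σ) := by
      rw [← Real.rpow_natCast, ← Real.rpow_mul hx0.le]
      congr 1
      push_cast
      ring
    gcongr
    rw [← a1, ← sq_abs (b (n + 1))]
    have a2 : 0 ≤ |b (n + 1)| * x ^ (p / 2 + -σ) := by positivity
    nlinarith [sq_nonneg (|b (n + 1)| - x ^ (p / 2 + -σ))]
  · intro t ht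
    have hin : ∀ s : {s : ℝ // 0 < s}, ∑' n : ℕ, b n * (n : ℝ) ^ (p / 2) / b 1 *
        Real.exp (-(s.1 * (η * (n : ℝ) ^ p))) = inner ℝ (v s) b / b 1 := by
      intro s
      rw [lp.inner_eq_tsum, ← tsum_div_const]
      refine tsum_congr fun n => ?_
      rw [hv]
      simp only [RCLike.inner_apply, conj_trivial]
      ring
    have h0 : inner ℝ (u ⟨t, ht⟩) b = 0 :=
      (Submodule.mem_orthogonal K b).1 hbK _ (Submodule.subset_span ⟨_, rfl⟩)
    simp only [u, inner_sub_left, real_inner_smul_left] at h0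
    have e1 := hin ⟨t, ht⟩
    have e2 := hin ⟨1 / t, one_div_pos.2 ht⟩
    simp only at e1 e2
    have e3 : ∀ n : ℕ, η * (n : ℝ) ^ p / t = 1 / t * (η * (n : ℝ) ^ p) := fun n => by ring
    simp_rw [e3]
    rw [e1, e2, ← mul_div_assoc, sub_eq_zero.1 h0]

end Pool.Agent.H520Z.Sel
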